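import Mathlib

/-! The sum of squares identity for infinitesimal deformations of Gram matrices. -/

namespace Pool.Agent.TH792.VeeA

open Finset Matrix

noncomputable section

open scoped Classical

lemma trace_id {κ : Type*} [Fintype κ] (A B : Matrix κ κ ℝ) (c : ℝ) (hBA : B * A = c • B) :
    (Bᵀ * A * (Bᵀ * A)).trace = c ^ 2 * (B * B).trace ∨ Aᵀ ≠ A := by
  by_cases hA : Aᵀ = A
  · left
    have h1 : (Bᵀ * A * (Bᵀ * A)).trace = ((Bᵀ * A * (Bᵀ * A))ᵀ).trace :=
      (Matrix.trace_transpose _).symm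
    have h2 : (Bᵀ * A * (Bᵀ * A))ᵀ = A * (B * A * B) := by
      simp only [Matrix.transpose_mul, Matrix.transpose_transpose, hA]
      simp only [Matrix.mul_assoc]
    rw [h1, h2, Matrix.trace_mul_comm, Matrix.mul_assoc, hBA]
    simp only [Matrix.smul_mul, Matrix.mul_smul, smul_smul, Matrix.trace_smul, smul_eq_mul]
    ring
  · right; exact hA

variable {ι : Type*} [Fintype ι] [DecidableEq ι]

theorem partA (Ls : Finset (Finset ι)) (ν : Finset ι → ℝ)
    (huniq : ∀ i j, i ≠ j → ∀ P ∈ Ls, ∀ Q ∈ Ls, i ∈ P → j ∈ P → i ∈ Q → j ∈ Q → P = Q)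
    (hν : ∀ P ∈ Ls, ν P ≠ 0)
    (X D : Matrix ι ι ℝ) (hXs : Xᵀ = X) (hDs : Dᵀ = D)
    (hXX : X * X = X) (hDX : D * X + X * D = D) (hDd : ∀ i, D i i = 0)
    (hDsm : ∀ i j, i ≠ j → (∀ P ∈ Ls, i ∈ P → j ∉ P) → D i j = 0)
    (hXb : ∀ P ∈ Ls, ∀ l ∈ P, ∀ m, ∑ k ∈ P, X m k * X k l = ν P * X m l)
    (hDb : ∀ P ∈ Ls, ∀ l ∈ P, ∀ m,
      ∑ k ∈ P, (D m k * X k l + X m k * D k l) = ν P * D m l) :
    (∀ i j, i ≠ j → (∀ P ∈ Ls, i ∈ P → j ∉ P) → (D * X) i j = 0) ∧
    (∀ P ∈ Ls, ∀ l ∈ P, ∀ m ∈ P, ∑ k ∈ P, (D * X) k l * X k m = 0) := by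
  have hXDX : X * D * X = 0 := by
    have h1 : X * (D * X + X * D) = X * D := by rw [hDX]
    rw [Matrix.mul_add, ← Matrix.mul_assoc, ← Matrix.mul_assoc, hXX] at h1
    simpa using h1
  set U := D * X with hU
  have hUt : Uᵀ = X * D := by rw [hU, Matrix.transpose_mul, hXs, hDs]
  have hD : D = U + Uᵀ := by rw [hUt, hU, hDX]
  have hUX : U * X = U := by rw [hU, Matrix.mul_assoc, hXX]
  have hUU : U * U = 0 := by
    rw [hU, Matrix.mul_assoc, ← Matrix.mul_assoc X D X, hXDX, Matrix.mul_zero]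
  have hDij : ∀ i j, D i j = U i j + U j i := by
    intro i j
    conv_lhs => rw [hD]
    rfl
  have hXij : ∀ i j, X i j = X j i := by
    intro i j
    conv_lhs => rw [← hXs]
    rfl
  have hUd : ∀ i, U i i = 0 := by
    intro i
    have := hDij i i
    rw [hDd i] at this
    linarith
  -- relation on a big flat
  have hUXP : ∀ P ∈ Ls, ∀ m ∈ P, ∀ l, ∑ k ∈ P, U l k * X k m = ν P * U l m := by
    intro P hP m hm l
    have h1 : ∀ k, U l k = ∑ p, D l p * X p k := fun k => by rw [hU, Matrix.mul_apply]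
    simp only [h1, Finset.sum_mul]
    rw [Finset.sum_comm, Finset.mul_sum]
    refine Finset.sum_congr rfl fun p _ => ?_
    have := hXb P hP m hm p
    calc ∑ k ∈ P, D l p * X p k * X k m = D l p * ∑ k ∈ P, X p k * X k m := by
          rw [Finset.mul_sum]; exact Finset.sum_congr rfl fun k _ => by ring
      _ = ν P * (D l p * X p m) := by rw [this]; ring
  have hM : ∀ P ∈ Ls, ∀ l ∈ P, ∀ n ∈ P,
      ∑ k ∈ P, U k n * X k l + ∑ k ∈ P, U k l * X k n = 0 := by
    intro P hP l hl n hn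
    have h1 : ∑ m, X n m * ∑ k ∈ P, (D m k * X k l + X m k * D k l) =
        ∑ m, X n m * (ν P * D m l) :=
      Finset.sum_congr rfl fun m _ => by rw [hDb P hP l hl m]
    have h2 : ∑ m, X n m * ∑ k ∈ P, (D m k * X k l + X m k * D k l) =
        ∑ k ∈ P, ((X * D) n k * X k l + (X * X) n k * D k l) := by
      simp only [Finset.mul_sum]
      rw [Finset.sum_comm]
      refine Finset.sum_congr rfl fun k _ => ?_
      rw [Matrix.mul_apply, Matrix.mul_apply, Finset.sum_mul, Finset.sum_mul,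
        ← Finset.sum_add_distrib]
      exact Finset.sum_congr rfl fun m _ => by ring
    have h3 : ∑ m, X n m * (ν P * D m l) = ν P * (X * D) n l := by
      rw [Matrix.mul_apply, Finset.mul_sum]
      exact Finset.sum_congr rfl fun m _ => by ring
    rw [h2, h3, hXX, ← hUt] at h1
    simp only [Matrix.transpose_apply, Finset.sum_add_distrib] at h1
    have h4 : ∑ k ∈ P, X n k * D k l = ∑ k ∈ P, U k l * X k n + ∑ k ∈ P, U l k * X k n := by
      rw [← Finset.sum_add_distrib]
      refine Finset.sum_congr rfl fun k _ => ?_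
      rw [hDij k l, hXij n k]; ring
    rw [h4, hUXP P hP n hn l] at h1
    linarith
  -- trace identity
  have hT : ∀ P ∈ Ls, ∑ j ∈ P, ∑ k ∈ P, U j k * U k j =
      - (ν P)⁻¹ ^ 2 * ∑ l ∈ P, ∑ m ∈ P, (∑ k ∈ P, U k l * X k m) ^ 2 := by
    intro P hP
    let A : Matrix P P ℝ := fun i j => X i j
    let B : Matrix P P ℝ := fun i j => U i j
    have hAs : Aᵀ = A := by
      ext i j
      exact hXij j i
    have hBA : B * A = ν P • B := by
      ext l m
      rw [Matrix.mul_apply, Matrix.smul_apply, smul_eq_mul]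
      have := hUXP P hP m m.2 l
      rw [← Finset.sum_coe_sort] at this
      exact this
    have hMM : ∀ l m : P, (Bᵀ * A) l m = ∑ k ∈ P, U k l * X k m := by
      intro l m
      rw [Matrix.mul_apply, ← Finset.sum_coe_sort P (fun k => U k l * X k m)]
      rfl
    have h1 := (trace_id A B (ν P) hBA).resolve_right (fun h => h hAs)
    have h2 : (Bᵀ * A * (Bᵀ * A)).trace =
        - ∑ l ∈ P, ∑ m ∈ P, (∑ k ∈ P, U k l * X k m) ^ 2 := by
      rw [Matrix.trace, ← Finset.sum_neg_distrib, ← Finset.sum_coe_sort P]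
      refine Finset.sum_congr rfl fun l _ => ?_
      rw [Matrix.diag_apply, Matrix.mul_apply, ← Finset.sum_neg_distrib,
        ← Finset.sum_coe_sort P]
      refine Finset.sum_congr rfl fun m _ => ?_
      rw [hMM, hMM]
      have := hM P hP l l.2 m m.2
      have e : ∑ k ∈ P, U k m * X k l = - ∑ k ∈ P, U k l * X k m := by linarith
      rw [e]; ring
    have h3 : (B * B).trace = ∑ j ∈ P, ∑ k ∈ P, U j k * U k j := by
      rw [Matrix.trace, ← Finset.sum_coe_sort P]
      refine Finset.sum_congr rfl fun l _ => ?_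
      rw [Matrix.diag_apply, Matrix.mul_apply, ← Finset.sum_coe_sort P]
    rw [h2, h3] at h1
    have hν' := hν P hP
    field_simp
    linarith
  -- global identity
  set sm : ι → ι → Prop := fun i j => i ≠ j ∧ ∀ P ∈ Ls, i ∈ P → j ∉ P with hsm
  have hsplit : ∀ j k, U j k * U k j =
      (∑ P ∈ Ls, if j ∈ P ∧ k ∈ P then U j k * U k j else 0) +
      (if sm j k then -(U j k) ^ 2 else 0) := by
    intro j k
    by_cases hjk : j = k
    · subst hjk
      simp [hUd, hsm]
    · by_cases hs : sm j k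
      · rw [if_pos hs, Finset.sum_eq_zero]
        · have := hDsm j k hs.1 hs.2
          rw [hDij] at this
          have e : U k j = - U j k := by linarith
          rw [e]; ring
        · intro P hP
          rw [if_neg]
          rintro ⟨h1, h2⟩
          exact hs.2 P hP h1 h2
      · rw [if_neg hs, add_zero]
        have : ∃ P ∈ Ls, j ∈ P ∧ k ∈ P := by
          by_contra hcon
          push Not at hcon
          exact hs ⟨hjk, hcon⟩
        obtain ⟨P, hP, hjP, hkP⟩ := this
        rw [Finset.sum_eq_single P]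
        · rw [if_pos ⟨hjP, hkP⟩]
        · intro Q hQ hQP
          rw [if_neg]
          rintro ⟨h1, h2⟩
          exact hQP (huniq j k hjk Q hQ P hP h1 h2 hjP hkP)
        · intro h; exact absurd hP h
  have hzero : ∑ j, ∑ k, U j k * U k j = 0 := by
    refine Finset.sum_eq_zero fun j _ => ?_
    have := congrFun (congrFun hUU j) j
    rw [Matrix.mul_apply] at this
    simpa using this
  have htot : ∑ j, ∑ k, U j k * U k j =
      ∑ P ∈ Ls, (∑ j ∈ P, ∑ k ∈ P, U j k * U k j) +
      ∑ j, ∑ k, (if sm j k then -(U j k) ^ 2 else 0) := by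
    have e1 : ∑ j, ∑ k, U j k * U k j = ∑ j, ∑ k,
        ((∑ P ∈ Ls, if j ∈ P ∧ k ∈ P then U j k * U k j else 0) +
        (if sm j k then -(U j k) ^ 2 else 0)) :=
      Finset.sum_congr rfl fun j _ => Finset.sum_congr rfl fun k _ => hsplit j k
    rw [e1]
    simp only [Finset.sum_add_distrib]
    congr 1
    have e2 : ∀ j, ∑ k, ∑ P ∈ Ls, (if j ∈ P ∧ k ∈ P then U j k * U k j else 0) =
        ∑ P ∈ Ls, ∑ k, (if j ∈ P ∧ k ∈ P then U j k * U k j else 0) :=
      fun j => Finset.sum_comm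
    simp only [e2]
    rw [Finset.sum_comm]
    refine Finset.sum_congr rfl fun P _ => ?_
    rw [← Finset.sum_filter_add_sum_filter_not Finset.univ (fun j => j ∈ P)
      (fun j => ∑ k, (if j ∈ P ∧ k ∈ P then U j k * U k j else 0))]
    rw [Finset.sum_eq_zero (s := Finset.univ.filter (fun j => ¬ j ∈ P)), add_zero]
    · have : Finset.univ.filter (fun j => j ∈ P) = P := by ext; simp
      rw [this]
      refine Finset.sum_congr rfl fun j hj => ?_
      rw [← Finset.sum_filter]
      have : Finset.univ.filter (fun k => j ∈ P ∧ k ∈ P) = P := by ext; simp [hj]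
      rw [this]
    · intro j hj
      refine Finset.sum_eq_zero fun k _ => ?_
      rw [if_neg]
      rintro ⟨h1, _⟩
      exact (Finset.mem_filter.1 hj).2 h1
  rw [hzero] at htot
  -- every term vanishes
  have hneg1 : ∀ P ∈ Ls, (∑ j ∈ P, ∑ k ∈ P, U j k * U k j) ≤ 0 := by
    intro P hP
    rw [hT P hP, neg_mul, neg_nonpos]
    exact mul_nonneg (sq_nonneg _) (Finset.sum_nonneg fun _ _ => Finset.sum_nonneg fun _ _ =>
      sq_nonneg _)
  have hneg2 : ∀ j k, (if sm j k then -(U j k) ^ 2 else 0) ≤ 0 := by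
    intro j k
    split_ifs
    · exact neg_nonpos.2 (sq_nonneg _)
    · exact le_refl _
  have hs1 : ∑ P ∈ Ls, (∑ j ∈ P, ∑ k ∈ P, U j k * U k j) ≤ 0 := Finset.sum_nonpos hneg1
  have hs2 : ∑ j, ∑ k, (if sm j k then -(U j k) ^ 2 else 0) ≤ 0 :=
    Finset.sum_nonpos fun j _ => Finset.sum_nonpos fun k _ => hneg2 j k
  have hz1 : ∑ P ∈ Ls, (∑ j ∈ P, ∑ k ∈ P, U j k * U k j) = 0 := by linarith
  have hz2 : ∑ j, ∑ k, (if sm j k then -(U j k) ^ 2 else 0) = 0 := by linarith
  constructor
  · intro i j hij hs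
    have h1 := (Finset.sum_eq_zero_iff_of_nonpos (fun j _ =>
      Finset.sum_nonpos fun k _ => hneg2 j k)).1 hz2 i (Finset.mem_univ _)
    have h2 := (Finset.sum_eq_zero_iff_of_nonpos (fun k _ => hneg2 i k)).1 h1 j
      (Finset.mem_univ _)
    rw [if_pos ⟨hij, hs⟩, neg_eq_zero] at h2
    exact pow_eq_zero_iff (n := 2) (by norm_num) |>.1 h2
  · intro P hP l hl m hm
    have h1 := (Finset.sum_eq_zero_iff_of_nonpos hneg1).1 hz1 P hP
    rw [hT P hP, neg_mul, neg_eq_zero] at h1
    have h2 := (mul_eq_zero.1 h1).resolve_left (by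
      have := inv_ne_zero (hν P hP)
      positivity)
    have h3 := (Finset.sum_eq_zero_iff_of_nonneg (fun l _ => Finset.sum_nonneg fun _ _ =>
      sq_nonneg _)).1 h2 l hl
    have h4 := (Finset.sum_eq_zero_iff_of_nonneg (fun m _ => sq_nonneg _)).1 h3 m hm
    exact pow_eq_zero_iff (n := 2) (by norm_num) |>.1 h4

end

end Pool.Agent.TH792.VeeA
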