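import Mathlib
import Pool.Agent.Helper543.Melchior

/-! A finite non-collinear set of points of the real plane has a point that lies on two
distinct spanned lines with at most three points each. -/

namespace Pool.Agent.TH792.VeeCL

open Finset Pool.Agent.Helper543.Melchior

noncomputable section

open scoped Classical

/-- every point of a noncollinear set sees a noncollinear pair -/
lemma exists_pair {S : Finset Pt} (hS : ∃ a ∈ S, ∃ b ∈ S, ∃ c ∈ S, cr a b c ≠ 0) (p : Pt) :
    ∃ q ∈ S, ∃ r ∈ S, cr p q r ≠ 0 := by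
  by_contra hcon
  push Not at hcon
  obtain ⟨a, ha, b, hb, c, hc, h⟩ := hS
  apply h
  have h1 := hcon a ha b hb
  have h2 := hcon b hb c hc
  have h3 := hcon c hc a ha
  have : cr a b c = cr p a b + cr p b c + cr p c a := by simp only [cr]; ring
  rw [this, h1, h2, h3]; ring

lemma self_mem_lineOf_left {S : Finset Pt} {a b : Pt} (ha : a ∈ S) : a ∈ lineOf S a b :=
  mem_lineOf.2 ⟨ha, cr_self_left a b⟩

lemma self_mem_lineOf_right {S : Finset Pt} {a b : Pt} (hb : b ∈ S) : b ∈ lineOf S a b :=
  mem_lineOf.2 ⟨hb, cr_self_right a b⟩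

/-- two lines sharing two distinct points are equal -/
lemma line_eq {S L M : Finset Pt} (hL : L ∈ lines S) (hM : M ∈ lines S) {x y : Pt}
    (hxL : x ∈ L) (hyL : y ∈ L) (hxM : x ∈ M) (hyM : y ∈ M) (hxy : x ≠ y) : L = M := by
  rw [eq_lineOf hL hxL hyL hxy, eq_lineOf hM hxM hyM hxy]

theorem collinear_of_small {S : Finset Pt}
    (h : ∀ a ∈ S, ∀ L ∈ lines S, ∀ L' ∈ lines S, a ∈ L → a ∈ L' → L.card ≤ 3 → L'.card ≤ 3 →
      L = L') : ∀ a ∈ S, ∀ b ∈ S, ∀ c ∈ S, cr a b c = 0 := by
  by_contra hcon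
  have hS : ∃ a ∈ S, ∃ b ∈ S, ∃ c ∈ S, cr a b c ≠ 0 := by
    push Not at hcon; exact hcon
  have hmel := melchior hS
  -- step 1
  have key : ∀ p ∈ S, ∃ L ∈ lines S, ∃ L' ∈ lines S, p ∈ L ∧ p ∈ L' ∧ L ≠ L' ∧ 4 ≤ L.card ∧
      4 ≤ L'.card := by
    -- asymmetric core
    have core : ∀ p ∈ S, ∀ q ∈ S, ∀ L2 ∈ lines S, p ∈ L2 → q ∉ L2 → p ≠ q →
        (lineOf S p q).card ≤ 3 → 4 ≤ L2.card →
        ∃ L' ∈ lines S, p ∈ L' ∧ L2 ≠ L' ∧ 4 ≤ L'.card := by
      intro p hp q hq L2 hL2 hpL2 hqL2 hpq hsm hbig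
      obtain ⟨s, hs, hsp⟩ := Finset.exists_mem_ne (by omega : 1 < L2.card) p
      have hsS : s ∈ S := line_subset hL2 hs
      have hqs : q ≠ s := fun e => hqL2 (e ▸ hs)
      have hM : lineOf S q s ∈ lines S := lineOf_mem_lines hq hsS hqs
      have hqM : q ∈ lineOf S q s := self_mem_lineOf_left hq
      have hsM : s ∈ lineOf S q s := self_mem_lineOf_right hsS
      have hL1 : lineOf S p q ∈ lines S := lineOf_mem_lines hp hq hpq
      have hpL1 : p ∈ lineOf S p q := self_mem_lineOf_left hp
      have hqL1 : q ∈ lineOf S p q := self_mem_lineOf_right hq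
      have hpM : p ∉ lineOf S q s := by
        intro hpM
        have : lineOf S q s = L2 := line_eq hM hL2 hpM hsM hpL2 hs hsp.symm
        exact hqL2 (this ▸ hqM)
      have hMbig : 4 ≤ (lineOf S q s).card := by
        by_contra hlt
        have := h q hq _ hM _ hL1 hqM hqL1 (by omega) hsm
        exact hpM (this ▸ hpL1)
      -- a third point t of M
      obtain ⟨t, ht, htq, hts⟩ : ∃ t ∈ lineOf S q s, t ≠ q ∧ t ≠ s := by
        by_contra hno
        push Not at hno
        have hsub : lineOf S q s ⊆ {q, s} := by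
          intro t ht
          by_cases htq : t = q
          · simp [htq]
          · simp [hno t ht htq]
        have := Finset.card_le_card hsub
        have h2 : ({q, s} : Finset Pt).card ≤ 2 := Finset.card_le_two
        omega
      have htS : t ∈ S := line_subset hM ht
      have hpt : p ≠ t := fun e => hpM (e ▸ ht)
      have hN : lineOf S p t ∈ lines S := lineOf_mem_lines hp htS hpt
      have hpN : p ∈ lineOf S p t := self_mem_lineOf_left hp
      have htN : t ∈ lineOf S p t := self_mem_lineOf_right htS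
      have htL2 : t ∉ L2 := by
        intro htL2
        have : lineOf S q s = L2 := line_eq hM hL2 ht hsM htL2 hs hts
        exact hqL2 (this ▸ hqM)
      have htL1 : t ∉ lineOf S p q := by
        intro htL1
        have : lineOf S q s = lineOf S p q := line_eq hM hL1 ht hqM htL1 hqL1 htq
        exact hpM (this ▸ hpL1)
      refine ⟨_, hN, hpN, ?_, ?_⟩
      · intro e; exact htL2 (e ▸ htN)
      · by_contra hlt
        have := h p hp _ hN _ hL1 hpN hpL1 (by omega) hsm
        exact htL1 (this ▸ htN)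
    intro p hp
    obtain ⟨q, hq, r, hr, hpqr⟩ := exists_pair hS p
    have hpq : p ≠ q := by rintro rfl; simp [cr] at hpqr
    have hpr : p ≠ r := by rintro rfl; simp [cr] at hpqr
    have hL1 : lineOf S p q ∈ lines S := lineOf_mem_lines hp hq hpq
    have hL2 : lineOf S p r ∈ lines S := lineOf_mem_lines hp hr hpr
    have hpL1 : p ∈ lineOf S p q := self_mem_lineOf_left hp
    have hpL2 : p ∈ lineOf S p r := self_mem_lineOf_left hp
    have hqL1 : q ∈ lineOf S p q := self_mem_lineOf_right hq
    have hrL2 : r ∈ lineOf S p r := self_mem_lineOf_right hr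
    have hrL1 : r ∉ lineOf S p q := fun hc => hpqr (mem_lineOf.1 hc).2
    have hqL2 : q ∉ lineOf S p r := by
      intro hc
      apply hpqr
      have := (mem_lineOf.1 hc).2
      have e : cr p q r = - cr p r q := by simp only [cr]; ring
      rw [e, this, neg_zero]
    have hne : lineOf S p q ≠ lineOf S p r := fun e => hrL1 (e ▸ hrL2)
    by_cases h1 : (lineOf S p q).card ≤ 3
    · have h2 : 4 ≤ (lineOf S p r).card := by
        by_contra hlt
        exact hne (h p hp _ hL1 _ hL2 hpL1 hpL2 h1 (by omega))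
      obtain ⟨L', hL', hpL', hne', hb'⟩ := core p hp q hq _ hL2 hpL2 hqL2 hpq h1 h2
      exact ⟨_, hL2, L', hL', hpL2, hpL', hne', h2, hb'⟩
    · by_cases h2 : (lineOf S p r).card ≤ 3
      · obtain ⟨L', hL', hpL', hne', hb'⟩ := core p hp r hr _ hL1 hpL1 hrL1 hpr h2 (by omega)
        exact ⟨_, hL1, L', hL', hpL1, hpL', hne', by omega, hb'⟩
      · exact ⟨_, hL1, _, hL2, hpL1, hpL2, hne, by omega, by omega⟩
  -- step 2: counting
  set Sm := (lines S).filter (fun L => L.card ≤ 3) with hSm
  set Bg := (lines S).filter (fun L => ¬ L.card ≤ 3) with hBg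
  have hsum : ∑ L ∈ lines S, L.card = ∑ L ∈ Sm, L.card + ∑ L ∈ Bg, L.card :=
    (Finset.sum_filter_add_sum_filter_not _ _ _).symm
  have hcard : (lines S).card = Sm.card + Bg.card :=
    (Finset.card_filter_add_card_filter_not (s := lines S) (fun L => L.card ≤ 3)).symm
  have hdc : ∀ T : Finset (Finset Pt), T ⊆ lines S →
      ∑ L ∈ T, L.card = ∑ p ∈ S, (T.filter (fun L => p ∈ L)).card := by
    intro T hT
    have := Finset.sum_card_bipartiteAbove_eq_sum_card_bipartiteBelow
      (s := S) (t := T) (fun p L => p ∈ L)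
    simp only [Finset.bipartiteAbove, Finset.bipartiteBelow] at this
    rw [this]
    refine Finset.sum_congr rfl fun L hL => ?_
    congr 1
    ext x
    simp only [Finset.mem_filter]
    exact ⟨fun hx => ⟨line_subset (hT hL) hx, hx⟩, fun hx => hx.2⟩
  have hP : ∑ L ∈ Sm, L.card ≤ S.card := by
    rw [hdc Sm (Finset.filter_subset _ _), Finset.card_eq_sum_ones S]
    refine Finset.sum_le_sum fun p hp => ?_
    rw [Finset.card_le_one]
    intro L hL L' hL'
    simp only [hSm, Finset.mem_filter] at hL hL'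
    exact h p hp L hL.1.1 L' hL'.1.1 hL.2 hL'.2 hL.1.2 hL'.1.2
  have hQ : 2 * S.card ≤ ∑ L ∈ Bg, L.card := by
    rw [hdc Bg (Finset.filter_subset _ _), mul_comm, ← smul_eq_mul, ← Finset.sum_const]
    refine Finset.sum_le_sum fun p hp => ?_
    obtain ⟨L, hL, L', hL', hpL, hpL', hne, hb, hb'⟩ := key p hp
    have : ({L, L'} : Finset (Finset Pt)) ⊆ Bg.filter (fun L => p ∈ L) := by
      intro M hM
      simp only [Finset.mem_insert, Finset.mem_singleton] at hM
      simp only [hBg, Finset.mem_filter]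
      rcases hM with rfl | rfl
      · exact ⟨⟨hL, by omega⟩, hpL⟩
      · exact ⟨⟨hL', by omega⟩, hpL'⟩
    have := Finset.card_le_card this
    rwa [Finset.card_pair hne] at this
  have hs : 2 * Sm.card ≤ ∑ L ∈ Sm, L.card := by
    rw [mul_comm, ← smul_eq_mul, ← Finset.sum_const]
    refine Finset.sum_le_sum fun L hL => ?_
    obtain ⟨a, ha, b, hb, hab⟩ := exists_two (Finset.mem_filter.1 hL).1
    have := Finset.one_lt_card.2 ⟨a, ha, b, hb, hab⟩
    omega
  have hb : 4 * Bg.card ≤ ∑ L ∈ Bg, L.card := by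
    rw [mul_comm, ← smul_eq_mul, ← Finset.sum_const]
    refine Finset.sum_le_sum fun L hL => ?_
    have := (Finset.mem_filter.1 hL).2
    omega
  omega

end

end Pool.Agent.TH792.VeeCL
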