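import Mathlib
import Pool.Agent.TH792.VeeCL

/-! Projective form of the planar lemma, for vectors spanning a three-dimensional space. -/

namespace Pool.Agent.TH792.VeePL

open Finset Pool.Agent.Helper543.Melchior

noncomputable section

open scoped Classical

/-- determinant of three vectors -/
def det3 (u v w : Fin 3 → ℝ) : ℝ :=
  u 0 * (v 1 * w 2 - v 2 * w 1) - u 1 * (v 0 * w 2 - v 2 * w 0) + u 2 * (v 0 * w 1 - v 1 * w 0)

lemma mem_span_iff {u v w : Fin 3 → ℝ} (hind : ∀ s t : ℝ, s • u + t • v = 0 → s = 0 ∧ t = 0) :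
    (∃ a b : ℝ, a • u + b • v = w) ↔ det3 u v w = 0 := by
  constructor
  · rintro ⟨a, b, rfl⟩
    simp only [det3, Pi.add_apply, Pi.smul_apply, smul_eq_mul]
    ring
  · intro h
    set n0 := u 1 * v 2 - u 2 * v 1 with hn0
    set n1 := u 2 * v 0 - u 0 * v 2 with hn1
    set n2 := u 0 * v 1 - u 1 * v 0 with hn2
    have hpos : n0 ^ 2 + n1 ^ 2 + n2 ^ 2 ≠ 0 := by
      intro hz
      have h0 : n0 = 0 := by
        have : n0 ^ 2 = 0 := by nlinarith [sq_nonneg n0, sq_nonneg n1, sq_nonneg n2]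
        exact pow_eq_zero_iff (n := 2) (by norm_num) |>.1 this
      have h1 : n1 = 0 := by
        have : n1 ^ 2 = 0 := by nlinarith [sq_nonneg n0, sq_nonneg n1, sq_nonneg n2]
        exact pow_eq_zero_iff (n := 2) (by norm_num) |>.1 this
      have h2 : n2 = 0 := by
        have : n2 ^ 2 = 0 := by nlinarith [sq_nonneg n0, sq_nonneg n1, sq_nonneg n2]
        exact pow_eq_zero_iff (n := 2) (by norm_num) |>.1 this
      have ha : ∀ a : Fin 3, v a • u + (-(u a)) • v = 0 := by
        intro a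
        funext b
        fin_cases a <;> fin_cases b <;>
          simp only [Fin.zero_eta, Fin.mk_one, Fin.reduceFinMk, Pi.add_apply, Pi.smul_apply,
            smul_eq_mul, Pi.zero_apply] <;> linarith
      have hu : u = 0 := by
        funext a
        have := (hind _ _ (ha a)).2
        simpa using this
      have := (hind 1 0 (by simp [hu])).1
      exact one_ne_zero this
    set N := n0 ^ 2 + n1 ^ 2 + n2 ^ 2 with hN
    have hd : w 0 * n0 + w 1 * n1 + w 2 * n2 = 0 := by
      rw [← h]; simp only [det3, hn0, hn1, hn2]; ring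
    refine ⟨((w 1 * v 2 - w 2 * v 1) * n0 + (w 2 * v 0 - w 0 * v 2) * n1 +
        (w 0 * v 1 - w 1 * v 0) * n2) / N,
      ((u 1 * w 2 - u 2 * w 1) * n0 + (u 2 * w 0 - u 0 * w 2) * n1 +
        (u 0 * w 1 - u 1 * w 0) * n2) / N, ?_⟩
    have hmain : ∀ a : Fin 3, ((w 1 * v 2 - w 2 * v 1) * n0 + (w 2 * v 0 - w 0 * v 2) * n1 +
        (w 0 * v 1 - w 1 * v 0) * n2) * u a +
      ((u 1 * w 2 - u 2 * w 1) * n0 + (u 2 * w 0 - u 0 * w 2) * n1 +
        (u 0 * w 1 - u 1 * w 0) * n2) * v a = N * w a := by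
      intro a
      fin_cases a
      · simp only [Fin.zero_eta]
        simp only [hN]
        linear_combination (-n0) * hd + 0 * hn0
      · simp only [Fin.mk_one]
        simp only [hN]
        linear_combination (-n1) * hd
      · simp only [Fin.reduceFinMk]
        simp only [hN]
        linear_combination (-n2) * hd
    funext a
    have := hmain a
    simp only [Pi.add_apply, Pi.smul_apply, smul_eq_mul]
    rw [div_mul_eq_mul_div, div_mul_eq_mul_div, ← add_div, this, mul_div_assoc, mul_div_assoc']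
    field_simp

lemma exists_generic {ι : Type*} (F : Finset ι) (y : ι → Fin 3 → ℝ) (hne : ∀ i ∈ F, y i ≠ 0) :
    ∃ t : ℝ, ∀ i ∈ F, y i 0 + t * y i 1 + t ^ 2 * y i 2 ≠ 0 := by
  classical
  open Polynomial in
  set Q : ℝ[X] := ∏ i ∈ F, (C (y i 0) + C (y i 1) * X + C (y i 2) * X ^ 2) with hQ
  have hQ0 : Q ≠ 0 := by
    rw [hQ, Finset.prod_ne_zero_iff]
    intro i hi h0
    apply hne i hi
    have e0 := congrArg (fun q => Polynomial.coeff q 0) h0
    have e1 := congrArg (fun q => Polynomial.coeff q 1) h0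
    have e2 := congrArg (fun q => Polynomial.coeff q 2) h0
    simp [Polynomial.coeff_X, Polynomial.coeff_C, Polynomial.coeff_X_pow,
      Polynomial.coeff_C_mul] at e0 e1 e2
    funext a
    fin_cases a
    · simpa using e0
    · simpa using e1
    · simpa using e2
  have hex : ∃ t : ℝ, Polynomial.eval t Q ≠ 0 := by
    by_contra hcon
    push Not at hcon
    exact hQ0 (Polynomial.funext (fun r => by simpa using hcon r))
  obtain ⟨t, ht⟩ := hex
  refine ⟨t, fun i hi h0 => ht ?_⟩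
  rw [hQ, Polynomial.eval_prod]
  apply Finset.prod_eq_zero hi
  simp only [Polynomial.eval_add, Polynomial.eval_mul, Polynomial.eval_C, Polynomial.eval_X,
    Polynomial.eval_pow]
  linarith

theorem pl3 {ι : Type*} (F : Finset ι) (y : ι → Fin 3 → ℝ) (hne : ∀ i ∈ F, y i ≠ 0)
    (hind : ∀ i ∈ F, ∀ j ∈ F, i ≠ j → ∀ s t : ℝ, s • y i + t • y j = 0 → s = 0 ∧ t = 0)
    (h2 : ∀ i ∈ F, ∀ j ∈ F, ∀ k ∈ F, i ≠ j → i ≠ k →
      (F.filter (fun l => det3 (y i) (y j) (y l) = 0)).card ≤ 3 →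
      (F.filter (fun l => det3 (y i) (y k) (y l) = 0)).card ≤ 3 → det3 (y i) (y j) (y k) = 0) :
    ∀ i ∈ F, ∀ j ∈ F, ∀ k ∈ F, det3 (y i) (y j) (y k) = 0 := by
  obtain ⟨t, ht⟩ := exists_generic F y hne
  set f0 : ι → ℝ := fun i => y i 0 + t * y i 1 + t ^ 2 * y i 2 with hf0
  have hf : ∀ i ∈ F, f0 i ≠ 0 := ht
  set p : ι → Pt := fun i => (y i 1 / f0 i, y i 2 / f0 i) with hp
  have hcr : ∀ i ∈ F, ∀ j ∈ F, ∀ k ∈ F,
      cr (p i) (p j) (p k) * (f0 i * f0 j * f0 k) = det3 (y i) (y j) (y k) := by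
    intro i hi j hj k hk
    have hi' := hf i hi
    have hj' := hf j hj
    have hk' := hf k hk
    simp only [cr, hp, det3]
    field_simp
    simp only [hf0]
    ring
  have hcr0 : ∀ i ∈ F, ∀ j ∈ F, ∀ k ∈ F,
      (cr (p i) (p j) (p k) = 0 ↔ det3 (y i) (y j) (y k) = 0) := by
    intro i hi j hj k hk
    rw [← hcr i hi j hj k hk]
    have := mul_ne_zero (mul_ne_zero (hf i hi) (hf j hj)) (hf k hk)
    simp [this]
  have hinj : Set.InjOn p F := by
    intro i hi j hj hij
    by_contra hne'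
    have hi' := hf i hi
    have hj' := hf j hj
    have e1 : y i 1 / f0 i = y j 1 / f0 j := congrArg Prod.fst hij
    have e2 : y i 2 / f0 i = y j 2 / f0 j := congrArg Prod.snd hij
    rw [div_eq_div_iff hi' hj'] at e1 e2
    have := (hind i hi j hj hne' (f0 j) (-(f0 i)) ?_).1
    · exact hj' this
    · funext a
      fin_cases a
      · simp only [Fin.zero_eta, Pi.add_apply, Pi.smul_apply, smul_eq_mul, Pi.zero_apply]
        have e0 : f0 j * f0 i - f0 i * f0 j = 0 := by ring
        have g0 : y i 0 = f0 i - t * y i 1 - t ^ 2 * y i 2 := by simp only [hf0]; ring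
        have g1 : y j 0 = f0 j - t * y j 1 - t ^ 2 * y j 2 := by simp only [hf0]; ring
        rw [g0, g1]
        linear_combination (-t) * e1 + (-(t ^ 2)) * e2
      · simp only [Fin.mk_one, Pi.add_apply, Pi.smul_apply, smul_eq_mul, Pi.zero_apply]
        linear_combination e1
      · simp only [Fin.reduceFinMk, Pi.add_apply, Pi.smul_apply, smul_eq_mul, Pi.zero_apply]
        linear_combination e2
  have hline : ∀ i ∈ F, ∀ j ∈ F, lineOf (F.image p) (p i) (p j) =
      (F.filter (fun l => det3 (y i) (y j) (y l) = 0)).image p := by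
    intro i hi j hj
    ext x
    simp only [mem_lineOf, Finset.mem_image, Finset.mem_filter]
    constructor
    · rintro ⟨⟨l, hl, rfl⟩, hx⟩
      exact ⟨l, ⟨hl, (hcr0 i hi j hj l hl).1 hx⟩, rfl⟩
    · rintro ⟨l, ⟨hl, hx⟩, rfl⟩
      exact ⟨⟨l, hl, rfl⟩, (hcr0 i hi j hj l hl).2 hx⟩
  have hcard : ∀ i ∈ F, ∀ j ∈ F, (lineOf (F.image p) (p i) (p j)).card =
      (F.filter (fun l => det3 (y i) (y j) (y l) = 0)).card := by
    intro i hi j hj
    rw [hline i hi j hj]
    apply Finset.card_image_of_injOn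
    exact hinj.mono (by intro x hx; exact (Finset.mem_filter.1 (Finset.mem_coe.1 hx)).1)
  have hcl := VeeCL.collinear_of_small (S := F.image p) (by
    intro a ha L hL L' hL' haL haL' hc hc'
    obtain ⟨i, hi, rfl⟩ := Finset.mem_image.1 ha
    obtain ⟨b, hb, hba⟩ : ∃ b ∈ L, b ≠ p i := by
      obtain ⟨u, hu, v, hv, huv⟩ := exists_two hL
      by_cases e : u = p i
      · exact ⟨v, hv, fun e' => huv (e.trans e'.symm)⟩
      · exact ⟨u, hu, e⟩
    obtain ⟨c, hc1, hca⟩ : ∃ c ∈ L', c ≠ p i := by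
      obtain ⟨u, hu, v, hv, huv⟩ := exists_two hL'
      by_cases e : u = p i
      · exact ⟨v, hv, fun e' => huv (e.trans e'.symm)⟩
      · exact ⟨u, hu, e⟩
    obtain ⟨j, hj, rfl⟩ := Finset.mem_image.1 (line_subset hL hb)
    obtain ⟨k, hk, rfl⟩ := Finset.mem_image.1 (line_subset hL' hc1)
    have hLe := eq_lineOf hL haL hb hba.symm
    have hLe' := eq_lineOf hL' haL' hc1 hca.symm
    have h3 := h2 i hi j hj k hk (fun e => hba (by rw [e])) (fun e => hca (by rw [e]))
      (by rw [← hcard i hi j hj, ← hLe]; exact hc) (by rw [← hcard i hi k hk, ← hLe']; exact hc')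
    have hkL : p k ∈ L := by
      rw [hLe, mem_lineOf]
      exact ⟨line_subset hL' hc1, (hcr0 i hi j hj k hk).2 h3⟩
    exact VeeCL.line_eq hL hL' haL hkL haL' hc1 hca.symm)
  intro i hi j hj k hk
  rw [← hcr0 i hi j hj k hk]
  exact hcl _ (Finset.mem_image_of_mem _ hi) _ (Finset.mem_image_of_mem _ hj) _
    (Finset.mem_image_of_mem _ hk)

theorem plW {ι E : Type*} [AddCommGroup E] [Module ℝ E] (F : Finset ι) (x : ι → E)
    (W : Submodule ℝ E) (hW : Module.finrank ℝ W = 3) (hx : ∀ i ∈ F, x i ∈ W)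
    (hne : ∀ i ∈ F, x i ≠ 0)
    (hind : ∀ i ∈ F, ∀ j ∈ F, i ≠ j → ∀ s t : ℝ, s • x i + t • x j = 0 → s = 0 ∧ t = 0)
    (h2 : ∀ i ∈ F, ∀ j ∈ F, ∀ k ∈ F, i ≠ j → i ≠ k →
      (F.filter (fun l => x l ∈ Submodule.span ℝ {x i, x j})).card ≤ 3 →
      (F.filter (fun l => x l ∈ Submodule.span ℝ {x i, x k})).card ≤ 3 →
      x k ∈ Submodule.span ℝ {x i, x j}) :
    ∀ i ∈ F, ∀ j ∈ F, ∀ k ∈ F, i ≠ j → x k ∈ Submodule.span ℝ {x i, x j} := by
  have : FiniteDimensional ℝ W := FiniteDimensional.of_finrank_pos (by omega)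
  obtain ⟨L, hL⟩ := LinearMap.exists_extend
    ((Module.finBasisOfFinrankEq ℝ W hW).equivFun : W →ₗ[ℝ] (Fin 3 → ℝ))
  have hLW : ∀ w : W, L w = (Module.finBasisOfFinrankEq ℝ W hW).equivFun w := by
    intro w
    have := LinearMap.congr_fun hL w
    simpa using this
  have hLinj : ∀ w ∈ W, L w = 0 → w = 0 := by
    intro w hw h0
    have := hLW ⟨w, hw⟩
    simp only at this
    rw [h0] at this
    have h3 := (LinearEquiv.map_eq_zero_iff _).1 this.symm
    exact congrArg Subtype.val h3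
  have hind' : ∀ i ∈ F, ∀ j ∈ F, i ≠ j → ∀ s t : ℝ, s • L (x i) + t • L (x j) = 0 →
      s = 0 ∧ t = 0 := by
    intro i hi j hj hij s t hst
    apply hind i hi j hj hij
    apply hLinj _ (W.add_mem (W.smul_mem _ (hx i hi)) (W.smul_mem _ (hx j hj)))
    simpa using hst
  have hiff : ∀ i ∈ F, ∀ j ∈ F, i ≠ j → ∀ l ∈ F, (x l ∈ Submodule.span ℝ {x i, x j} ↔
      det3 (L (x i)) (L (x j)) (L (x l)) = 0) := by
    intro i hi j hj hij l hl
    rw [← mem_span_iff (hind' i hi j hj hij), Submodule.mem_span_pair]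
    refine exists_congr fun a => exists_congr fun b => ?_
    constructor
    · intro h
      rw [← h]; simp
    · intro h
      have h0 : L (a • x i + b • x j - x l) = 0 := by
        rw [map_sub, map_add, map_smul, map_smul, h, sub_self]
      have := hLinj _ (W.sub_mem (W.add_mem (W.smul_mem _ (hx i hi)) (W.smul_mem _ (hx j hj)))
        (hx l hl)) h0
      exact sub_eq_zero.1 this
  have hfil : ∀ i ∈ F, ∀ j ∈ F, i ≠ j →
      F.filter (fun l => x l ∈ Submodule.span ℝ {x i, x j}) =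
      F.filter (fun l => det3 (L (x i)) (L (x j)) (L (x l)) = 0) := by
    intro i hi j hj hij
    apply Finset.filter_congr
    intro l hl
    exact hiff i hi j hj hij l hl
  have := pl3 F (fun i => L (x i)) (by
    intro i hi h0
    exact hne i hi (hLinj _ (hx i hi) h0)) hind' (by
    intro i hi j hj k hk hij hik hc hc'
    rw [← hfil i hi j hj hij] at hc
    rw [← hfil i hi k hk hik] at hc'
    exact (hiff i hi j hj hij k hk).1 (h2 i hi j hj k hk hij hik hc hc'))
  intro i hi j hj k hk hij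
  exact (hiff i hi j hj hij k hk).2 (this i hi j hj k hk)

end

end Pool.Agent.TH792.VeePL
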