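import Mathlib
import Pool.Agent.TH792.VeePL

/-! The geometric part: a field of functionals on a spherical configuration that satisfies the
moment relations on all lines vanishes. -/

namespace Pool.Agent.TH792.VeeB

open Finset

noncomputable section

open scoped Classical

variable {E : Type*} [AddCommGroup E] [Module ℝ E]

/-- linear independence of a pair, spelled out -/
def Ind (a b : E) : Prop := ∀ s t : ℝ, s • a + t • b = 0 → s = 0 ∧ t = 0

lemma Ind.li {a b : E} (h : Ind a b) : LinearIndependent ℝ ![a, b] :=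
  LinearIndependent.pair_iff.2 h

lemma fr2 {a b : E} (h : Ind a b) : Module.finrank ℝ (Submodule.span ℝ {a, b}) = 2 := by
  have h1 := finrank_span_eq_card h.li
  have h2 : Set.range ![a, b] = {a, b} := by
    simp [Matrix.range_cons, Set.pair_comm]
  rw [h2] at h1
  simpa using h1

lemma li3 {a b c : E} (h : Ind a b) (hc : c ∉ Submodule.span ℝ {a, b}) :
    LinearIndependent ℝ ![c, a, b] := by
  have h2 : Set.range ![a, b] = {a, b} := by
    simp [Matrix.range_cons, Set.pair_comm]
  have := (linearIndependent_finCons (K := ℝ) (x := c) (v := ![a, b])).2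
    ⟨h.li, by rw [h2]; exact hc⟩
  exact this

lemma fr3 {a b c : E} (h : Ind a b) (hc : c ∉ Submodule.span ℝ {a, b}) :
    Module.finrank ℝ (Submodule.span ℝ {c, a, b}) = 3 := by
  have h1 := finrank_span_eq_card (li3 h hc)
  have h2 : Set.range ![c, a, b] = {c, a, b} := by
    ext z
    simp only [Set.mem_range, Set.mem_insert_iff, Set.mem_singleton_iff]
    constructor
    · rintro ⟨i, rfl⟩
      fin_cases i <;> simp
    · rintro (rfl | rfl | rfl)
      · exact ⟨0, rfl⟩
      · exact ⟨1, rfl⟩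
      · exact ⟨2, rfl⟩
  rw [h2] at h1
  simpa using h1

lemma span2_eq {a b c d : E} (hab : Ind a b) (hcd : Ind c d)
    (ha : a ∈ Submodule.span ℝ {c, d}) (hb : b ∈ Submodule.span ℝ {c, d}) :
    Submodule.span ℝ {a, b} = Submodule.span ℝ {c, d} := by
  have : FiniteDimensional ℝ (Submodule.span ℝ {c, d}) :=
    FiniteDimensional.of_finrank_pos (by rw [fr2 hcd]; omega)
  apply Submodule.eq_of_le_of_finrank_eq
  · rw [Submodule.span_le]
    intro z hz
    rcases hz with rfl | hz
    · exact ha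
    · rw [Set.mem_singleton_iff.1 hz]; exact hb
  · rw [fr2 hab, fr2 hcd]

lemma span3_eq {a b c : E} {W : Submodule ℝ E} (hW : Module.finrank ℝ W = 3) (hab : Ind a b)
    (ha : a ∈ W) (hb : b ∈ W) (hc : c ∈ W) (hn : c ∉ Submodule.span ℝ {a, b}) :
    Submodule.span ℝ {c, a, b} = W := by
  have : FiniteDimensional ℝ W := FiniteDimensional.of_finrank_pos (by omega)
  apply Submodule.eq_of_le_of_finrank_eq
  · rw [Submodule.span_le]
    intro z hz
    rcases hz with rfl | rfl | hz
    · exact hc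
    · exact ha
    · rw [Set.mem_singleton_iff.1 hz]; exact hb
  · rw [fr3 hab hn, hW]

lemma vanish3 {a b c : E} {W : Submodule ℝ E} (hW : Module.finrank ℝ W = 3) (hab : Ind a b)
    (ha : a ∈ W) (hb : b ∈ W) (hc : c ∈ W) (hn : c ∉ Submodule.span ℝ {a, b})
    (u : E →ₗ[ℝ] ℝ) (hua : u a = 0) (hub : u b = 0) (huc : u c = 0) : ∀ z ∈ W, u z = 0 := by
  intro z hz
  rw [← span3_eq hW hab ha hb hc hn] at hz
  have : Submodule.span ℝ {c, a, b} ≤ LinearMap.ker u := by
    rw [Submodule.span_le]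
    intro y hy
    rcases hy with rfl | rfl | hy
    · exact huc
    · exact hua
    · rw [Set.mem_singleton_iff.1 hy]; exact hub
  exact this hz

variable {ι : Type*} [Fintype ι]

/-- the line through `x i` and `x j` as a set of indices -/
def line (x : ι → E) (i j : ι) : Finset ι :=
  Finset.univ.filter (fun k => x k ∈ Submodule.span ℝ {x i, x j})

lemma mem_line {x : ι → E} {i j k : ι} :
    k ∈ line x i j ↔ x k ∈ Submodule.span ℝ {x i, x j} := by simp [line]

lemma left_mem {x : ι → E} {i j : ι} : i ∈ line x i j :=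
  mem_line.2 (Submodule.subset_span (by simp))

lemma right_mem {x : ι → E} {i j : ι} : j ∈ line x i j :=
  mem_line.2 (Submodule.subset_span (by simp))

lemma line_comm {x : ι → E} {i j : ι} : line x i j = line x j i := by
  simp only [line, Set.pair_comm]

lemma line_eq {x : ι → E} (hind : ∀ i j, i ≠ j → Ind (x i) (x j)) {i j a b : ι} (hij : i ≠ j)
    (hab : a ≠ b) (ha : a ∈ line x i j) (hb : b ∈ line x i j) : line x a b = line x i j := by
  have := span2_eq (hind a b hab) (hind i j hij) (mem_line.1 ha) (mem_line.1 hb)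
  simp only [line, this]

theorem active {x : ι → E} (hind : ∀ i j, i ≠ j → Ind (x i) (x j))
    (G : E →ₗ[ℝ] E →ₗ[ℝ] ℝ) (hGp : ∀ u, u ≠ 0 → 0 < G u u)
    (u : ι → E →ₗ[ℝ] ℝ) (hud : ∀ i, u i (x i) = 0)
    (hsmU : ∀ i j, i ≠ j → (line x i j).card ≤ 2 → u i (x j) = 0)
    (hbig : ∀ i j, i ≠ j → 3 ≤ (line x i j).card → ∀ l ∈ line x i j, ∀ m ∈ line x i j,
      ∑ k ∈ line x i j, u k (x l) * G (x k) (x m) = 0)
    {c l : ι} (hcl : u c (x l) ≠ 0) :
    4 ≤ ((line x c l).filter (fun i => ∃ m ∈ line x c l, u i (x m) ≠ 0)).card := by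
  have hne : c ≠ l := by rintro rfl; exact hcl (hud c)
  set P := line x c l with hP
  have hcP : c ∈ P := left_mem
  have hlP : l ∈ P := right_mem
  by_contra hlt
  push Not at hlt
  have hP3 : 3 ≤ P.card := by
    by_contra h
    exact hcl (hsmU c l hne (by rw [← hP]; omega))
  set Act := P.filter (fun i => ∃ m ∈ P, u i (x m) ≠ 0) with hAct
  have hsub : Act.erase c ⊆ P.erase c := Finset.erase_subset_erase _ (Finset.filter_subset _ _)
  have hcA : c ∈ Act := Finset.mem_filter.2 ⟨hcP, l, hlP, hcl⟩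
  have hc1 : (Act.erase c).card ≤ 2 := by rw [Finset.card_erase_of_mem hcA]; omega
  have hc2 : 2 ≤ (P.erase c).card := by rw [Finset.card_erase_of_mem hcP]; omega
  obtain ⟨T, hT1, hT2, hT3⟩ := Finset.exists_subsuperset_card_eq hsub hc1 hc2
  obtain ⟨c1, c2, hc12, rfl⟩ := Finset.card_eq_two.1 hT3
  have hc1P := Finset.mem_erase.1 (hT2 (by simp : c1 ∈ ({c1, c2} : Finset ι)))
  have hc2P := Finset.mem_erase.1 (hT2 (by simp : c2 ∈ ({c1, c2} : Finset ι)))
  set s := G (x c1) (x c) / G (x c1) (x c1) with hs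
  set w := x c - s • x c1 with hw
  have hx1 : x c1 ≠ 0 := by
    intro h0
    have := (hind c1 c hc1P.1 1 0 (by simp [h0])).1
    exact one_ne_zero this
  have hG1 : G (x c1) (x c1) ≠ 0 := (hGp _ hx1).ne'
  have hw0 : w ≠ 0 := by
    intro h0
    have := (hind c c1 hc1P.1.symm 1 (-s) (by rw [one_smul, neg_smul, ← sub_eq_add_neg]; exact h0)).1
    exact one_ne_zero this
  have hGw : G (x c1) w = 0 := by
    rw [hw, map_sub, map_smul, smul_eq_mul, hs, div_mul_cancel₀ _ hG1, sub_self]
  have hGcw : G (x c) w = G w w := by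
    have : x c = w + s • x c1 := by rw [hw]; abel
    conv_lhs => rw [this]
    rw [map_add, map_smul, LinearMap.add_apply, LinearMap.smul_apply, hGw, smul_zero, add_zero]
  have hsum : ∑ k ∈ P, u k (x c2) * G (x k) w = 0 := by
    have h1 := hbig c l hne hP3 c2 hc2P.2 c hcP
    have h2 := hbig c l hne hP3 c2 hc2P.2 c1 hc1P.2
    have : ∑ k ∈ P, u k (x c2) * G (x k) w = ∑ k ∈ P, u k (x c2) * G (x k) (x c) -
        s * ∑ k ∈ P, u k (x c2) * G (x k) (x c1) := by
      rw [Finset.mul_sum, ← Finset.sum_sub_distrib]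
      refine Finset.sum_congr rfl fun k _ => ?_
      rw [hw, map_sub, map_smul, smul_eq_mul]; ring
    rw [this, h1, h2]; ring
  have hsingle : ∑ k ∈ P, u k (x c2) * G (x k) w = u c (x c2) * G (x c) w := by
    apply Finset.sum_eq_single_of_mem c hcP
    intro k hk hkc
    by_cases hkA : k ∈ Act
    · have : k ∈ ({c1, c2} : Finset ι) := hT1 (Finset.mem_erase.2 ⟨hkc, hkA⟩)
      rcases Finset.mem_insert.1 this with rfl | h
      · rw [hGw, mul_zero]
      · rw [Finset.mem_singleton.1 h, hud, zero_mul]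
    · have : u k (x c2) = 0 := by
        by_contra hne'
        exact hkA (Finset.mem_filter.2 ⟨hk, c2, hc2P.2, hne'⟩)
      rw [this, zero_mul]
  rw [hsingle, hGcw] at hsum
  have huc2 : u c (x c2) = 0 := (mul_eq_zero.1 hsum).resolve_right (hGp _ hw0).ne'
  have hll : x l ∈ Submodule.span ℝ {x c, x c2} := by
    rw [span2_eq (hind c c2 hc2P.1.symm) (hind c l hne) (mem_line.1 hcP) (mem_line.1 hc2P.2)]
    exact mem_line.1 hlP
  obtain ⟨a, b, hab⟩ := Submodule.mem_span_pair.1 hll
  apply hcl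
  rw [← hab, map_add, map_smul, map_smul, hud, huc2]; simp

theorem partB {x : ι → E} (hind : ∀ i j, i ≠ j → Ind (x i) (x j))
    (G : E →ₗ[ℝ] E →ₗ[ℝ] ℝ) (hGp : ∀ u, u ≠ 0 → 0 < G u u)
    (u : ι → E →ₗ[ℝ] ℝ) (hud : ∀ i, u i (x i) = 0)
    (hsmU : ∀ i j, i ≠ j → (line x i j).card ≤ 2 → u i (x j) = 0)
    (hsmX : ∀ i j, i ≠ j → (line x i j).card ≤ 2 → G (x i) (x j) = 0)
    (hbig : ∀ i j, i ≠ j → 3 ≤ (line x i j).card → ∀ l ∈ line x i j, ∀ m ∈ line x i j,
      ∑ k ∈ line x i j, u k (x l) * G (x k) (x m) = 0)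
    (hirr : ∀ i j, i ≠ j → ∃ k ∉ line x i j, ∃ l ∈ line x i j, G (x k) (x l) ≠ 0) :
    ∀ i j, u i (x j) = 0 := by
  intro i0 j0
  by_contra h00
  have hij0 : i0 ≠ j0 := by rintro rfl; exact h00 (hud i0)
  obtain ⟨ks, hks, ls, hls, hGks⟩ := hirr i0 j0 hij0
  have hksn : x ks ∉ Submodule.span ℝ {x i0, x j0} := fun h => hks (mem_line.2 h)
  set W := Submodule.span ℝ {x ks, x i0, x j0} with hWdef
  have hW : Module.finrank ℝ W = 3 := fr3 (hind i0 j0 hij0) hksn
  have hksW : x ks ∈ W := Submodule.subset_span (by simp)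
  have hi0W : x i0 ∈ W := Submodule.subset_span (by simp)
  have hj0W : x j0 ∈ W := Submodule.subset_span (by simp)
  have hlineW : ∀ a b, x a ∈ W → x b ∈ W → ∀ k ∈ line x a b, x k ∈ W := by
    intro a b ha hb k hk
    have : Submodule.span ℝ {x a, x b} ≤ W := by
      rw [Submodule.span_le]
      intro z hz
      rcases hz with rfl | hz
      · exact ha
      · rw [Set.mem_singleton_iff.1 hz]; exact hb
    exact this (mem_line.1 hk)
  set F : Finset ι := Finset.univ.filter (fun i => x i ∈ W ∧ ∃ m, x m ∈ W ∧ u i (x m) ≠ 0) with hF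
  have hmemF : ∀ i, i ∈ F ↔ x i ∈ W ∧ ∃ m, x m ∈ W ∧ u i (x m) ≠ 0 := by
    intro i; simp [hF]
  -- an active point on a line gives four points of F on it
  have hfour : ∀ i m, x i ∈ W → x m ∈ W → u i (x m) ≠ 0 →
      4 ≤ (F.filter (fun l => x l ∈ Submodule.span ℝ {x i, x m})).card := by
    intro i m hi hm hne
    refine (active hind G hGp u hud hsmU hbig hne).trans (Finset.card_le_card ?_)
    intro l hl
    obtain ⟨hl1, n, hn, hl2⟩ := Finset.mem_filter.1 hl
    refine Finset.mem_filter.2 ⟨(hmemF l).2 ⟨hlineW i m hi hm l hl1, n, hlineW i m hi hm n hn, hl2⟩,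
      mem_line.1 hl1⟩
  have hcol : ∀ i ∈ F, ∀ j ∈ F, ∀ k ∈ F, i ≠ j → x k ∈ Submodule.span ℝ {x i, x j} := by
    refine VeePL.plW F x W hW (fun i hi => ((hmemF i).1 hi).1) ?_ (fun i _ j _ hij => hind i j hij) ?_
    · intro i hi h0
      obtain ⟨hi1, m, hm, hne⟩ := (hmemF i).1 hi
      have him : i ≠ m := by rintro rfl; exact hne (hud i)
      have := (hind i m him 1 0 (by simp [h0])).1
      exact one_ne_zero this
    · intro i hi j hj k hk hij hik hc1 hc2
      by_contra hn
      obtain ⟨hi1, m, hm, hne⟩ := (hmemF i).1 hi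
      have hjW := ((hmemF j).1 hj).1
      have hkW := ((hmemF k).1 hk).1
      have huj : u i (x j) = 0 := by
        by_contra h
        have := hfour i j hi1 hjW h
        omega
      have huk : u i (x k) = 0 := by
        by_contra h
        have := hfour i k hi1 hkW h
        omega
      exact hne (vanish3 hW (hind i j hij) hi1 hjW hkW hn (u i) (hud i) huj huk _ hm)
  -- F lies on the line through i0 and j0
  set P := line x i0 j0 with hP
  have hi0P : i0 ∈ P := left_mem
  have hi0F : i0 ∈ F := (hmemF i0).2 ⟨hi0W, j0, hj0W, h00⟩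
  obtain ⟨i1, hi1, hi1ne⟩ : ∃ i1 ∈ F.filter (fun l => x l ∈ Submodule.span ℝ {x i0, x j0}), i1 ≠ i0 := by
    have := hfour i0 j0 hi0W hj0W h00
    have h1 : 1 < (F.filter (fun l => x l ∈ Submodule.span ℝ {x i0, x j0})).card := by omega
    obtain ⟨a, ha, hane⟩ := Finset.exists_mem_ne h1 i0
    exact ⟨a, ha, hane⟩
  obtain ⟨hi1F, hi1P'⟩ := Finset.mem_filter.1 hi1
  have hi1P : i1 ∈ P := mem_line.2 hi1P'
  have hFP : ∀ k ∈ F, k ∈ P := by
    intro k hk
    have h1 := hcol i0 hi0F i1 hi1F k hk hi1ne.symm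
    rw [span2_eq (hind i0 i1 hi1ne.symm) (hind i0 j0 hij0) (mem_line.1 hi0P) hi1P'] at h1
    exact mem_line.2 h1
  -- functionals of F vanish off P
  have hvan : ∀ i ∈ F, ∀ m, x m ∈ W → m ∉ P → u i (x m) = 0 := by
    intro i hi m hm hmP
    by_contra hne
    have hiW := ((hmemF i).1 hi).1
    have h4 := hfour i m hiW hm hne
    have h1 : 1 < (F.filter (fun l => x l ∈ Submodule.span ℝ {x i, x m})).card := by omega
    obtain ⟨a, ha, hai⟩ := Finset.exists_mem_ne h1 i
    obtain ⟨haF, haim⟩ := Finset.mem_filter.1 ha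
    have him : i ≠ m := fun e => hmP (e ▸ hFP i hi)
    have e1 : line x i a = line x i m := line_eq hind him hai.symm left_mem (mem_line.2 haim)
    have e2 : line x i a = P := line_eq hind hij0 hai.symm (hFP i hi) (hFP a haF)
    apply hmP
    rw [← e2, e1]; exact right_mem
  -- the complement of P in W is only ks
  have honly : ∀ m, x m ∈ W → m ∉ P → m = ks := by
    intro m hm hmP
    by_contra hmk
    have hin : ∀ i ∈ F, x i ∈ Submodule.span ℝ {x m, x ks} := by
      intro i hi
      by_contra hn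
      obtain ⟨hiW, n, hn1, hne⟩ := (hmemF i).1 hi
      exact hne (vanish3 hW (hind m ks hmk) hm hksW hiW hn (u i) (hvan i hi m hm hmP)
        (hvan i hi ks hksW hks) (hud i) _ hn1)
    have e1 := span2_eq (hind i0 i1 hi1ne.symm) (hind m ks hmk) (hin i0 hi0F) (hin i1 hi1F)
    have e2 := span2_eq (hind i0 i1 hi1ne.symm) (hind i0 j0 hij0) (mem_line.1 hi0P) hi1P'
    apply hksn
    rw [← e2, e1]
    exact Submodule.subset_span (by simp)
  -- the line through ks and ls is small
  have hkl : ks ≠ ls := fun e => hks (e ▸ hls)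
  have hlsW : x ls ∈ W := hlineW i0 j0 hi0W hj0W ls hls
  have hsmall : line x ks ls ⊆ {ks, ls} := by
    intro k hk
    have hkW := hlineW ks ls hksW hlsW k hk
    by_cases hkP : k ∈ P
    · by_cases hkls : k = ls
      · simp [hkls]
      · exfalso
        have e1 : line x k ls = line x ks ls := line_eq hind hkl hkls hk right_mem
        have e2 : line x k ls = P := line_eq hind hij0 hkls hkP hls
        apply hks
        rw [← e2, e1]; exact left_mem
    · simp [honly k hkW hkP]
  exact hGks (hsmX ks ls hkl ((Finset.card_le_card hsmall).trans Finset.card_le_two))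

end

end Pool.Agent.TH792.VeeB
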