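import Mathlib

/-! Nondegenerate real zeros of a polynomial system are finite in number. -/

namespace Pool.Agent.TH792.VeeC

open MvPolynomial

noncomputable section

variable {σ : Type*} [Fintype σ]

/-- the gradient at a point -/
def grad (z : σ → ℝ) : MvPolynomial σ ℝ →ₗ[ℝ] (σ → ℝ) where
  toFun p := fun s => eval z (pderiv s p)
  map_add' p q := by funext s; simp
  map_smul' c p := by funext s; simp

omit [Fintype σ] in
lemma grad_apply (z : σ → ℝ) (p : MvPolynomial σ ℝ) (s : σ) :
    grad z p s = eval z (pderiv s p) := rfl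

/-- the directional derivative -/
def dd (z d : σ → ℝ) (p : MvPolynomial σ ℝ) : ℝ := ∑ s, d s * eval z (pderiv s p)

lemma dd_add (z d : σ → ℝ) (p q : MvPolynomial σ ℝ) : dd z d (p + q) = dd z d p + dd z d q := by
  simp only [dd, map_add, mul_add, Finset.sum_add_distrib]

lemma dd_sub (z d : σ → ℝ) (p q : MvPolynomial σ ℝ) : dd z d (p - q) = dd z d p - dd z d q := by
  simp only [dd, map_sub, mul_sub, Finset.sum_sub_distrib]

lemma dd_C (z d : σ → ℝ) (a : ℝ) : dd z d (C a) = 0 := by
  simp [dd]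

lemma dd_mul (z d : σ → ℝ) (p q : MvPolynomial σ ℝ) :
    dd z d (p * q) = dd z d p * eval z q + eval z p * dd z d q := by
  simp only [dd, Derivation.leibniz, smul_eq_mul, map_add, map_mul, Finset.sum_mul,
    Finset.mul_sum, ← Finset.sum_add_distrib]
  refine Finset.sum_congr rfl fun s _ => ?_
  ring

lemma dd_X [DecidableEq σ] (z d : σ → ℝ) (s : σ) : dd z d (X s) = d s := by
  simp only [dd, pderiv_X]
  rw [Finset.sum_eq_single s]
  · simp
  · intro t _ hts
    rw [Pi.single_eq_of_ne (Ne.symm hts)]; simp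
  · intro h; exact absurd (Finset.mem_univ s) h

lemma dd_sum {κ : Type*} (z d : σ → ℝ) (t : Finset κ) (f : κ → MvPolynomial σ ℝ) :
    dd z d (∑ k ∈ t, f k) = ∑ k ∈ t, dd z d (f k) := by
  classical
  induction t using Finset.induction_on with
  | empty => simp [dd]
  | insert a t ha ih => rw [Finset.sum_insert ha, Finset.sum_insert ha, dd_add, ih]

/-- the maximal ideal of a point -/
def mz (z : σ → ℝ) : Ideal (MvPolynomial σ ℝ) := RingHom.ker (eval z)

omit [Fintype σ] in
lemma mem_mz (z : σ → ℝ) (p : MvPolynomial σ ℝ) : p ∈ mz z ↔ eval z p = 0 := RingHom.mem_ker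

lemma taylor (z : σ → ℝ) (p : MvPolynomial σ ℝ) :
    p - C (eval z p) - ∑ s, C (eval z (pderiv s p)) * (X s - C (z s)) ∈ (mz z) ^ 2 := by
  classical
  have hX : ∀ s, (X s - C (z s) : MvPolynomial σ ℝ) ∈ mz z := fun s => by simp [mem_mz]
  have hL : ∀ c : σ → ℝ, ∑ s, C (c s) * (X s - C (z s) : MvPolynomial σ ℝ) ∈ mz z :=
    fun c => Ideal.sum_mem _ fun s _ => Ideal.mul_mem_left _ _ (hX s)
  induction p using MvPolynomial.induction_on with
  | C a => simp
  | add p q hp hq =>
    have := Ideal.add_mem _ hp hq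
    convert this using 1
    simp only [map_add, add_mul, Finset.sum_add_distrib]
    ring
  | mul_X p n ih =>
    set T := p - C (eval z p) - ∑ s, C (eval z (pderiv s p)) * (X s - C (z s)) with hT
    set L := ∑ s, C (eval z (pderiv s p)) * (X s - C (z s) : MvPolynomial σ ℝ) with hLdef
    have h1 : T * (X n - C (z n)) ∈ (mz z) ^ 2 := Ideal.mul_mem_right _ _ ih
    have h2 : L * (X n - C (z n)) ∈ (mz z) ^ 2 := by
      rw [pow_two]; exact Ideal.mul_mem_mul (hL _) (hX n)
    have h3 : C (z n) * T ∈ (mz z) ^ 2 := Ideal.mul_mem_left _ _ ih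
    have h4 := Ideal.add_mem _ (Ideal.add_mem _ h1 h2) h3
    convert h4 using 1
    have e1 : ∑ s, C (eval z (pderiv s (p * X n))) * (X s - C (z s) : MvPolynomial σ ℝ) =
        C (z n) * L + C (eval z p) * (X n - C (z n)) := by
      have : ∀ s, C (eval z (pderiv s (p * X n))) * (X s - C (z s) : MvPolynomial σ ℝ) =
          C (z n) * (C (eval z (pderiv s p)) * (X s - C (z s))) +
          (if s = n then C (eval z p) * (X n - C (z n)) else 0) := by
        intro s
        rw [Derivation.leibniz, smul_eq_mul, smul_eq_mul, pderiv_X]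
        by_cases hs : s = n
        · subst hs
          simp only [Pi.single_eq_same, mul_one, map_add, map_mul, eval_X, if_true]
          ring
        · rw [Pi.single_eq_of_ne (Ne.symm hs), if_neg hs]
          simp only [mul_zero, zero_add, map_mul, eval_X, add_zero]
          ring
      simp only [this, Finset.sum_add_distrib, ← Finset.mul_sum]
      rw [Finset.sum_ite_eq' Finset.univ n]
      simp [hLdef]
    rw [e1]
    have e2 : p = T + C (eval z p) + L := by rw [hT]; ring
    have e3 : eval z (p * X n) = eval z p * z n := by simp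
    rw [e3, map_mul]
    conv_lhs => rw [show p * X n = (T + C (eval z p) + L) * X n by rw [← e2]]
    ring

lemma mem_sq (z : σ → ℝ) (p : MvPolynomial σ ℝ) (h0 : eval z p = 0) (h1 : grad z p = 0) :
    p ∈ (mz z) ^ 2 := by
  have h := taylor z p
  have h2 : ∀ s, eval z (pderiv s p) = 0 := fun s => by
    rw [← grad_apply, h1]; rfl
  simpa [h0, h2] using h

theorem mz_le (I : Ideal (MvPolynomial σ ℝ)) (z : σ → ℝ) (hI : I ≤ mz z)
    (hnd : ∀ d : σ → ℝ, (∀ p ∈ I, dd z d p = 0) → d = 0) : mz z ≤ I ⊔ (mz z) ^ 2 := by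
  classical
  set V0 : Submodule ℝ (σ → ℝ) := Submodule.map (grad z) (I.restrictScalars ℝ) with hV0
  have htop : V0 = ⊤ := by
    by_contra hne
    obtain ⟨f, hf0, hf⟩ := Submodule.exists_le_ker_of_lt_top V0 (lt_top_iff_ne_top.2 hne)
    apply hf0
    have hfv : ∀ v : σ → ℝ, f v = ∑ s, v s * f (Pi.single s 1) := by
      intro v
      conv_lhs => rw [pi_eq_sum_univ' v]
      simp [map_sum]
    have hd := hnd (fun s => f (Pi.single s 1)) (by
      intro p hp
      have h1 : grad z p ∈ V0 := Submodule.mem_map_of_mem (by simpa using hp)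
      have h2 := hf h1
      rw [LinearMap.mem_ker, hfv] at h2
      rw [← h2, dd]
      exact Finset.sum_congr rfl fun s _ => by rw [grad_apply]; ring)
    ext v
    have := congrFun hd v
    simpa using this
  intro p hp
  have h1 : grad z p ∈ V0 := by rw [htop]; trivial
  obtain ⟨q, hq, hqe⟩ := h1
  have hqI : q ∈ I := by simpa using hq
  have h2 : p - q ∈ (mz z) ^ 2 := by
    apply mem_sq
    · rw [map_sub, (mem_mz z p).1 hp, (mem_mz z q).1 (hI hqI), sub_zero]
    · rw [map_sub, hqe, sub_self]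
  have : p = q + (p - q) := by ring
  rw [this]
  exact Submodule.add_mem_sup hqI h2

theorem mz_minimal (I : Ideal (MvPolynomial σ ℝ)) (z : σ → ℝ) (hI : I ≤ mz z)
    (hnd : ∀ d : σ → ℝ, (∀ p ∈ I, dd z d p = 0) → d = 0) : mz z ∈ I.minimalPrimes := by
  have hle := mz_le I z hI hnd
  have hprime : (mz z).IsPrime := RingHom.ker_isPrime _
  refine ⟨⟨hprime, hI⟩, ?_⟩
  rintro Q ⟨hQ, hIQ⟩ hQm
  have hdom : IsDomain (MvPolynomial σ ℝ ⧸ Q) := (Ideal.Quotient.isDomain_iff_prime Q).2 hQ
  set M := (mz z).map (Ideal.Quotient.mk Q) with hM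
  have hIM : I.map (Ideal.Quotient.mk Q) = ⊥ := by
    rw [Ideal.map_eq_bot_iff_le_ker, Ideal.mk_ker]; exact hIQ
  have hidem : IsIdempotentElem M := by
    have h1 : M ≤ M * M := by
      have h2 := Ideal.map_mono (f := Ideal.Quotient.mk Q) hle
      rw [Ideal.map_sup, hIM, bot_sup_eq, Ideal.map_pow, pow_two] at h2
      exact h2
    exact le_antisymm Ideal.mul_le_left h1
  have hfg : M.FG := IsNoetherian.noetherian M
  rcases (Ideal.isIdempotentElem_iff_eq_bot_or_top M hfg).1 hidem with h | h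
  · rw [hM, Ideal.map_eq_bot_iff_le_ker, Ideal.mk_ker] at h
    exact h
  · exfalso
    have h1 : Ideal.comap (Ideal.Quotient.mk Q) M = mz z := by
      rw [hM, Ideal.comap_map_of_surjective' _ Ideal.Quotient.mk_surjective, Ideal.mk_ker]
      exact sup_eq_left.2 hQm
    rw [h, Ideal.comap_top] at h1
    exact hprime.ne_top h1.symm

theorem finite_of_nondegenerate (S : Set (MvPolynomial σ ℝ)) (Z : Set (σ → ℝ))
    (hZ : ∀ z ∈ Z, ∀ p ∈ S, eval z p = 0)
    (hnd : ∀ z ∈ Z, ∀ d : σ → ℝ, (∀ p ∈ S, dd z d p = 0) → d = 0) : Z.Finite := by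
  set I := Ideal.span S with hI
  refine Set.Finite.of_injOn (f := mz) (t := I.minimalPrimes) ?_ ?_
    (Ideal.finite_minimalPrimes_of_isNoetherianRing _ I)
  · intro z hz
    refine mz_minimal I z ?_ ?_
    · rw [hI, Ideal.span_le]
      intro p hp
      exact (mem_mz z p).2 (hZ z hz p hp)
    · intro d hd
      exact hnd z hz d fun p hp => hd p (Ideal.subset_span hp)
  · intro z _ z' _ h
    funext s
    have h1 : (X s - C (z s) : MvPolynomial σ ℝ) ∈ mz z := by simp [mem_mz]
    rw [h, mem_mz] at h1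
    simp at h1
    linarith

end

end Pool.Agent.TH792.VeeC
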