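import Mathlib
import Pool.Agent.TH792.VeeA
import Pool.Agent.TH792.VeeB
import Pool.Agent.TH792.VeeC

/-! Finiteness of the Gram matrices of configurations with given lines and constants. -/

namespace Pool.Agent.TH792.VeeCore

open Finset Pool.Agent.TH792.VeeB

noncomputable section

open scoped Classical

variable {ι : Type*} [Fintype ι] {E : Type*} [AddCommGroup E] [Module ℝ E]

/-- configurations of vectors `x` in a euclidean space with form `G`, big lines `Ls` and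
constants `ν` -/
structure Good (G : E →ₗ[ℝ] E →ₗ[ℝ] ℝ) (x : ι → E) (Ls : Finset (Finset ι))
    (ν : Finset ι → ℝ) : Prop where
  symm : ∀ u v, G u v = G v u
  pos : ∀ u, u ≠ 0 → 0 < G u u
  ind : ∀ i j, i ≠ j → Ind (x i) (x j)
  nz : ∀ i, x i ≠ 0
  lines : ∀ P, P ∈ Ls ↔ ∃ i j, i ≠ j ∧ P = line x i j ∧ 3 ≤ P.card
  proj : ∀ i k, ∑ j, G (x i) (x j) * G (x j) (x k) = G (x i) (x k)
  small : ∀ i j, i ≠ j → (line x i j).card ≤ 2 → G (x i) (x j) = 0
  big : ∀ P ∈ Ls, ∀ l ∈ P, ∀ m, ∑ k ∈ P, G (x m) (x k) * G (x k) (x l) = ν P * G (x m) (x l)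
  irr : ∀ s : Finset ι, s.Nonempty → (∃ k, k ∉ s) → ∃ k ∉ s, ∃ l ∈ s, G (x k) (x l) ≠ 0
  big3 : ∀ i j, ∃ k, k ∉ line x i j

variable {G : E →ₗ[ℝ] E →ₗ[ℝ] ℝ} {x : ι → E} {Ls : Finset (Finset ι)} {ν : Finset ι → ℝ}

namespace Good

lemma uniq (h : Good G x Ls ν) : ∀ i j, i ≠ j → ∀ P ∈ Ls, ∀ Q ∈ Ls, i ∈ P → j ∈ P → i ∈ Q →
    j ∈ Q → P = Q := by
  intro i j hij P hP Q hQ hiP hjP hiQ hjQ
  obtain ⟨a, b, hab, rfl, _⟩ := (h.lines P).1 hP
  obtain ⟨c, d, hcd, rfl, _⟩ := (h.lines Q).1 hQ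
  rw [← line_eq h.ind hab hij hiP hjP, ← line_eq h.ind hcd hij hiQ hjQ]

lemma line_of_mem (h : Good G x Ls ν) {i j : ι} (hij : i ≠ j) {P : Finset ι} (hP : P ∈ Ls)
    (hi : i ∈ P) (hj : j ∈ P) : line x i j = P := by
  obtain ⟨a, b, hab, rfl, _⟩ := (h.lines P).1 hP
  exact line_eq h.ind hab hij hi hj

/-- smallness in terms of `Ls` -/
lemma small_iff (h : Good G x Ls ν) {i j : ι} (hij : i ≠ j) :
    (line x i j).card ≤ 2 ↔ ∀ P ∈ Ls, i ∈ P → j ∉ P := by
  constructor
  · intro hc P hP hi hj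
    have e := h.line_of_mem hij hP hi hj
    obtain ⟨a, b, hab, rfl, h3⟩ := (h.lines P).1 hP
    rw [e] at hc
    omega
  · intro hall
    by_contra hc
    exact hall (line x i j) ((h.lines _).2 ⟨i, j, hij, rfl, by omega⟩) left_mem right_mem

lemma diag_pos (h : Good G x Ls ν) (i : ι) : 0 < G (x i) (x i) := h.pos _ (h.nz i)

lemma nu_pos (h : Good G x Ls ν) {P : Finset ι} (hP : P ∈ Ls) : 0 < ν P := by
  obtain ⟨a, b, hab, hPe, h3⟩ := (h.lines P).1 hP
  have ha : a ∈ P := hPe ▸ left_mem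
  have h1 := h.big P hP a ha a
  have h2 : G (x a) (x a) * G (x a) (x a) ≤ ∑ k ∈ P, G (x a) (x k) * G (x k) (x a) := by
    refine Finset.single_le_sum (f := fun k => G (x a) (x k) * G (x k) (x a)) ?_ ha
    intro k _
    rw [h.symm (x k) (x a)]
    exact mul_self_nonneg _
  have h4 := h.diag_pos a
  rw [h1] at h2
  have h5 : 0 < ν P * G (x a) (x a) := lt_of_lt_of_le (mul_pos h4 h4) h2
  exact (pos_iff_pos_of_mul_pos h5).2 h4

/-- the splitting of a row of squares over lines -/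
lemma row (h : Good G x Ls ν) (j : ι) :
    G (x j) (x j) + ∑ P ∈ Ls.filter (fun P => j ∈ P), (ν P - G (x j) (x j)) = 1 := by
  set K := Ls.filter (fun P => j ∈ P) with hK
  have h1 : ∑ k, G (x j) (x k) * G (x k) (x j) = G (x j) (x j) := h.proj j j
  have h2 : ∀ k, G (x j) (x k) * G (x k) (x j) =
      (if k = j then G (x j) (x j) * G (x j) (x j) else 0) +
      ∑ P ∈ K, (if k ∈ P.erase j then G (x j) (x k) * G (x k) (x j) else 0) := by
    intro k
    by_cases hkj : k = j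
    · subst hkj
      simp
    · rw [if_neg hkj, zero_add]
      by_cases hs : (line x j k).card ≤ 2
      · rw [h.small j k (Ne.symm hkj) hs, zero_mul]
        simp
      · have hP : line x j k ∈ K :=
          Finset.mem_filter.2 ⟨(h.lines _).2 ⟨j, k, Ne.symm hkj, rfl, by omega⟩, left_mem⟩
        rw [Finset.sum_eq_single_of_mem _ hP]
        · rw [if_pos (Finset.mem_erase.2 ⟨hkj, right_mem⟩)]
        · intro Q hQ hQP
          rw [if_neg]
          intro hk
          apply hQP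
          exact (h.line_of_mem (Ne.symm hkj) (Finset.mem_filter.1 hQ).1
            (Finset.mem_filter.1 hQ).2 (Finset.mem_erase.1 hk).2).symm
  have h3 : ∑ k, G (x j) (x k) * G (x k) (x j) = G (x j) (x j) * G (x j) (x j) +
      ∑ P ∈ K, (ν P * G (x j) (x j) - G (x j) (x j) * G (x j) (x j)) := by
    rw [Finset.sum_congr rfl fun k _ => h2 k, Finset.sum_add_distrib,
      Finset.sum_ite_eq' Finset.univ j, if_pos (Finset.mem_univ _), Finset.sum_comm]
    congr 1
    refine Finset.sum_congr rfl fun P hP => ?_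
    obtain ⟨hPL, hjP⟩ := Finset.mem_filter.1 hP
    rw [← Finset.sum_filter]
    have e : Finset.univ.filter (fun k => k ∈ P.erase j) = P.erase j := by ext; simp
    rw [e, ← h.big P hPL j hjP j, ← Finset.add_sum_erase P _ hjP]
    ring
  rw [h1] at h3
  have h4 := h.diag_pos j
  have h5 : G (x j) (x j) * (G (x j) (x j) + ∑ P ∈ K, (ν P - G (x j) (x j))) =
      G (x j) (x j) * 1 := by
    rw [mul_one, mul_add, Finset.mul_sum]
    conv_rhs => rw [h3]
    congr 1
    exact Finset.sum_congr rfl fun P _ => by ring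
  exact mul_left_cancel₀ h4.ne' h5

lemma two_le (h : Good G x Ls ν) (j : ι) : 2 ≤ (Ls.filter (fun P => j ∈ P)).card := by
  by_contra hlt
  have hcases : (Ls.filter (fun P => j ∈ P)).card = 0 ∨
      (Ls.filter (fun P => j ∈ P)).card = 1 := by omega
  rcases hcases with h0 | h1
  · rw [Finset.card_eq_zero] at h0
    obtain ⟨k0, hk0⟩ := h.big3 j j
    have hne : k0 ≠ j := fun e => hk0 (e ▸ left_mem)
    obtain ⟨k, hk, l, hl, hkl⟩ := h.irr {j} ⟨j, by simp⟩ ⟨k0, by simpa using hne⟩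
    rw [Finset.mem_singleton] at hl hk
    subst hl
    apply hkl
    apply h.small k l hk
    rw [h.small_iff hk]
    intro P hP _ hlP
    have : P ∈ Ls.filter (fun P => l ∈ P) := Finset.mem_filter.2 ⟨hP, hlP⟩
    rw [h0] at this
    simp at this
  · obtain ⟨P, hPe⟩ := Finset.card_eq_one.1 h1
    have hPm : P ∈ Ls.filter (fun P => j ∈ P) := by rw [hPe]; simp
    obtain ⟨hP, hjP⟩ := Finset.mem_filter.1 hPm
    have hν : ν P = 1 := by
      have := h.row j
      rw [hPe, Finset.sum_singleton] at this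
      linarith
    obtain ⟨a, b, hab, hPab, h3⟩ := (h.lines P).1 hP
    obtain ⟨k0, hk0⟩ := h.big3 a b
    rw [← hPab] at hk0
    obtain ⟨k, hk, l, hl, hkl⟩ := h.irr P ⟨j, hjP⟩ ⟨k0, hk0⟩
    apply hkl
    have e1 := h.proj l l
    have e2 := h.big P hP l hl l
    rw [hν, one_mul] at e2
    have e3 := Finset.sum_add_sum_compl P (fun m => G (x l) (x m) * G (x m) (x l))
    rw [e1, e2] at e3
    have e4 : ∑ m ∈ Pᶜ, G (x l) (x m) * G (x m) (x l) = 0 := by linarith
    have e5 := (Finset.sum_eq_zero_iff_of_nonneg (fun m _ => by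
      rw [h.symm (x m) (x l)]; exact mul_self_nonneg _)).1 e4 k (by simpa using hk)
    rw [h.symm (x l) (x k)] at e5
    exact mul_self_eq_zero.1 e5

/-- the norms are determined -/
lemma norm_eq (h : Good G x Ls ν) (j : ι) : G (x j) (x j) =
    (∑ P ∈ Ls.filter (fun P => j ∈ P), ν P - 1) /
      (((Ls.filter (fun P => j ∈ P)).card : ℝ) - 1) := by
  have h1 := h.row j
  have h2 : (2 : ℝ) ≤ ((Ls.filter (fun P => j ∈ P)).card : ℝ) := by exact_mod_cast h.two_le j
  rw [Finset.sum_sub_distrib, Finset.sum_const, nsmul_eq_mul] at h1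
  rw [eq_div_iff (by linarith)]
  linarith

/-- infinitesimal rigidity -/
theorem rigid (h : Good G x Ls ν) (D : Matrix ι ι ℝ) (hDs : ∀ i j, D i j = D j i)
    (hDX : ∀ i k, ∑ j, (D i j * G (x j) (x k) + G (x i) (x j) * D j k) = D i k)
    (hDd : ∀ i, D i i = 0)
    (hDsm : ∀ i j, i ≠ j → (∀ P ∈ Ls, i ∈ P → j ∉ P) → D i j = 0)
    (hDb : ∀ P ∈ Ls, ∀ l ∈ P, ∀ m,
      ∑ k ∈ P, (D m k * G (x k) (x l) + G (x m) (x k) * D k l) = ν P * D m l) :
    D = 0 := by
  let X : Matrix ι ι ℝ := fun i j => G (x i) (x j)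
  have hXs : X.transpose = X := by ext i j; exact h.symm _ _
  have hDs' : D.transpose = D := by ext i j; exact hDs j i
  have hXX : X * X = X := by
    ext i j; rw [Matrix.mul_apply]; exact h.proj i j
  have hDX' : D * X + X * D = D := by
    ext i j
    rw [Matrix.add_apply, Matrix.mul_apply, Matrix.mul_apply, ← Finset.sum_add_distrib]
    exact hDX i j
  obtain ⟨hA1, hA2⟩ := VeeA.partA Ls ν h.uniq (fun P hP => (h.nu_pos hP).ne') X D hXs hDs' hXX
    hDX' hDd hDsm h.big hDb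
  -- the functionals
  let u : ι → E →ₗ[ℝ] ℝ := fun i => ∑ p, D i p • G (x p)
  have hu : ∀ i j, u i (x j) = (D * X) i j := by
    intro i j
    simp only [u, LinearMap.sum_apply, LinearMap.smul_apply, smul_eq_mul, Matrix.mul_apply]
    rfl
  have hud : ∀ i, u i (x i) = 0 := by
    intro i
    rw [hu]
    have h1 := congrFun (congrFun hDX' i) i
    rw [Matrix.add_apply, hDd i] at h1
    have h2 : (X * D) i i = (D * X) i i := by
      have : (X * D) = (D * X).transpose := by rw [Matrix.transpose_mul, hXs, hDs']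
      rw [this]; rfl
    rw [h2] at h1
    linarith
  have hB := VeeB.partB h.ind G h.pos u hud
    (fun i j hij hc => by rw [hu]; exact hA1 i j hij ((h.small_iff hij).1 hc))
    h.small
    (fun i j hij hc l hl m hm => by
      have hP : line x i j ∈ Ls := (h.lines _).2 ⟨i, j, hij, rfl, hc⟩
      have := hA2 _ hP l hl m hm
      rw [← this]
      exact Finset.sum_congr rfl fun k _ => by rw [hu])
    (fun i j hij => h.irr _ ⟨i, left_mem⟩ (h.big3 i j))
  have hU : D * X = 0 := by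
    ext i j
    rw [← hu, hB]; rfl
  have hU' : X * D = 0 := by
    have : (X * D) = (D * X).transpose := by rw [Matrix.transpose_mul, hXs, hDs']
    rw [this, hU, Matrix.transpose_zero]
  rw [← hDX', hU, hU', add_zero]

end Good

open MvPolynomial in
/-- the polynomial system satisfied by the Gram matrices -/
def sys (Ls : Finset (Finset ι)) (ν : Finset ι → ℝ) (a : ι → ℝ) :
    Set (MvPolynomial (ι × ι) ℝ) :=
  {p | (∃ i j, p = X (i, j) - X (j, i)) ∨
    (∃ i k, p = ∑ j, X (i, j) * X (j, k) - X (i, k)) ∨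
    (∃ i j, i ≠ j ∧ (∀ P ∈ Ls, i ∈ P → j ∉ P) ∧ p = X (i, j)) ∨
    (∃ P ∈ Ls, ∃ l ∈ P, ∃ m, p = ∑ k ∈ P, X (m, k) * X (k, l) - C (ν P) * X (m, l)) ∨
    (∃ i, p = X (i, i) - C (a i))}

variable (E) in
theorem finite_gram (Ls : Finset (Finset ι)) (ν : Finset ι → ℝ) :
    {z : ι × ι → ℝ | ∃ (G : E →ₗ[ℝ] E →ₗ[ℝ] ℝ) (x : ι → E), Good G x Ls ν ∧
      ∀ i j, z (i, j) = G (x i) (x j)}.Finite := by
  refine VeeC.finite_of_nondegenerate (sys Ls ν (fun j =>
    (∑ P ∈ Ls.filter (fun P => j ∈ P), ν P - 1) /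
      (((Ls.filter (fun P => j ∈ P)).card : ℝ) - 1))) _ ?_ ?_
  · rintro z ⟨G, x, h, hz⟩ p hp
    rcases hp with ⟨i, j, rfl⟩ | ⟨i, k, rfl⟩ | ⟨i, j, hij, hs, rfl⟩ | ⟨P, hP, l, hl, m, rfl⟩ |
      ⟨i, rfl⟩
    · simp [hz, h.symm (x i) (x j)]
    · simp [hz, h.proj i k]
    · simp [hz, h.small i j hij ((h.small_iff hij).2 hs)]
    · simp [hz, h.big P hP l hl m]
    · simp [hz, h.norm_eq i]
  · rintro z ⟨G, x, h, hz⟩ d hd
    have key := h.rigid (fun i j => d (i, j)) ?_ ?_ ?_ ?_ ?_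
    · funext ij
      exact congrFun (congrFun key ij.1) ij.2
    · intro i j
      have := hd _ (Or.inl ⟨i, j, rfl⟩)
      rw [VeeC.dd_sub, VeeC.dd_X, VeeC.dd_X] at this
      linarith
    · intro i k
      have := hd _ (Or.inr (Or.inl ⟨i, k, rfl⟩))
      simp only [VeeC.dd_sub, VeeC.dd_sum, VeeC.dd_mul, VeeC.dd_X, MvPolynomial.eval_X, hz] at this
      linarith
    · intro i
      have := hd _ (Or.inr (Or.inr (Or.inr (Or.inr ⟨i, rfl⟩))))
      rw [VeeC.dd_sub, VeeC.dd_X, VeeC.dd_C] at this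
      linarith
    · intro i j hij hs
      have := hd _ (Or.inr (Or.inr (Or.inl ⟨i, j, hij, hs, rfl⟩)))
      rwa [VeeC.dd_X] at this
    · intro P hP l hl m
      have := hd _ (Or.inr (Or.inr (Or.inr (Or.inl ⟨P, hP, l, hl, m, rfl⟩))))
      simp only [VeeC.dd_sub, VeeC.dd_sum, VeeC.dd_mul, VeeC.dd_X, VeeC.dd_C, MvPolynomial.eval_X, MvPolynomial.eval_C,
        hz] at this
      linarith

end

end Pool.Agent.TH792.VeeCore
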