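import Mathlib

/-! Definitions around real ∨-systems. -/

namespace Pool.Agent.TH792.Vee

open Module

noncomputable section

variable {V : Type*} [AddCommGroup V] [Module ℝ V]

/-- The form `G_A(u, v) = ∑_{α ∈ A} α(u) α(v)` on `V`. -/
def form (A : Finset (Dual ℝ V)) (u v : V) : ℝ := ∑ α ∈ A, α u * α v

/-- `γ^∨`: the vector `v` with `G_A(v, w) = γ(w)` for all `w`
(it exists and is unique when `A` spans the dual of the finite-dimensional space `V`). -/
def vee (A : Finset (Dual ℝ V)) (γ : Dual ℝ V) : V :=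
  Classical.epsilon (fun v => ∀ w, form A v w = γ w)

open scoped Classical in
/-- The elements of `A` in the subspace `P` of the dual. -/
def inter (A : Finset (Dual ℝ V)) (P : Submodule ℝ (Dual ℝ V)) : Finset (Dual ℝ V) :=
  A.filter (fun β => β ∈ P)

/-- ∨-systems: finite sets of pairwise non-collinear nonzero covectors that span the dual and
satisfy the ∨-conditions for all two-dimensional subspaces `P` of the dual. -/
structure IsVeeSystem (A : Finset (Dual ℝ V)) : Prop where
  ne_zero : ∀ α ∈ A, α ≠ 0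
  not_collinear : ∀ α ∈ A, ∀ β ∈ A, α ≠ β → ∀ c : ℝ, β ≠ c • α
  span_eq_top : Submodule.span ℝ (A : Set (Dual ℝ V)) = ⊤
  vee_cond : ∀ P : Submodule ℝ (Dual ℝ V), finrank ℝ P = 2 → ∀ α ∈ inter A P,
    ∃ l : ℝ, ∑ β ∈ inter A P, β (vee A α) • vee A β = l • vee A α

/-- The scalar `ν(P)`: `∑_{β ∈ A ∩ P} β^∨ ⊗ β` acts on `P^∨` as `ν(P) Id`. -/
def nu (A : Finset (Dual ℝ V)) (P : Submodule ℝ (Dual ℝ V)) : ℝ :=
  Classical.epsilon (fun c => ∀ γ ∈ P, ∑ β ∈ inter A P, β (vee A γ) • vee A β = c • vee A γ)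

/-- `A` is irreducible: it is not a disjoint union of two nonempty sets whose spans are
complementary. -/
def IsIrreducible (A : Finset (Dual ℝ V)) : Prop :=
  ∀ A₁ A₂ : Set (Dual ℝ V), A₁ ∪ A₂ = (A : Set (Dual ℝ V)) → Disjoint A₁ A₂ → A₁.Nonempty →
    A₂.Nonempty → ¬ IsCompl (Submodule.span ℝ A₁) (Submodule.span ℝ A₂)

open scoped Classical in
/-- The image of `φ : A → V^*`. -/
def img (A : Finset (Dual ℝ V)) (φ : A → Dual ℝ V) : Finset (Dual ℝ V) := Finset.univ.image φ

/-- `φ : A → V^*` is a bijection of `A` onto an irreducible ∨-system `B = img A φ` that is an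
isomorphism of the linear matroids and satisfies `ν_B(span φ(P ∩ A)) = ν_A(P)` for all planes `P`
containing more than two elements of `A`. -/
structure IsMatching (A : Finset (Dual ℝ V)) (φ : A → Dual ℝ V) : Prop where
  injective : Function.Injective φ
  isVeeSystem : IsVeeSystem (img A φ)
  isIrreducible : IsIrreducible (img A φ)
  matroid : ∀ s : Set A, LinearIndepOn ℝ φ s ↔ LinearIndepOn ℝ (fun a : A => (a : Dual ℝ V)) s
  nu_eq : ∀ P : Submodule ℝ (Dual ℝ V), finrank ℝ P = 2 → 2 < (inter A P).card →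
    nu (img A φ) (Submodule.span ℝ (φ '' {a : A | (a : Dual ℝ V) ∈ P})) = nu A P

end

end Pool.Agent.TH792.Vee
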