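import Mathlib
import Pool.Agent.TH792.VeeDefs
import Pool.Agent.TH792.VeeCore

/-! From ∨-systems to Gram matrices. -/

namespace Pool.Agent.TH792.VeeLink

open Finset Module Pool.Agent.TH792.VeeB Pool.Agent.TH792.VeeCore Pool.Agent.TH792.Vee

noncomputable section

open scoped Classical

variable {V : Type*} [AddCommGroup V] [Module ℝ V] [FiniteDimensional ℝ V]

lemma exists_veeE (B : Finset (Dual ℝ V)) (hB : Submodule.span ℝ (B : Set (Dual ℝ V)) = ⊤) :
    ∃ T : Dual ℝ V ≃ₗ[ℝ] V, (∀ γ, vee B γ = T γ) ∧ ∀ γ w, form B (T γ) w = γ w := by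
  let Phi : V →ₗ[ℝ] Dual ℝ V := ∑ β ∈ B, LinearMap.smulRight β β
  have hPhi : ∀ v w, Phi v w = form B v w := by
    intro v w
    simp only [Phi, LinearMap.sum_apply, LinearMap.smulRight_apply, LinearMap.smul_apply,
      smul_eq_mul, form]
  have hinj : Function.Injective Phi := by
    rw [← LinearMap.ker_eq_bot, LinearMap.ker_eq_bot']
    intro v hv
    have h1 : form B v v = 0 := by rw [← hPhi, hv]; rfl
    have h2 : ∀ β ∈ B, β v = 0 := by
      intro β hβ
      have := (Finset.sum_eq_zero_iff_of_nonneg (fun β _ => mul_self_nonneg (β v))).1 h1 β hβ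
      exact mul_self_eq_zero.1 this
    have h3 : ∀ γ : Dual ℝ V, γ v = 0 := by
      intro γ
      have hγ : γ ∈ Submodule.span ℝ (B : Set (Dual ℝ V)) := by rw [hB]; trivial
      have : Submodule.span ℝ (B : Set (Dual ℝ V)) ≤ LinearMap.ker (Dual.eval ℝ V v) := by
        rw [Submodule.span_le]
        intro β hβ
        exact h2 β hβ
      exact this hγ
    exact (forall_dual_apply_eq_zero_iff ℝ v).1 h3
  have hsurj : Function.Surjective Phi :=
    (LinearMap.injective_iff_surjective_of_finrank_eq_finrank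
      (Subspace.dual_finrank_eq (K := ℝ) (V := V)).symm).1 hinj
  let T := (LinearEquiv.ofBijective Phi ⟨hinj, hsurj⟩).symm
  have hT : ∀ γ w, form B (T γ) w = γ w := by
    intro γ w
    rw [← hPhi]
    have : Phi (T γ) = γ := (LinearEquiv.ofBijective Phi ⟨hinj, hsurj⟩).apply_symm_apply γ
    rw [this]
  refine ⟨T, ?_, hT⟩
  intro γ
  have h1 : ∀ w, form B (vee B γ) w = γ w :=
    Classical.epsilon_spec (p := fun v => ∀ w, form B v w = γ w) ⟨T γ, hT γ⟩
  apply hinj
  ext w
  rw [hPhi, hPhi, h1, hT]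

lemma scalar3 {E : Type*} [AddCommGroup E] [Module ℝ E] (R : E →ₗ[ℝ] E) {a b c : E}
    (hab : Ind a b) (hac : Ind a c) (hbc : Ind b c) (hc : c ∈ Submodule.span ℝ {a, b})
    {p q r : ℝ} (hp : R a = p • a) (hq : R b = q • b) (hr : R c = r • c) : p = q := by
  obtain ⟨s, t, hst⟩ := Submodule.mem_span_pair.1 hc
  have hs : s ≠ 0 := by
    rintro rfl
    have := (hbc t (-1) (by rw [← hst]; simp)).2
    norm_num at this
  have ht : t ≠ 0 := by
    rintro rfl
    have := (hac s (-1) (by rw [← hst]; simp)).2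
    norm_num at this
  rw [← hst, map_add, map_smul, map_smul, hp, hq] at hr
  have h0 : (s * p - r * s) • a + (t * q - r * t) • b = 0 := by
    have : (s * p - r * s) • a + (t * q - r * t) • b =
        s • p • a + t • q • b - r • (s • a + t • b) := by
      module
    rw [this, hr, sub_self]
  obtain ⟨h1, h2⟩ := hab _ _ h0
  have e1 : s * (p - r) = 0 := by linarith
  have e2 : t * (q - r) = 0 := by linarith
  have e3 := (mul_eq_zero.1 e1).resolve_left hs
  have e4 := (mul_eq_zero.1 e2).resolve_left ht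
  linarith

section good

variable {ι : Type*} [Fintype ι]

omit [FiniteDimensional ℝ V] [Fintype ι] in
lemma ind_of_veeSystem {B : Finset (Dual ℝ V)} (hB : IsVeeSystem B) {f : ι → Dual ℝ V}
    (hf : Function.Injective f) (himg : ∀ i, f i ∈ B) : ∀ i j, i ≠ j → Ind (f i) (f j) := by
  intro i j hij s t hst
  have ht : t = 0 := by
    by_contra ht
    apply hB.not_collinear (f i) (himg i) (f j) (himg j) (fun e => hij (hf e)) (-(s / t))
    have : t • f j = -(s • f i) := by
      rw [eq_neg_iff_add_eq_zero, add_comm]; exact hst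
    calc f j = t⁻¹ • (t • f j) := by rw [smul_smul, inv_mul_cancel₀ ht, one_smul]
      _ = -(s / t) • f i := by rw [this, smul_neg, smul_smul, ← neg_smul]; congr 1; ring
  subst ht
  rw [zero_smul, add_zero] at hst
  exact ⟨(smul_eq_zero.1 hst).resolve_right (hB.ne_zero _ (himg i)), rfl⟩

theorem exists_good (hn : 3 ≤ finrank ℝ V) (B : Finset (Dual ℝ V)) (hB : IsVeeSystem B)
    (hirr : IsIrreducible B) (f : ι → Dual ℝ V) (hf : Function.Injective f)
    (himg : Finset.univ.image f = B) (Ls : Finset (Finset ι)) (ν : Finset ι → ℝ)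
    (hLs : ∀ P, P ∈ Ls ↔ ∃ i j, i ≠ j ∧ P = line f i j ∧ 3 ≤ P.card)
    (hν : ∀ i j, i ≠ j → 3 ≤ (line f i j).card →
      ν (line f i j) = nu B (Submodule.span ℝ {f i, f j})) :
    ∃ G : Dual ℝ V →ₗ[ℝ] Dual ℝ V →ₗ[ℝ] ℝ, (∀ γ δ, G γ δ = γ (vee B δ)) ∧ Good G f Ls ν := by
  obtain ⟨T, hT, hform⟩ := exists_veeE B hB.span_eq_top
  have hmem : ∀ i, f i ∈ B := fun i => himg ▸ Finset.mem_image_of_mem f (Finset.mem_univ i)
  have hind := ind_of_veeSystem hB hf hmem
  let G : Dual ℝ V →ₗ[ℝ] Dual ℝ V →ₗ[ℝ] ℝ :=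
    LinearMap.mk₂ ℝ (fun γ δ => γ (T δ)) (by intros; simp) (by intros; simp) (by intros; simp)
      (by intros; simp)
  have hG : ∀ γ δ, G γ δ = γ (T δ) := fun γ δ => rfl
  have hform' : ∀ γ δ : Dual ℝ V, form B (T γ) (T δ) = γ (T δ) := fun γ δ => hform γ (T δ)
  have hsymm : ∀ u v, G u v = G v u := by
    intro u v
    rw [hG, hG, ← hform', ← hform']
    simp only [form]
    exact Finset.sum_congr rfl fun β _ => mul_comm _ _
  have hpos : ∀ u, u ≠ 0 → 0 < G u u := by
    intro u hu
    rw [hG, ← hform']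
    refine lt_of_le_of_ne (Finset.sum_nonneg fun β _ => mul_self_nonneg _) (fun h0 => hu ?_)
    have h2 : ∀ β ∈ B, β (T u) = 0 := by
      intro β hβ
      have := (Finset.sum_eq_zero_iff_of_nonneg
        (fun β _ => mul_self_nonneg (β (T u)))).1 h0.symm β hβ
      exact mul_self_eq_zero.1 this
    ext w
    rw [← hform u w]
    simp only [form]
    rw [Finset.sum_eq_zero (fun β hβ => by rw [h2 β hβ, zero_mul])]
    rfl
  have hsum : ∀ F : Dual ℝ V → ℝ, ∑ β ∈ B, F β = ∑ i, F (f i) := by
    intro F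
    rw [← himg, Finset.sum_image (fun a _ b _ h => hf h)]
  have hproj : ∀ i k, ∑ j, G (f i) (f j) * G (f j) (f k) = G (f i) (f k) := by
    intro i k
    rw [hG (f i) (f k), ← hform', form, hsum]
    refine Finset.sum_congr rfl fun j _ => ?_
    rw [hsymm (f i) (f j), hG, hG]
  -- intersections with planes
  have hinter : ∀ i j, inter B (Submodule.span ℝ {f i, f j}) = (line f i j).image f := by
    intro i j
    ext β
    simp only [inter, Finset.mem_filter, Finset.mem_image, mem_line]
    constructor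
    · rintro ⟨h1, h2⟩
      rw [← himg] at h1
      obtain ⟨k, _, rfl⟩ := Finset.mem_image.1 h1
      exact ⟨k, h2, rfl⟩
    · rintro ⟨k, hk, rfl⟩
      exact ⟨hmem k, hk⟩
  have hsumI : ∀ i j, ∀ γ, ∑ β ∈ inter B (Submodule.span ℝ {f i, f j}), β (vee B γ) • vee B β =
      T (∑ k ∈ line f i j, G (f k) γ • f k) := by
    intro i j γ
    rw [hinter, Finset.sum_image (fun a _ b _ h => hf h), map_sum]
    refine Finset.sum_congr rfl fun k _ => ?_
    rw [map_smul, hT, hT, hG]
  -- eigenvector relation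
  have heig : ∀ i j, i ≠ j → ∀ l ∈ line f i j, ∃ c : ℝ,
      ∑ k ∈ line f i j, G (f k) (f l) • f k = c • f l := by
    intro i j hij l hl
    obtain ⟨c, hc⟩ := hB.vee_cond (Submodule.span ℝ {f i, f j}) (fr2 (hind i j hij)) (f l)
      (by rw [hinter]; exact Finset.mem_image_of_mem f hl)
    refine ⟨c, ?_⟩
    rw [hsumI, hT, ← map_smul] at hc
    exact T.injective hc
  have hsmall : ∀ i j, i ≠ j → (line f i j).card ≤ 2 → G (f i) (f j) = 0 := by
    intro i j hij hc
    have hl : line f i j = {i, j} := by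
      symm
      apply Finset.eq_of_subset_of_card_le
      · intro k hk
        rcases Finset.mem_insert.1 hk with rfl | hk
        · exact left_mem
        · rw [Finset.mem_singleton.1 hk]; exact right_mem
      · rw [Finset.card_pair hij]; exact hc
    obtain ⟨c, hc'⟩ := heig i j hij j right_mem
    rw [hl, Finset.sum_pair hij] at hc'
    have h0 : G (f i) (f j) • f i + (G (f j) (f j) - c) • f j = 0 := by
      have : G (f i) (f j) • f i + (G (f j) (f j) - c) • f j =
          G (f i) (f j) • f i + G (f j) (f j) • f j - c • f j := by module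
      rw [this, hc', sub_self]
    exact (hind i j hij _ _ h0).1
  have hbig : ∀ P ∈ Ls, ∀ l ∈ P, ∀ m,
      ∑ k ∈ P, G (f m) (f k) * G (f k) (f l) = ν P * G (f m) (f l) := by
    intro P hP l hl m
    obtain ⟨i, j, hij, rfl, h3⟩ := (hLs P).1 hP
    -- the operator
    let R : Dual ℝ V →ₗ[ℝ] Dual ℝ V := ∑ k ∈ line f i j, LinearMap.smulRight (G (f k)) (f k)
    have hR : ∀ γ, R γ = ∑ k ∈ line f i j, G (f k) γ • f k := by
      intro γ
      simp only [R, LinearMap.sum_apply, LinearMap.smulRight_apply]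
    obtain ⟨k, hk, hki, hkj⟩ : ∃ k ∈ line f i j, k ≠ i ∧ k ≠ j := by
      by_contra hno
      push Not at hno
      have hsub : line f i j ⊆ {i, j} := by
        intro t ht
        by_cases hti : t = i
        · simp [hti]
        · simp [hno t ht hti]
      have := Finset.card_le_card hsub
      have h2 : ({i, j} : Finset ι).card ≤ 2 := Finset.card_le_two
      omega
    obtain ⟨p, hp⟩ := heig i j hij i left_mem
    obtain ⟨q, hq⟩ := heig i j hij j right_mem
    obtain ⟨r, hr⟩ := heig i j hij k hk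
    rw [← hR] at hp hq hr
    have hpq : p = q := scalar3 R (hind i j hij) (hind i k hki.symm) (hind j k hkj.symm)
      (mem_line.1 hk) hp hq hr
    subst hpq
    have hscal : ∀ γ ∈ Submodule.span ℝ {f i, f j}, R γ = p • γ := by
      intro γ hγ
      obtain ⟨s, t, rfl⟩ := Submodule.mem_span_pair.1 hγ
      rw [map_add, map_smul, map_smul, hp, hq]
      module
    have hex : ∃ c : ℝ, ∀ γ ∈ Submodule.span ℝ {f i, f j},
        ∑ β ∈ inter B (Submodule.span ℝ {f i, f j}), β (vee B γ) • vee B β = c • vee B γ := by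
      refine ⟨p, fun γ hγ => ?_⟩
      rw [hsumI, ← hR, hscal γ hγ, hT, map_smul]
    have hspec := Classical.epsilon_spec hex
    have hνe : ν (line f i j) = nu B (Submodule.span ℝ {f i, f j}) := hν i j hij h3
    have h1 : ∑ β ∈ inter B (Submodule.span ℝ {f i, f j}), β (vee B (f l)) • vee B β =
        nu B (Submodule.span ℝ {f i, f j}) • vee B (f l) := hspec (f l) (mem_line.1 hl)
    rw [hsumI, hT, ← map_smul, ← hνe] at h1
    have h2 := T.injective h1
    have h4 := congrArg (G (f m)) h2
    rw [map_sum, map_smul, smul_eq_mul] at h4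
    rw [← h4]
    refine Finset.sum_congr rfl fun k _ => ?_
    rw [map_smul, smul_eq_mul]; ring
  refine ⟨G, fun γ δ => by rw [hT, hG], ⟨hsymm, hpos, hind, fun i => hB.ne_zero _ (hmem i), hLs,
    hproj, hsmall, hbig, ?_, ?_⟩⟩
  · -- irreducibility
    intro s hs hs'
    by_contra hcon
    push Not at hcon
    obtain ⟨k0, hk0⟩ := hs'
    obtain ⟨l0, hl0⟩ := hs
    refine hirr (f '' (s : Set ι)) (f '' (s : Set ι)ᶜ) ?_ ?_ ⟨f l0, l0, hl0, rfl⟩
      ⟨f k0, k0, by simpa using hk0, rfl⟩ ?_
    · rw [← Set.image_union, Set.union_compl_self, Set.image_univ, ← himg]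
      simp
    · exact (Set.disjoint_image_iff hf).2 disjoint_compl_right
    · have horth : ∀ a ∈ Submodule.span ℝ (f '' (s : Set ι)ᶜ),
          ∀ b ∈ Submodule.span ℝ (f '' (s : Set ι)), G a b = 0 := by
        intro a ha b hb
        have h1 : ∀ k ∉ s, Submodule.span ℝ (f '' (s : Set ι)) ≤ LinearMap.ker (G (f k)) := by
          intro k hk
          rw [Submodule.span_le]
          rintro _ ⟨l, hl, rfl⟩
          exact hcon k hk l hl
        have h2 : Submodule.span ℝ (f '' (s : Set ι)ᶜ) ≤ LinearMap.ker (G.flip b) := by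
          rw [Submodule.span_le]
          rintro _ ⟨k, hk, rfl⟩
          have hk' : k ∉ s := by simpa using hk
          exact h1 k hk' hb
        exact h2 ha
      constructor
      · rw [Submodule.disjoint_def]
        intro z hz1 hz2
        by_contra hz
        have := hpos z hz
        rw [horth z hz2 z hz1] at this
        exact lt_irrefl _ this
      · rw [codisjoint_iff, ← Submodule.span_union, ← Set.image_union, Set.union_compl_self,
          Set.image_univ]
        rw [← hB.span_eq_top, ← himg]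
        simp
  · -- dimension
    intro i j
    by_contra hcon
    push Not at hcon
    have h1 : (⊤ : Submodule ℝ (Dual ℝ V)) ≤ Submodule.span ℝ {f i, f j} := by
      rw [← hB.span_eq_top, Submodule.span_le, ← himg]
      intro β hβ
      simp only [Finset.coe_image, Finset.coe_univ, Set.image_univ, Set.mem_range] at hβ
      obtain ⟨k, rfl⟩ := hβ
      exact mem_line.1 (hcon k)
    have h2 : finrank ℝ (Submodule.span ℝ {f i, f j}) ≤ 2 := by
      have := finrank_span_finset_le_card (R := ℝ) ({f i, f j} : Finset (Dual ℝ V))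
      have h3 : ({f i, f j} : Finset (Dual ℝ V)).card ≤ 2 := Finset.card_le_two
      simp only [Finset.coe_insert, Finset.coe_singleton] at this
      exact this.trans h3
    have h3 : finrank ℝ (Dual ℝ V) ≤ finrank ℝ (Submodule.span ℝ {f i, f j}) := by
      rw [← finrank_top ℝ (Dual ℝ V)]
      exact Submodule.finrank_mono h1
    rw [Subspace.dual_finrank_eq] at h3
    omega

end good

omit [FiniteDimensional ℝ V] in
/-- Equal Gram matrices give linearly equivalent spanning families. -/
theorem gl_of_gram {ι : Type*} [Fintype ι] (f g : ι → Dual ℝ V)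
    (hf : Submodule.span ℝ (Set.range f) = ⊤) (hg : Submodule.span ℝ (Set.range g) = ⊤)
    (Gf Gg : Dual ℝ V →ₗ[ℝ] Dual ℝ V →ₗ[ℝ] ℝ) (hGf : ∀ u, u ≠ 0 → 0 < Gf u u)
    (hGg : ∀ u, u ≠ 0 → 0 < Gg u u) (h : ∀ i j, Gf (f i) (f j) = Gg (g i) (g j)) :
    ∃ e : Dual ℝ V ≃ₗ[ℝ] Dual ℝ V, ∀ i, g i = e (f i) := by
  let Lf : (ι → ℝ) →ₗ[ℝ] Dual ℝ V := Fintype.linearCombination ℝ f
  let Lg : (ι → ℝ) →ₗ[ℝ] Dual ℝ V := Fintype.linearCombination ℝ g
  have hLf : ∀ c, Lf c = ∑ i, c i • f i := fun c => Fintype.linearCombination_apply ℝ f c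
  have hLg : ∀ c, Lg c = ∑ i, c i • g i := fun c => Fintype.linearCombination_apply ℝ g c
  have hsf : Function.Surjective Lf := by
    rw [← LinearMap.range_eq_top, Fintype.range_linearCombination]; exact hf
  have hsg : Function.Surjective Lg := by
    rw [← LinearMap.range_eq_top, Fintype.range_linearCombination]; exact hg
  have hform : ∀ c, Gf (Lf c) (Lf c) = Gg (Lg c) (Lg c) := by
    intro c
    rw [hLf, hLg]
    simp only [map_sum, map_smul, LinearMap.sum_apply, LinearMap.smul_apply, smul_eq_mul, h]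
  have hker : LinearMap.ker Lf = LinearMap.ker Lg := by
    ext c
    rw [LinearMap.mem_ker, LinearMap.mem_ker]
    constructor
    · intro h0
      by_contra hne
      have := hGg _ hne
      rw [← hform, h0] at this
      simp at this
    · intro h0
      by_contra hne
      have := hGf _ hne
      rw [hform, h0] at this
      simp at this
  let e : Dual ℝ V ≃ₗ[ℝ] Dual ℝ V :=
    (Lf.quotKerEquivOfSurjective hsf).symm ≪≫ₗ (Submodule.quotEquivOfEq _ _ hker) ≪≫ₗ
      (Lg.quotKerEquivOfSurjective hsg)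
  have he : ∀ c, e (Lf c) = Lg c := by
    intro c
    have h1 : (Lf.quotKerEquivOfSurjective hsf).symm (Lf c) = Submodule.Quotient.mk c := by
      rw [LinearEquiv.symm_apply_eq]
      rfl
    simp only [e, LinearEquiv.trans_apply, h1]
    rfl
  refine ⟨e, fun i => ?_⟩
  have h1 : Lf (Pi.single i 1) = f i := by
    rw [hLf, Finset.sum_eq_single i]
    · simp
    · intro j _ hj
      rw [Pi.single_eq_of_ne hj, zero_smul]
    · intro hi; exact absurd (Finset.mem_univ i) hi
  have h2 : Lg (Pi.single i 1) = g i := by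
    rw [hLg, Finset.sum_eq_single i]
    · simp
    · intro j _ hj
      rw [Pi.single_eq_of_ne hj, zero_smul]
    · intro hi; exact absurd (Finset.mem_univ i) hi
  rw [← h1, he, h2]

omit [FiniteDimensional ℝ V] in
/-- A matroid isomorphism preserves lines. -/
lemma line_eq_of_matroid {ι : Type*} [Fintype ι] {f g : ι → Dual ℝ V}
    (h : ∀ s : Set ι, LinearIndepOn ℝ f s ↔ LinearIndepOn ℝ g s)
    (hf : ∀ i j, i ≠ j → Ind (f i) (f j)) (hg : ∀ i j, i ≠ j → Ind (g i) (g j))
    {i j : ι} (hij : i ≠ j) : line f i j = line g i j := by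
  ext k
  by_cases hki : k = i
  · subst hki
    exact ⟨fun _ => left_mem, fun _ => left_mem⟩
  by_cases hkj : k = j
  · subst hkj
    exact ⟨fun _ => right_mem, fun _ => right_mem⟩
  have hk : k ∉ ({i, j} : Set ι) := by
    simp [hki, hkj]
  have hf2 : LinearIndepOn ℝ f {i, j} := (LinearIndepOn.pair_iff f hij).2 (hf i j hij)
  have hg2 : LinearIndepOn ℝ g {i, j} := (LinearIndepOn.pair_iff g hij).2 (hg i j hij)
  have h1 := linearIndepOn_insert (K := ℝ) (f := f) hk
  have h2 := linearIndepOn_insert (K := ℝ) (f := g) hk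
  rw [Set.image_pair] at h1 h2
  have h3 := h (insert k {i, j})
  rw [h1, h2] at h3
  rw [mem_line, mem_line]
  constructor
  · intro hc
    by_contra hn
    exact (h3.2 ⟨hg2, hn⟩).2 hc
  · intro hc
    by_contra hn
    exact (h3.1 ⟨hf2, hn⟩).2 hc

end

end Pool.Agent.TH792.VeeLink
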