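import Mathlib
import Pool.Agent.TH792.VeeLink

/-! Assembly: matchings of a ∨-system and their Gram matrices. -/

namespace Pool.Agent.TH792.VeeMain

open Finset Module Pool.Agent.TH792.VeeB Pool.Agent.TH792.VeeCore Pool.Agent.TH792.Vee
open Pool.Agent.TH792.VeeLink

noncomputable section

open scoped Classical

variable {V : Type*} [AddCommGroup V] [Module ℝ V]

/-- the inclusion of `A` -/
def val (A : Finset (Dual ℝ V)) : A → Dual ℝ V := fun a => (a : Dual ℝ V)

/-- the big lines of `A` -/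
def LsA (A : Finset (Dual ℝ V)) : Finset (Finset A) :=
  ((Finset.univ.filter (fun p : A × A => p.1 ≠ p.2)).image
    (fun p => line (val A) p.1 p.2)).filter (fun P => 3 ≤ P.card)

/-- the constants of `A` -/
def nuA (A : Finset (Dual ℝ V)) (P : Finset A) : ℝ := nu A (Submodule.span ℝ (val A '' P))

lemma mem_LsA (A : Finset (Dual ℝ V)) (P : Finset A) :
    P ∈ LsA A ↔ ∃ i j, i ≠ j ∧ P = line (val A) i j ∧ 3 ≤ P.card := by
  simp only [LsA, Finset.mem_filter, Finset.mem_image, Finset.mem_univ, true_and, Prod.exists]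
  constructor
  · rintro ⟨⟨i, j, hij, rfl⟩, h⟩
    exact ⟨i, j, hij, rfl, h⟩
  · rintro ⟨i, j, hij, rfl, h⟩
    exact ⟨⟨i, j, hij, rfl⟩, h⟩

lemma span_line {ι : Type*} [Fintype ι] (f : ι → Dual ℝ V) (i j : ι) :
    Submodule.span ℝ (f '' (line f i j : Set ι)) = Submodule.span ℝ {f i, f j} := by
  apply le_antisymm
  · rw [Submodule.span_le]
    rintro _ ⟨k, hk, rfl⟩
    exact mem_line.1 hk
  · rw [Submodule.span_le]
    intro z hz
    rcases hz with rfl | hz
    · exact Submodule.subset_span ⟨i, left_mem, rfl⟩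
    · rw [Set.mem_singleton_iff.1 hz]
      exact Submodule.subset_span ⟨j, right_mem, rfl⟩

lemma mem_img (A : Finset (Dual ℝ V)) (φ : A → Dual ℝ V) (a : A) : φ a ∈ img A φ :=
  Finset.mem_image_of_mem φ (Finset.mem_univ a)

theorem good_of_matching [FiniteDimensional ℝ V] (hn : 3 ≤ finrank ℝ V)
    (A : Finset (Dual ℝ V)) (φ : A → Dual ℝ V) (hφ : IsMatching A φ) :
    ∃ G : Dual ℝ V →ₗ[ℝ] Dual ℝ V →ₗ[ℝ] ℝ,
      (∀ γ δ, G γ δ = γ (vee (img A φ) δ)) ∧ Good G φ (LsA A) (nuA A) := by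
  have hindφ : ∀ i j, i ≠ j → Ind (φ i) (φ j) :=
    ind_of_veeSystem hφ.isVeeSystem hφ.injective (mem_img A φ)
  have hindv : ∀ i j, i ≠ j → Ind (val A i) (val A j) := by
    intro i j hij
    have h1 : LinearIndepOn ℝ φ {i, j} := (LinearIndepOn.pair_iff φ hij).2 (hindφ i j hij)
    exact (LinearIndepOn.pair_iff (val A) hij).1 ((hφ.matroid _).1 h1)
  have hline : ∀ i j, i ≠ j → line φ i j = line (val A) i j := fun i j hij =>
    line_eq_of_matroid hφ.matroid hindφ hindv hij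
  refine exists_good hn (img A φ) hφ.isVeeSystem hφ.isIrreducible φ hφ.injective rfl (LsA A)
    (nuA A) ?_ ?_
  · intro P
    rw [mem_LsA]
    constructor
    · rintro ⟨i, j, hij, rfl, h⟩
      exact ⟨i, j, hij, (hline i j hij).symm, h⟩
    · rintro ⟨i, j, hij, rfl, h⟩
      exact ⟨i, j, hij, hline i j hij, h⟩
  · intro i j hij h3
    have h1 := hφ.nu_eq (Submodule.span ℝ {val A i, val A j}) (fr2 (hindv i j hij)) (by
      have h2 : inter A (Submodule.span ℝ {val A i, val A j}) =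
          (line (val A) i j).image (val A) := by
        ext β
        simp only [inter, Finset.mem_filter, Finset.mem_image, mem_line]
        constructor
        · rintro ⟨h1, h2⟩
          exact ⟨⟨β, h1⟩, h2, rfl⟩
        · rintro ⟨k, hk, rfl⟩
          exact ⟨k.2, hk⟩
      have hvinj : Function.Injective (val A) := Subtype.val_injective
      rw [h2, Finset.card_image_of_injective _ hvinj, ← hline i j hij]
      omega)
    have h2 : {a : A | (a : Dual ℝ V) ∈ Submodule.span ℝ {val A i, val A j}} =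
        (line φ i j : Set A) := by
      rw [hline i j hij]
      ext k
      simp [mem_line, val]
    rw [h2, span_line] at h1
    rw [h1, nuA, hline i j hij, span_line]

/-- the Gram matrix of a matching -/
def gr (A : Finset (Dual ℝ V)) (φ : A → Dual ℝ V) : A × A → ℝ :=
  fun p => φ p.1 (vee (img A φ) (φ p.2))

theorem finite_gr [FiniteDimensional ℝ V] (hn : 3 ≤ finrank ℝ V) (A : Finset (Dual ℝ V)) :
    (gr A '' {φ | IsMatching A φ}).Finite := by
  refine (finite_gram (Dual ℝ V) (LsA A) (nuA A)).subset ?_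
  rintro _ ⟨φ, hφ, rfl⟩
  obtain ⟨G, hG, hgood⟩ := good_of_matching hn A φ hφ
  exact ⟨G, φ, hgood, fun i j => by rw [hG]; rfl⟩

theorem gl_of_gr [FiniteDimensional ℝ V] (hn : 3 ≤ finrank ℝ V) (A : Finset (Dual ℝ V))
    {φ ψ : A → Dual ℝ V} (hφ : IsMatching A φ) (hψ : IsMatching A ψ) (h : gr A φ = gr A ψ) :
    ∃ g : Dual ℝ V ≃ₗ[ℝ] Dual ℝ V, ∀ a, φ a = g (ψ a) := by
  obtain ⟨G, hG, hgood⟩ := good_of_matching hn A φ hφ
  obtain ⟨G', hG', hgood'⟩ := good_of_matching hn A ψ hψ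
  have hspan : ∀ χ : A → Dual ℝ V, IsMatching A χ → Submodule.span ℝ (Set.range χ) = ⊤ := by
    intro χ hχ
    have := hχ.isVeeSystem.span_eq_top
    simpa [img] using this
  refine gl_of_gram ψ φ (hspan ψ hψ) (hspan φ hφ) G' G hgood'.pos hgood.pos ?_
  intro i j
  have := congrFun h (i, j)
  rw [hG, hG']
  exact this.symm

theorem finiteness [FiniteDimensional ℝ V] (hn : 3 ≤ finrank ℝ V) (A : Finset (Dual ℝ V)) :
    ∃ T : Finset (A → Dual ℝ V), (∀ ψ ∈ T, IsMatching A ψ) ∧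
      ∀ φ : A → Dual ℝ V, IsMatching A φ →
        ∃ ψ ∈ T, ∃ g : Dual ℝ V ≃ₗ[ℝ] Dual ℝ V, ∀ a, φ a = g (ψ a) := by
  have hfin := finite_gr hn A
  obtain ⟨t, ht, htf, hte⟩ := (Set.exists_subset_image_finite_and
    (f := gr A) (s := {φ | IsMatching A φ}) (p := fun t => t = gr A '' {φ | IsMatching A φ})).1
    ⟨_, subset_rfl, hfin, rfl⟩
  refine ⟨htf.toFinset, fun ψ hψ => ht (htf.mem_toFinset.1 hψ), fun φ hφ => ?_⟩
  have h1 : gr A φ ∈ gr A '' t := by
    rw [hte]; exact ⟨φ, hφ, rfl⟩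
  obtain ⟨ψ, hψ, he⟩ := h1
  exact ⟨ψ, htf.mem_toFinset.2 hψ, gl_of_gr hn A hφ (ht hψ) he.symm⟩

end

end Pool.Agent.TH792.VeeMain
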