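import Mathlib
import Pool.Agent.TH792.VeeMain

/-! Uniqueness of the scaling: projectively equivalent matching ∨-systems are linearly
equivalent up to signs. -/

namespace Pool.Agent.TH792.VeeProj

open Finset Module Pool.Agent.TH792.VeeB Pool.Agent.TH792.VeeCore Pool.Agent.TH792.Vee
open Pool.Agent.TH792.VeeLink Pool.Agent.TH792.VeeMain

noncomputable section

open scoped Classical

/-- Cauchy-Schwarz with weights. -/
lemma wcs {ι : Type*} (s : Finset ι) (w a b : ι → ℝ) (hw : ∀ i ∈ s, 0 ≤ w i) :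
    (∑ i ∈ s, w i * a i * b i) ^ 2 ≤ (∑ i ∈ s, w i * a i ^ 2) * (∑ i ∈ s, w i * b i ^ 2) := by
  have h := Finset.sum_mul_sq_le_sq_mul_sq s (fun i => Real.sqrt (w i) * a i)
    (fun i => Real.sqrt (w i) * b i)
  have e1 : ∑ i ∈ s, Real.sqrt (w i) * a i * (Real.sqrt (w i) * b i) =
      ∑ i ∈ s, w i * a i * b i :=
    Finset.sum_congr rfl fun i hi => by
      have := Real.mul_self_sqrt (hw i hi)
      linear_combination (a i * b i) * this
  have e2 : ∑ i ∈ s, (Real.sqrt (w i) * a i) ^ 2 = ∑ i ∈ s, w i * a i ^ 2 :=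
    Finset.sum_congr rfl fun i hi => by rw [mul_pow, Real.sq_sqrt (hw i hi)]
  have e3 : ∑ i ∈ s, (Real.sqrt (w i) * b i) ^ 2 = ∑ i ∈ s, w i * b i ^ 2 :=
    Finset.sum_congr rfl fun i hi => by rw [mul_pow, Real.sq_sqrt (hw i hi)]
  rwa [e1, e2, e3] at h

variable {ι : Type*} [Fintype ι] [Nonempty ι] {E : Type*} [AddCommGroup E] [Module ℝ E]

/-- Uniqueness of radial isotropic position, in the form needed here. -/
theorem scale_unique (x : ι → E) (hx : Submodule.span ℝ (Set.range x) = ⊤)
    (G H : E →ₗ[ℝ] E →ₗ[ℝ] ℝ) (hGs : ∀ u v, G u v = G v u) (hGp : ∀ u, u ≠ 0 → 0 < G u u)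
    (hHs : ∀ u v, H u v = H v u) (hHp : ∀ u, u ≠ 0 → 0 < H u u) (hx0 : ∀ i, x i ≠ 0)
    (w : ι → ℝ)
    (hG : ∀ i k, ∑ j, G (x i) (x j) * G (x j) (x k) = G (x i) (x k))
    (hH : ∀ i k, ∑ j, w j * (H (x i) (x j) * H (x j) (x k)) = H (x i) (x k))
    (hn : ∀ i, G (x i) (x i) = w i * H (x i) (x i))
    (hirr : ∀ s : Finset ι, s.Nonempty → (∃ k, k ∉ s) → ∃ k ∉ s, ∃ l ∈ s,
      G (x k) (x l) ≠ 0) :
    ∃ μ : ℝ, 0 < μ ∧ ∀ i, w i = μ := by
  have hwpos : ∀ i, 0 < w i := by
    intro i
    have h1 := hGp _ (hx0 i)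
    rw [hn i] at h1
    exact (pos_iff_pos_of_mul_pos h1).2 (hHp _ (hx0 i))
  -- a vector orthogonal to all `x i` vanishes
  have hortho : ∀ (K : E →ₗ[ℝ] E →ₗ[ℝ] ℝ), (∀ u, u ≠ 0 → 0 < K u u) → ∀ z,
      (∀ i, K z (x i) = 0) → z = 0 := by
    intro K hK z hz
    by_contra hne
    have h1 : Submodule.span ℝ (Set.range x) ≤ LinearMap.ker (K z) := by
      rw [Submodule.span_le]
      rintro _ ⟨i, rfl⟩
      exact hz i
    have h2 : z ∈ LinearMap.ker (K z) := h1 (by rw [hx]; trivial)
    have := hK z hne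
    rw [LinearMap.mem_ker] at h2
    linarith
  -- linear extension of properties
  have hlin : ∀ (f g : E →ₗ[ℝ] E), (∀ i, f (x i) = g (x i)) → ∀ z, f z = g z := by
    intro f g hfg z
    have h1 : Submodule.span ℝ (Set.range x) ≤ LinearMap.ker (f - g) := by
      rw [Submodule.span_le]
      rintro _ ⟨i, rfl⟩
      simp [hfg i]
    have h2 : z ∈ LinearMap.ker (f - g) := h1 (by rw [hx]; trivial)
    rw [LinearMap.mem_ker, LinearMap.sub_apply, sub_eq_zero] at h2
    exact h2
  -- reproducing formulas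
  have hRG : ∀ z, ∑ j, G z (x j) • x j = z := by
    intro z
    let f : E →ₗ[ℝ] E := ∑ j, LinearMap.smulRight (G.flip (x j)) (x j)
    have hf : ∀ z, f z = ∑ j, G z (x j) • x j := by
      intro z
      simp only [f, LinearMap.sum_apply, LinearMap.smulRight_apply, LinearMap.flip_apply]
    have := hlin f LinearMap.id (fun i => by
      rw [hf, LinearMap.id_apply, ← sub_eq_zero]
      apply hortho G hGp
      intro k
      rw [map_sub, LinearMap.sub_apply, map_sum, LinearMap.sum_apply, sub_eq_zero]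
      rw [← hG i k]
      refine Finset.sum_congr rfl fun j _ => ?_
      rw [map_smul, LinearMap.smul_apply, smul_eq_mul]) z
    rw [hf] at this
    simpa using this
  have hRH : ∀ z, ∑ j, (w j * H z (x j)) • x j = z := by
    intro z
    let f : E →ₗ[ℝ] E := ∑ j, w j • LinearMap.smulRight (H.flip (x j)) (x j)
    have hf : ∀ z, f z = ∑ j, (w j * H z (x j)) • x j := by
      intro z
      simp only [f, LinearMap.sum_apply, LinearMap.smul_apply, LinearMap.smulRight_apply,
        LinearMap.flip_apply, smul_smul]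
    have := hlin f LinearMap.id (fun i => by
      rw [hf, LinearMap.id_apply, ← sub_eq_zero]
      apply hortho H hHp
      intro k
      rw [map_sub, LinearMap.sub_apply, map_sum, LinearMap.sum_apply, sub_eq_zero]
      rw [← hH i k]
      refine Finset.sum_congr rfl fun j _ => ?_
      rw [map_smul, LinearMap.smul_apply, smul_eq_mul]; ring) z
    rw [hf] at this
    simpa using this
  have hGG : ∀ z y, ∑ j, G z (x j) * G (x j) y = G z y := by
    intro z y
    conv_rhs => rw [← hRG z]
    rw [map_sum, LinearMap.sum_apply]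
    exact Finset.sum_congr rfl fun j _ => by rw [map_smul, LinearMap.smul_apply, smul_eq_mul]
  have hHH : ∀ z y, ∑ j, w j * H z (x j) * H (x j) y = H z y := by
    intro z y
    conv_rhs => rw [← hRH z]
    rw [map_sum, LinearMap.sum_apply]
    exact Finset.sum_congr rfl fun j _ => by rw [map_smul, LinearMap.smul_apply, smul_eq_mul]
  have hHG : ∀ z y, ∑ j, w j * H z (x j) * G (x j) y = G z y := by
    intro z y
    conv_rhs => rw [← hRH z]
    rw [map_sum, LinearMap.sum_apply]
    exact Finset.sum_congr rfl fun j _ => by rw [map_smul, LinearMap.smul_apply, smul_eq_mul]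
  -- the largest weight
  obtain ⟨i0, _, hi0⟩ := Finset.exists_max_image Finset.univ w Finset.univ_nonempty
  have hmax : ∀ i, w i ≤ w i0 := fun i => hi0 i (Finset.mem_univ i)
  set μ := w i0 with hμ
  have hμ0 : 0 < μ := hwpos i0
  -- G ≤ μ H
  have hle : ∀ z, G z z ≤ μ * H z z := by
    intro z
    by_cases hz : z = 0
    · simp [hz]
    have h1 : (G z z) ^ 2 ≤ H z z * (μ * G z z) := by
      have e0 : G z z = ∑ j, w j * H z (x j) * G z (x j) := by
        rw [← hHG z z]
        exact Finset.sum_congr rfl fun j _ => by rw [hGs (x j) z]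
      have e1 : ∑ j, w j * (H z (x j)) ^ 2 = H z z := by
        rw [← hHH z z]
        exact Finset.sum_congr rfl fun j _ => by rw [hHs (x j) z]; ring
      have e2 : ∑ j, w j * (G z (x j)) ^ 2 ≤ μ * G z z := by
        rw [← hGG z z, Finset.mul_sum]
        refine Finset.sum_le_sum fun j _ => ?_
        rw [hGs (x j) z]
        nlinarith [hmax j, sq_nonneg (G z (x j))]
      calc (G z z) ^ 2 = (∑ j, w j * H z (x j) * G z (x j)) ^ 2 := by rw [← e0]
        _ ≤ (∑ j, w j * (H z (x j)) ^ 2) * (∑ j, w j * (G z (x j)) ^ 2) :=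
            wcs _ _ _ _ fun j _ => (hwpos j).le
        _ ≤ H z z * (μ * G z z) := by
            rw [e1]
            exact mul_le_mul_of_nonneg_left e2 (hHp z hz).le
    have hG0 := hGp z hz
    have h2 : G z z * G z z ≤ (μ * H z z) * G z z := by nlinarith
    exact le_of_mul_le_mul_right h2 hG0
  -- the null space of μ H - G
  have hnull : ∀ z, G z z = μ * H z z → ∀ y, G z y = μ * H z y := by
    intro z hz y
    have hq : ∀ t : ℝ, 0 ≤ 2 * t * (μ * H z y - G z y) + t ^ 2 * (μ * H y y - G y y) := by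
      intro t
      have h1 := hle (z + t • y)
      simp only [map_add, map_smul, LinearMap.add_apply, LinearMap.smul_apply, smul_eq_mul] at h1
      rw [hGs y z, hHs y z] at h1
      nlinarith
    set b := μ * H z y - G z y with hb
    set cc := μ * H y y - G y y with hcc
    have hcc0 : 0 ≤ cc := by rw [hcc]; linarith [hle y]
    have hb0 : b = 0 := by
      by_contra hbne
      have h1 := hq (-b / (cc + 1))
      have h2 : 0 < cc + 1 := by linarith
      have h3 : 2 * (-b / (cc + 1)) * b + (-b / (cc + 1)) ^ 2 * cc =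
          (b ^ 2 / (cc + 1) ^ 2) * (cc - 2 * (cc + 1)) := by
        field_simp
        ring
      rw [h3] at h1
      have h4 : 0 < b ^ 2 / (cc + 1) ^ 2 := by positivity
      nlinarith
    rw [hb] at hb0
    linarith
  -- the set of indices in the null space
  set s : Finset ι := Finset.univ.filter (fun i => w i = μ) with hs
  have hsz : ∀ i ∈ s, ∀ y, G (x i) y = μ * H (x i) y := by
    intro i hi
    apply hnull
    rw [hn i, (Finset.mem_filter.1 hi).2]
  have hsep : ∀ l ∈ s, ∀ k, k ∉ s → G (x k) (x l) = 0 := by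
    intro l hl k hk
    have hl' := hsz l hl
    have hzero : ∑ j, (μ - w j) * (H (x l) (x j)) ^ 2 = 0 := by
      have e1 : ∑ j, μ * (μ * (H (x l) (x j)) ^ 2) = G (x l) (x l) := by
        rw [← hGG (x l) (x l)]
        refine Finset.sum_congr rfl fun j _ => ?_
        rw [hGs (x j) (x l), hl']; ring
      have e2 : ∑ j, w j * (H (x l) (x j)) ^ 2 = H (x l) (x l) := by
        rw [← hHH (x l) (x l)]
        exact Finset.sum_congr rfl fun j _ => by rw [hHs (x j) (x l)]; ring
      rw [← Finset.mul_sum, hl'] at e1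
      have e3 := mul_left_cancel₀ hμ0.ne' e1
      simp only [sub_mul, Finset.sum_sub_distrib]
      rw [e3, e2, sub_self]
    have h1 := (Finset.sum_eq_zero_iff_of_nonneg (fun j _ =>
      mul_nonneg (sub_nonneg.2 (hmax j)) (sq_nonneg _))).1 hzero k (Finset.mem_univ _)
    have h2 : μ - w k ≠ 0 := by
      intro h0
      exact hk (Finset.mem_filter.2 ⟨Finset.mem_univ _, by linarith⟩)
    have h3 := (mul_eq_zero.1 h1).resolve_left h2
    have h4 := pow_eq_zero_iff (n := 2) (by norm_num) |>.1 h3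
    rw [hGs, hl', h4, mul_zero]
  refine ⟨μ, hμ0, ?_⟩
  by_contra hcon
  push Not at hcon
  obtain ⟨k, hk⟩ := hcon
  obtain ⟨k', hk', l, hl, hkl⟩ := hirr s ⟨i0, Finset.mem_filter.2 ⟨Finset.mem_univ _, rfl⟩⟩
    ⟨k, fun h => hk (Finset.mem_filter.1 h).2⟩
  exact hkl (hsep l hl k' hk')

section main

variable {V : Type*} [AddCommGroup V] [Module ℝ V]

lemma img_val (A : Finset (Dual ℝ V)) : img A (val A) = A := by
  ext β
  simp only [img, Finset.mem_image, Finset.mem_univ, true_and]
  constructor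
  · rintro ⟨a, rfl⟩; exact a.2
  · intro h; exact ⟨⟨β, h⟩, rfl⟩

lemma matching_val (A : Finset (Dual ℝ V)) (hA : IsVeeSystem A) (hirr : IsIrreducible A) :
    IsMatching A (val A) where
  injective := Subtype.val_injective
  isVeeSystem := by rw [img_val]; exact hA
  isIrreducible := by rw [img_val]; exact hirr
  matroid := fun s => Iff.rfl
  nu_eq := by
    intro P hP hc
    rw [img_val]
    congr 1
    -- the span of `A ∩ P` is `P`
    have hI : ∀ β ∈ inter A P, β ∈ A ∧ β ∈ P := fun β hβ => Finset.mem_filter.1 hβ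
    obtain ⟨a, ha, b, hb, hab⟩ := Finset.one_lt_card.1 (by omega : 1 < (inter A P).card)
    have haA := (hI a ha).1
    have hbA := (hI b hb).1
    have hind : Ind a b := by
      have := ind_of_veeSystem hA (f := val A) Subtype.val_injective (fun i => i.2)
        ⟨a, haA⟩ ⟨b, hbA⟩ (fun h => hab (congrArg Subtype.val h))
      exact this
    have : FiniteDimensional ℝ P := FiniteDimensional.of_finrank_pos (by omega)
    have h1 : Submodule.span ℝ {a, b} = P := by
      apply Submodule.eq_of_le_of_finrank_eq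
      · rw [Submodule.span_le]
        intro z hz
        rcases hz with rfl | hz
        · exact (hI _ ha).2
        · rw [Set.mem_singleton_iff.1 hz]; exact (hI _ hb).2
      · rw [fr2 hind, hP]
    apply le_antisymm
    · rw [Submodule.span_le]
      rintro _ ⟨k, hk, rfl⟩
      exact hk
    · conv_lhs => rw [← h1]
      rw [Submodule.span_le]
      intro z hz
      rcases hz with rfl | hz
      · exact Submodule.subset_span ⟨⟨z, haA⟩, (hI _ ha).2, rfl⟩
      · rw [Set.mem_singleton_iff.1 hz]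
        exact Submodule.subset_span ⟨⟨b, hbA⟩, (hI _ hb).2, rfl⟩

theorem projective_unique [FiniteDimensional ℝ V] (hn : 3 ≤ finrank ℝ V)
    (A : Finset (Dual ℝ V)) (hA : IsVeeSystem A) (hirr : IsIrreducible A)
    (φ : A → Dual ℝ V) (hφ : IsMatching A φ) (h : Dual ℝ V ≃ₗ[ℝ] Dual ℝ V) (c : A → ℝ)
    (hc : ∀ a, φ a = c a • h a) :
    ∃ g : Dual ℝ V ≃ₗ[ℝ] Dual ℝ V, ∀ a, φ a = g a ∨ φ a = - g a := by
  obtain ⟨G, hG, hgood⟩ := good_of_matching hn A (val A) (matching_val A hA hirr)
  obtain ⟨K, hK, hgoodK⟩ := good_of_matching hn A φ hφ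
  have hspan : Submodule.span ℝ (Set.range (val A)) = ⊤ := by
    have := hA.span_eq_top
    have e : Set.range (val A) = (A : Set (Dual ℝ V)) := by
      ext β; simp [VeeMain.val]
    rw [e]; exact this
  have hne : Nonempty A := by
    by_contra hemp
    rw [not_nonempty_iff] at hemp
    have h1 : Set.range (val A) = ∅ := Set.range_eq_empty _
    rw [h1, Submodule.span_empty] at hspan
    have h2 : finrank ℝ (Dual ℝ V) = 0 := by
      rw [← finrank_top ℝ (Dual ℝ V), ← hspan, finrank_bot]
    rw [Subspace.dual_finrank_eq] at h2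
    omega
  let H : Dual ℝ V →ₗ[ℝ] Dual ℝ V →ₗ[ℝ] ℝ :=
    (K.compl₁₂ (h : Dual ℝ V →ₗ[ℝ] Dual ℝ V) (h : Dual ℝ V →ₗ[ℝ] Dual ℝ V))
  have hH : ∀ u v, H u v = K (h u) (h v) := fun u v => rfl
  have hKφ : ∀ a b, K (φ a) (φ b) = c a * c b * H (val A a) (val A b) := by
    intro a b
    rw [hc a, hc b, hH, map_smul, map_smul, LinearMap.smul_apply, smul_eq_mul, smul_eq_mul]
    simp only [VeeMain.val]
    ring
  have hc0 : ∀ a, c a ≠ 0 := by
    intro a h0
    apply hgoodK.nz a
    rw [hc a, h0, zero_smul]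
  obtain ⟨μ, hμ, hw⟩ := scale_unique (val A) hspan G H hgood.symm hgood.pos
    (fun u v => by rw [hH, hH]; exact hgoodK.symm _ _)
    (fun u hu => by
      rw [hH]
      exact hgoodK.pos _ (fun h0 => hu ((LinearEquiv.map_eq_zero_iff h).1 h0)))
    hgood.nz (fun a => c a ^ 2) hgood.proj
    (fun i k => by
      have h1 := hgoodK.proj i k
      simp only [hKφ] at h1
      have h2 : c i * c k * ∑ j, c j ^ 2 * (H (val A i) (val A j) * H (val A j) (val A k)) =
          c i * c k * H (val A i) (val A k) := by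
        rw [← h1, Finset.mul_sum]
        exact Finset.sum_congr rfl fun j _ => by ring
      exact mul_left_cancel₀ (mul_ne_zero (hc0 i) (hc0 k)) h2)
    (fun i => by
      have h1 := hgood.norm_eq i
      have h2 := hgoodK.norm_eq i
      rw [← h2, hKφ] at h1
      rw [h1]; ring)
    hgood.irr
  refine ⟨(LinearEquiv.smulOfNeZero ℝ (Dual ℝ V) (Real.sqrt μ) (Real.sqrt_pos.2 hμ).ne').trans h,
    fun a => ?_⟩
  have h1 : c a ^ 2 = μ := hw a
  have h2 : c a = Real.sqrt μ ∨ c a = - Real.sqrt μ := by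
    apply sq_eq_sq_iff_eq_or_eq_neg.1
    rw [Real.sq_sqrt hμ.le, h1]
  rcases h2 with h2 | h2
  · left
    rw [hc a, h2]
    simp [LinearEquiv.smulOfNeZero_apply]
  · right
    rw [hc a, h2]
    have e : (-Real.sqrt μ) • h (a : Dual ℝ V) = -(Real.sqrt μ • h (a : Dual ℝ V)) :=
      neg_smul (Real.sqrt μ) (h (a : Dual ℝ V))
    refine e.trans ?_
    simp [LinearEquiv.smulOfNeZero_apply]

end main

end

end Pool.Agent.TH792.VeeProj
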