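import Mathlib
import Pool.Agent.TH792.VeeProj

/-! Infinitesimal rigidity. -/

namespace Pool.Agent.TH792.Vee

open Module

noncomputable section

variable {V : Type*} [AddCommGroup V] [Module ℝ V]

/-- First-order deformations of `A` with constant `ν`-function: `δ α` is the derivative of the
covector `α` and `ω α` the derivative of the dual vector `α^∨`. The three conditions are the
derivatives of the equations `G(α^∨, u) = α(u)`, of the ∨-conditions
`∑_{β ∈ P} β(α^∨) β^∨ = ν(P) α^∨` for planes `P` with more than two covectors and of the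
∨-conditions `β(α^∨) = 0` for planes with exactly two covectors `α`, `β`. -/
structure IsInfDef (A : Finset (Dual ℝ V)) (δ : Dual ℝ V → Dual ℝ V) (ω : Dual ℝ V → V) :
    Prop where
  dual : ∀ α ∈ A, ∀ u : V, ∑ β ∈ A, (δ β (vee A α) * β u + β (ω α) * β u + β (vee A α) * δ β u) =
    δ α u
  big : ∀ P : Submodule ℝ (Dual ℝ V), finrank ℝ P = 2 → 2 < (inter A P).card →
    ∀ α ∈ inter A P, ∑ β ∈ inter A P,
      ((δ β (vee A α) + β (ω α)) • vee A β + β (vee A α) • ω β) = nu A P • ω α
  small : ∀ P : Submodule ℝ (Dual ℝ V), finrank ℝ P = 2 → (inter A P).card = 2 →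
    ∀ α ∈ inter A P, ∀ β ∈ inter A P, α ≠ β → δ β (vee A α) + β (ω α) = 0

end

end Pool.Agent.TH792.Vee

namespace Pool.Agent.TH792.VeeCore.Good

open Finset Pool.Agent.TH792.VeeB Pool.Agent.TH792.VeeCore

noncomputable section

open scoped Classical

variable {ι : Type*} [Fintype ι] {E : Type*} [AddCommGroup E] [Module ℝ E]
  {G : E →ₗ[ℝ] E →ₗ[ℝ] ℝ} {x : ι → E} {Ls : Finset (Finset ι)} {ν : Finset ι → ℝ}

/-- splitting of a sum over the lines through a point -/
lemma split_row (h : Good G x Ls ν) (j : ι) (f : ι → ℝ)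
    (hf : ∀ k, k ≠ j → (line x j k).card ≤ 2 → f k = 0) :
    ∑ k, f k = f j + ∑ P ∈ Ls.filter (fun P => j ∈ P), (∑ k ∈ P, f k - f j) := by
  set K := Ls.filter (fun P => j ∈ P) with hK
  have h2 : ∀ k, f k = (if k = j then f j else 0) +
      ∑ P ∈ K, (if k ∈ P.erase j then f k else 0) := by
    intro k
    by_cases hkj : k = j
    · subst hkj
      simp
    · rw [if_neg hkj, zero_add]
      by_cases hs : (line x j k).card ≤ 2
      · rw [hf k hkj hs]
        simp
      · have hP : line x j k ∈ K :=
          Finset.mem_filter.2 ⟨(h.lines _).2 ⟨j, k, Ne.symm hkj, rfl, by omega⟩, left_mem⟩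
        rw [Finset.sum_eq_single_of_mem _ hP]
        · rw [if_pos (Finset.mem_erase.2 ⟨hkj, right_mem⟩)]
        · intro Q hQ hQP
          rw [if_neg]
          intro hk
          apply hQP
          exact (h.line_of_mem (Ne.symm hkj) (Finset.mem_filter.1 hQ).1
            (Finset.mem_filter.1 hQ).2 (Finset.mem_erase.1 hk).2).symm
  rw [Finset.sum_congr rfl fun k _ => h2 k, Finset.sum_add_distrib,
    Finset.sum_ite_eq' Finset.univ j, if_pos (Finset.mem_univ _), Finset.sum_comm]
  congr 1
  refine Finset.sum_congr rfl fun P hP => ?_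
  obtain ⟨hPL, hjP⟩ := Finset.mem_filter.1 hP
  rw [← Finset.sum_filter]
  have e : Finset.univ.filter (fun k => k ∈ P.erase j) = P.erase j := by ext; simp
  rw [e, ← Finset.add_sum_erase P _ hjP]
  ring

/-- the diagonal of a first-order deformation vanishes -/
lemma diag_zero (h : Good G x Ls ν) (D : Matrix ι ι ℝ)
    (hDX : ∀ i k, ∑ j, (D i j * G (x j) (x k) + G (x i) (x j) * D j k) = D i k)
    (hDb : ∀ P ∈ Ls, ∀ l ∈ P, ∀ m,
      ∑ k ∈ P, (D m k * G (x k) (x l) + G (x m) (x k) * D k l) = ν P * D m l) (j : ι) :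
    D j j = 0 := by
  have h1 := hDX j j
  rw [h.split_row j _ (fun k hk hs => by
    rw [h.symm (x k) (x j), h.small j k (Ne.symm hk) hs]; ring)] at h1
  have h2 : ∑ P ∈ Ls.filter (fun P => j ∈ P),
      (∑ k ∈ P, (D j k * G (x k) (x j) + G (x j) (x k) * D k j) -
        (D j j * G (x j) (x j) + G (x j) (x j) * D j j)) =
      ∑ P ∈ Ls.filter (fun P => j ∈ P), (ν P * D j j - 2 * (G (x j) (x j) * D j j)) := by
    refine Finset.sum_congr rfl fun P hP => ?_
    obtain ⟨hPL, hjP⟩ := Finset.mem_filter.1 hP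
    rw [hDb P hPL j hjP j]; ring
  rw [h2] at h1
  have h3 := h.row j
  rw [Finset.sum_sub_distrib, Finset.sum_const, nsmul_eq_mul] at h1 h3
  rw [← Finset.sum_mul] at h1
  have h4 := h.diag_pos j
  have h5 : (2 : ℝ) ≤ ((Ls.filter (fun P => j ∈ P)).card : ℝ) := by exact_mod_cast h.two_le j
  set K : ℝ := ((Ls.filter (fun P => j ∈ P)).card : ℝ) with hK
  set a := G (x j) (x j) with ha
  have h6 : (∑ P ∈ Ls.filter (fun P => j ∈ P), ν P) = 1 - a + K * a := by linarith
  rw [h6] at h1
  have h7 : (K - 1) * a * D j j = 0 := by linear_combination (-1) * h1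
  have h8 : (K - 1) * a ≠ 0 := mul_ne_zero (by linarith) h4.ne'
  exact (mul_eq_zero.1 h7).resolve_left h8

end

end Pool.Agent.TH792.VeeCore.Good

namespace Pool.Agent.TH792.VeeInf

open Finset Module Pool.Agent.TH792.VeeB Pool.Agent.TH792.VeeCore Pool.Agent.TH792.Vee
open Pool.Agent.TH792.VeeLink Pool.Agent.TH792.VeeMain Pool.Agent.TH792.VeeProj

noncomputable section

open scoped Classical

variable {V : Type*} [AddCommGroup V] [Module ℝ V] [FiniteDimensional ℝ V]

theorem inf_rigid (hn : 3 ≤ finrank ℝ V) (A : Finset (Dual ℝ V)) (hA : IsVeeSystem A)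
    (hirr : IsIrreducible A) (δ : Dual ℝ V → Dual ℝ V) (ω : Dual ℝ V → V)
    (hdef : IsInfDef A δ ω) :
    ∃ L : Dual ℝ V →ₗ[ℝ] Dual ℝ V, ∀ α ∈ A, δ α = L α := by
  obtain ⟨G, hG, hgood⟩ := good_of_matching hn A (val A) (matching_val A hA hirr)
  rw [img_val] at hG
  obtain ⟨T, hT, hform⟩ := exists_veeE A hA.span_eq_top
  have hX : ∀ a b : A, G (val A a) (val A b) = (a : Dual ℝ V) (vee A (b : Dual ℝ V)) :=
    fun a b => hG _ _
  -- the frame identities
  have hframe : ∀ γ : Dual ℝ V, ∀ v : V, ∑ β ∈ A, β v * γ (vee A β) = γ v := by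
    intro γ v
    rw [← hform γ v, form]
    refine Finset.sum_congr rfl fun β _ => ?_
    have h1 : γ (vee A β) = β (T γ) := by
      rw [hT, ← hform γ (T β), ← hform β (T γ), form, form]
      exact Finset.sum_congr rfl fun _ _ => mul_comm _ _
    rw [h1]; ring
  have hframe' : ∀ γ : Dual ℝ V, ∀ v : V, ∑ b : A, (b : Dual ℝ V) v * γ (vee A b) = γ v := by
    intro γ v
    rw [← hframe γ v]
    exact Finset.sum_coe_sort A (fun β => β v * γ (vee A β))
  -- the derivative of the Gram matrix
  let D : Matrix A A ℝ := fun a b => δ a (vee A b) + (a : Dual ℝ V) (ω b)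
  have hD : ∀ a b : A, D a b = δ a (vee A b) + (a : Dual ℝ V) (ω b) := fun a b => rfl
  -- `b(ω a)` in terms of `δ`
  let S : V → V → ℝ := fun u v => ∑ c ∈ A, (δ c u * c v + c u * δ c v)
  have hSs : ∀ u v, S u v = S v u := by
    intro u v
    exact Finset.sum_congr rfl fun c _ => by ring
  have hω : ∀ a b : A, (b : Dual ℝ V) (ω a) = δ a (vee A b) - S (vee A a) (vee A b) := by
    intro a b
    have h1 := hdef.dual a a.2 (vee A b)
    have h2 : ∑ β ∈ A, (δ β (vee A a) * β (vee A b) + β (ω a) * β (vee A b) +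
        β (vee A a) * δ β (vee A b)) = S (vee A a) (vee A b) + form A (ω a) (vee A b) := by
      simp only [S, form]
      rw [← Finset.sum_add_distrib]
      exact Finset.sum_congr rfl fun β _ => by ring
    have h3 : form A (ω a) (vee A b) = (b : Dual ℝ V) (ω a) := by
      rw [hT, ← hform b (ω a), form, form]
      exact Finset.sum_congr rfl fun _ _ => mul_comm _ _
    rw [h2, h3] at h1
    linarith
  have hDs : ∀ a b, D a b = D b a := by
    intro a b
    rw [hD, hD, hω b a, hω a b, hSs (vee A a) (vee A b)]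
    ring
  have hXs : ∀ a b : A, (a : Dual ℝ V) (vee A b) = (b : Dual ℝ V) (vee A a) := by
    intro a b
    rw [← hX, ← hX]; exact hgood.symm _ _
  -- `D X`
  have hDX1 : ∀ a b : A, ∑ c : A, D a c * (c : Dual ℝ V) (vee A b) =
      δ a (vee A b) - ∑ c ∈ A, δ c (vee A b) * c (vee A a) := by
    intro a b
    have h1 : ∀ c : A, D a c * (c : Dual ℝ V) (vee A b) =
        (c : Dual ℝ V) (vee A b) * δ a (vee A c) +
        (δ c (vee A a) * (c : Dual ℝ V) (vee A b) -
          S (vee A c) (vee A a) * (c : Dual ℝ V) (vee A b)) := by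
      intro c
      rw [hD, hω c a]; ring
    rw [Finset.sum_congr rfl fun c _ => h1 c, Finset.sum_add_distrib, Finset.sum_sub_distrib,
      hframe' (δ a) (vee A b)]
    have h2 : ∑ c : A, δ c (vee A a) * (c : Dual ℝ V) (vee A b) =
        ∑ c ∈ A, δ c (vee A a) * c (vee A b) :=
      Finset.sum_coe_sort A (fun c => δ c (vee A a) * c (vee A b))
    have h3 : ∑ c : A, S (vee A c) (vee A a) * (c : Dual ℝ V) (vee A b) =
        S (vee A b) (vee A a) := by
      simp only [S, Finset.sum_mul]
      rw [Finset.sum_comm]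
      refine Finset.sum_congr rfl fun d _ => ?_
      have e1 := hframe' (δ d) (vee A b)
      have e2 := hframe' d (vee A b)
      calc ∑ c : A, (δ d (vee A c) * d (vee A a) + d (vee A c) * δ d (vee A a)) *
            (c : Dual ℝ V) (vee A b)
          = d (vee A a) * ∑ c : A, (c : Dual ℝ V) (vee A b) * δ d (vee A c) +
            δ d (vee A a) * ∑ c : A, (c : Dual ℝ V) (vee A b) * d (vee A c) := by
            rw [Finset.mul_sum, Finset.mul_sum, ← Finset.sum_add_distrib]
            exact Finset.sum_congr rfl fun c _ => by ring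
        _ = _ := by rw [e1, e2]; ring
    rw [h2, h3]
    simp only [S, Finset.sum_add_distrib]
    have h4 : ∑ c ∈ A, c (vee A b) * δ c (vee A a) = ∑ c ∈ A, δ c (vee A a) * c (vee A b) :=
      Finset.sum_congr rfl fun c _ => mul_comm _ _
    rw [h4]; ring
  have hDX : ∀ i k : A, ∑ j, (D i j * G (val A j) (val A k) + G (val A i) (val A j) * D j k) =
      D i k := by
    intro i k
    rw [Finset.sum_add_distrib]
    have h1 : ∑ j, D i j * G (val A j) (val A k) =
        δ i (vee A k) - ∑ c ∈ A, δ c (vee A k) * c (vee A i) := by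
      rw [← hDX1]
      exact Finset.sum_congr rfl fun j _ => by rw [hX]
    have h2 : ∑ j, G (val A i) (val A j) * D j k =
        δ k (vee A i) - ∑ c ∈ A, δ c (vee A i) * c (vee A k) := by
      rw [← hDX1]
      refine Finset.sum_congr rfl fun j _ => ?_
      rw [hX, hXs i j, hDs j k]; ring
    rw [h1, h2, hD, hω k i]
    simp only [S, Finset.sum_add_distrib]
    have h4 : ∑ c ∈ A, c (vee A k) * δ c (vee A i) = ∑ c ∈ A, δ c (vee A i) * c (vee A k) :=
      Finset.sum_congr rfl fun c _ => mul_comm _ _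
    rw [h4]; ring
  -- intersections with planes
  have hind : ∀ i j, i ≠ j → Ind (val A i) (val A j) := hgood.ind
  have hinter : ∀ i j, inter A (Submodule.span ℝ {val A i, val A j}) =
      (line (val A) i j).image (val A) := by
    intro i j
    ext β
    simp only [inter, Finset.mem_filter, Finset.mem_image, mem_line]
    constructor
    · rintro ⟨h1, h2⟩
      exact ⟨⟨β, h1⟩, h2, rfl⟩
    · rintro ⟨k, hk, rfl⟩
      exact ⟨k.2, hk⟩
  have hvinj : Function.Injective (val A) := Subtype.val_injective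
  have hcard : ∀ i j, (inter A (Submodule.span ℝ {val A i, val A j})).card =
      (line (val A) i j).card := by
    intro i j
    rw [hinter, Finset.card_image_of_injective _ hvinj]
  have hDsm : ∀ i j, i ≠ j → (∀ P ∈ LsA A, i ∈ P → j ∉ P) → D i j = 0 := by
    intro i j hij hs
    have h1 := (hgood.small_iff hij).2 hs
    have h2 : (line (val A) i j).card = 2 := by
      apply le_antisymm h1
      exact Finset.one_lt_card.2 ⟨i, left_mem, j, right_mem, hij⟩
    have h3 := hdef.small (Submodule.span ℝ {val A i, val A j}) (fr2 (hind i j hij))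
      (by rw [hcard, h2]) (val A j) (by
        rw [hinter]; exact Finset.mem_image_of_mem _ right_mem) (val A i) (by
        rw [hinter]; exact Finset.mem_image_of_mem _ left_mem)
      (fun h => hij (hvinj h.symm))
    exact h3
  have hDb : ∀ P ∈ LsA A, ∀ l ∈ P, ∀ m,
      ∑ k ∈ P, (D m k * G (val A k) (val A l) + G (val A m) (val A k) * D k l) =
        nuA A P * D m l := by
    intro P hP l hl m
    obtain ⟨i, j, hij, rfl, h3⟩ := (mem_LsA A P).1 hP
    have h1 := hdef.big (Submodule.span ℝ {val A i, val A j}) (fr2 (hind i j hij))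
      (by rw [hcard]; omega) (val A l) (by
        rw [hinter]; exact Finset.mem_image_of_mem _ hl)
    rw [hinter, Finset.sum_image (fun a _ b _ h => hvinj h)] at h1
    have hν : nu A (Submodule.span ℝ {val A i, val A j}) = nuA A (line (val A) i j) := by
      rw [nuA, span_line]
    rw [hν] at h1
    have h2 := congrArg (m : Dual ℝ V) h1
    rw [map_sum, map_smul, smul_eq_mul] at h2
    simp only [map_add, map_smul, smul_eq_mul] at h2
    -- zeroth order relation, with `δ m` applied
    have h4 : ∑ k ∈ line (val A) i j, (k : Dual ℝ V) (vee A l) • vee A (k : Dual ℝ V) =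
        nuA A (line (val A) i j) • vee A (l : Dual ℝ V) := by
      have h5 : ∀ c : A, (c : Dual ℝ V) (∑ k ∈ line (val A) i j,
          (k : Dual ℝ V) (vee A l) • vee A (k : Dual ℝ V) -
          nuA A (line (val A) i j) • vee A (l : Dual ℝ V)) = 0 := by
        intro c
        rw [map_sub, map_sum, map_smul, smul_eq_mul, sub_eq_zero]
        have h6 := hgood.big _ hP l hl c
        simp only [hX] at h6
        rw [← h6]
        exact Finset.sum_congr rfl fun k _ => by rw [map_smul, smul_eq_mul]; ring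
      have h6 : ∀ γ : Dual ℝ V, γ (∑ k ∈ line (val A) i j,
          (k : Dual ℝ V) (vee A l) • vee A (k : Dual ℝ V) -
          nuA A (line (val A) i j) • vee A (l : Dual ℝ V)) = 0 := by
        intro γ
        rw [← hframe' γ]
        exact Finset.sum_eq_zero fun c _ => by rw [h5 c, zero_mul]
      exact sub_eq_zero.1 ((forall_dual_apply_eq_zero_iff ℝ _).1 h6)
    have h5 := congrArg (δ m) h4
    rw [map_sum, map_smul, smul_eq_mul] at h5
    simp only [map_smul, smul_eq_mul] at h5
    have h6 : ∑ k ∈ line (val A) i j,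
        (D m k * G (val A k) (val A l) + G (val A m) (val A k) * D k l) =
        ∑ k ∈ line (val A) i j, (k : Dual ℝ V) (vee A l) * δ m (vee A k) +
        ∑ k ∈ line (val A) i j, ((δ k (vee A l) + (k : Dual ℝ V) (ω l)) *
          (m : Dual ℝ V) (vee A k) + (k : Dual ℝ V) (vee A l) * (m : Dual ℝ V) (ω k)) := by
      rw [← Finset.sum_add_distrib]
      refine Finset.sum_congr rfl fun k _ => ?_
      rw [hX, hX, hD, hD]; ring
    rw [h6, h5, hD]
    have h7 : ∑ k ∈ line (val A) i j, ((δ k (vee A l) + (k : Dual ℝ V) (ω l)) *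
          (m : Dual ℝ V) (vee A k) + (k : Dual ℝ V) (vee A l) * (m : Dual ℝ V) (ω k)) =
        nuA A (line (val A) i j) * (m : Dual ℝ V) (ω l) := h2
    rw [h7]; ring
  have hDd := hgood.diag_zero D hDX hDb
  have hD0 := hgood.rigid D hDs hDX hDd hDsm hDb
  -- the linear map
  refine ⟨∑ b : A, LinearMap.smulRight ((Dual.eval ℝ V) (vee A b)) (δ b), fun α hα => ?_⟩
  have hL : (∑ b : A, LinearMap.smulRight ((Dual.eval ℝ V) (vee A b)) (δ b)) α =
      ∑ b : A, α (vee A b) • δ b := by
    simp only [LinearMap.sum_apply, LinearMap.smulRight_apply, Dual.eval_apply]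
  rw [hL]
  have hDz : ∀ a b : A, δ a (vee A b) = - (a : Dual ℝ V) (ω b) := by
    intro a b
    have := congrFun (congrFun hD0 a) b
    rw [hD] at this
    have h0 : (0 : Matrix A A ℝ) a b = 0 := rfl
    rw [h0] at this
    linarith
  -- equality on the dual vectors
  have hkey : ∀ c : A, δ α (vee A c) = (∑ b : A, α (vee A b) • δ b) (vee A c) := by
    intro c
    rw [LinearMap.sum_apply]
    simp only [LinearMap.smul_apply, smul_eq_mul]
    have h1 : ∀ b : A, α (vee A b) * δ b (vee A c) = - ((b : Dual ℝ V) (ω c) * α (vee A b)) := by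
      intro b
      rw [hDz b c]; ring
    rw [Finset.sum_congr rfl fun b _ => h1 b, Finset.sum_neg_distrib, hframe' α (ω c)]
    exact hDz ⟨α, hα⟩ c
  ext v
  have h1 := hframe' (δ α) v
  have h2 := hframe' (∑ b : A, α (vee A b) • δ b) v
  rw [← h1, ← h2]
  exact Finset.sum_congr rfl fun c _ => by rw [hkey c]

end

end Pool.Agent.TH792.VeeInf
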