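import Mathlib
import Pool.Agent.TH792.VeeProj

/-! Local rigidity from the finiteness of the set of Gram matrices. -/

namespace Pool.Agent.TH792.VeeLocal

open Finset Module Pool.Agent.TH792.VeeB Pool.Agent.TH792.VeeCore Pool.Agent.TH792.Vee
open Pool.Agent.TH792.VeeLink Pool.Agent.TH792.VeeMain Matrix

noncomputable section

open scoped Classical

/-- orthogonal projection onto the column space, by Cramer's rule -/
def pr {α κ : Type*} [Fintype α] [Fintype κ] (F : Matrix α κ ℝ) : Matrix α α ℝ :=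
  ((Fᵀ * F).det)⁻¹ • (F * (Fᵀ * F).adjugate * Fᵀ)

lemma continuousAt_pr {α κ : Type*} [Fintype α] [Fintype κ] (F : Matrix α κ ℝ)
    (hF : (Fᵀ * F).det ≠ 0) : ContinuousAt pr F := by
  have h1 : Continuous fun F : Matrix α κ ℝ => (Fᵀ * F) :=
    (continuous_id.matrix_transpose).matrix_mul continuous_id
  have h2 : Continuous fun F : Matrix α κ ℝ => (Fᵀ * F).det := h1.matrix_det
  have h3 : Continuous fun F : Matrix α κ ℝ => F * (Fᵀ * F).adjugate * Fᵀ :=
    (continuous_id.matrix_mul h1.matrix_adjugate).matrix_mul continuous_id.matrix_transpose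
  exact (h2.continuousAt.inv₀ hF).smul h3.continuousAt

variable {V : Type*} [AddCommGroup V] [Module ℝ V]

/-- coordinates -/
def crd (A : Finset (Dual ℝ V)) {κ : Type*} (b : Basis κ ℝ V) (φ : A → Dual ℝ V) :
    Matrix A κ ℝ := fun a i => φ a (b i)

lemma sum_img (A : Finset (Dual ℝ V)) {φ : A → Dual ℝ V} (hφ : Function.Injective φ)
    (f : Dual ℝ V → ℝ) : ∑ β ∈ img A φ, f β = ∑ a, f (φ a) := by
  rw [img, Finset.sum_image (fun a _ b _ h => hφ h)]

lemma apply_eq {κ : Type*} [Fintype κ] (b : Basis κ ℝ V) (γ : Dual ℝ V) (v : V) :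
    γ v = ∑ i, b.repr v i * γ (b i) := by
  conv_lhs => rw [← b.sum_repr v]
  rw [map_sum]
  exact Finset.sum_congr rfl fun i _ => by rw [map_smul, smul_eq_mul]

theorem gr_eq_pr [FiniteDimensional ℝ V] (A : Finset (Dual ℝ V)) {κ : Type*} [Fintype κ]
    (b : Basis κ ℝ V) (φ : A → Dual ℝ V) (hφ : IsMatching A φ) :
    ((crd A b φ)ᵀ * crd A b φ).det ≠ 0 ∧ ∀ p q, gr A φ (p, q) = pr (crd A b φ) p q := by
  obtain ⟨T, hT, hform⟩ := exists_veeE (img A φ) hφ.isVeeSystem.span_eq_top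
  set F := crd A b φ with hF
  have hFap : ∀ (a : A) (v : V), φ a v = ∑ i, b.repr v i * F a i := fun a v => apply_eq b (φ a) v
  -- nondegeneracy
  have hdet : (Fᵀ * F).det ≠ 0 := by
    intro h0
    obtain ⟨c, hc0, hc⟩ := Matrix.exists_mulVec_eq_zero_iff.2 h0
    apply hc0
    have h1 : F *ᵥ c = 0 := by
      rw [← Matrix.mulVec_mulVec] at hc
      have h2 : (F *ᵥ c) ⬝ᵥ (F *ᵥ c) = 0 := by
        have h3 : c ⬝ᵥ (Fᵀ *ᵥ (F *ᵥ c)) = 0 := by rw [hc, dotProduct_zero]
        rwa [Matrix.dotProduct_mulVec, Matrix.vecMul_transpose] at h3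
      exact dotProduct_self_eq_zero.1 h2
    set v : V := ∑ i, c i • b i with hv
    have hrep : ∀ i, b.repr v i = c i := by
      intro i
      rw [hv, Basis.repr_sum_self]
    have h2 : ∀ a, φ a v = 0 := by
      intro a
      rw [hFap]
      have h5 : ∑ i, F a i * c i = 0 := congrFun h1 a
      rw [← h5]
      refine Finset.sum_congr rfl fun i _ => ?_
      rw [hrep]; ring
    have h3 : ∀ γ : Dual ℝ V, γ v = 0 := by
      intro γ
      rw [← hform γ v, form, sum_img A hφ.injective]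
      exact Finset.sum_eq_zero fun a _ => by rw [h2 a, mul_zero]
    have h4 : v = 0 := (forall_dual_apply_eq_zero_iff ℝ v).1 h3
    funext i
    rw [← hrep i, h4]; simp
  refine ⟨hdet, ?_⟩
  intro p q
  -- the coordinates of the dual vector
  set v := T (φ q) with hv
  set y : κ → ℝ := fun i => b.repr v i with hy
  have hS : y ᵥ* (Fᵀ * F) = fun j => F q j := by
    funext j
    have h1 : form (img A φ) v (b j) = F q j := hform (φ q) (b j)
    rw [← h1, form, sum_img A hφ.injective, ← Matrix.vecMul_vecMul, Matrix.vecMul, dotProduct]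
    refine Finset.sum_congr rfl fun a _ => ?_
    rw [hFap a v, Matrix.vecMul, dotProduct]
    rfl
  have hy2 : y = ((Fᵀ * F).det)⁻¹ • ((fun j => F q j) ᵥ* (Fᵀ * F).adjugate) := by
    rw [← hS, Matrix.vecMul_vecMul, Matrix.mul_adjugate, Matrix.vecMul_smul, Matrix.vecMul_one,
      smul_smul, inv_mul_cancel₀ hdet, one_smul]
  have h1 : gr A φ (p, q) = ∑ i, y i * F p i := by
    rw [gr]
    simp only
    rw [hT, hFap]
  have hsymm : (Fᵀ * F).adjugateᵀ = (Fᵀ * F).adjugate := by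
    rw [Matrix.adjugate_transpose, Matrix.transpose_mul, Matrix.transpose_transpose]
  rw [h1, hy2, pr, Matrix.smul_apply, smul_eq_mul, Matrix.mul_apply]
  simp only [Pi.smul_apply, smul_eq_mul, mul_assoc]
  rw [← Finset.mul_sum]
  congr 1
  simp only [Matrix.mul_apply, Matrix.transpose_apply, Finset.sum_mul, Matrix.vecMul,
    dotProduct]
  rw [Finset.sum_comm]
  refine Finset.sum_congr rfl fun i _ => Finset.sum_congr rfl fun j _ => ?_
  have h2 : (Fᵀ * F).adjugate i j = (Fᵀ * F).adjugate j i := by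
    conv_lhs => rw [← hsymm]
    rfl
  rw [h2]; ring

theorem rigidity [FiniteDimensional ℝ V] (hn : 3 ≤ finrank ℝ V) (A : Finset (Dual ℝ V))
    {κ : Type*} [Fintype κ] (b : Basis κ ℝ V) (ψ : A → Dual ℝ V) (hψ : IsMatching A ψ) :
    ∃ ε > 0, ∀ φ : A → Dual ℝ V, IsMatching A φ →
      (∀ a i, |φ a (b i) - ψ a (b i)| < ε) →
      ∃ g : Dual ℝ V ≃ₗ[ℝ] Dual ℝ V, ∀ a, φ a = g (ψ a) := by
  have hfin := finite_gr hn A
  obtain ⟨hdet, hgr⟩ := gr_eq_pr A b ψ hψ
  have hcont : ContinuousAt (fun F : A → κ → ℝ => pr (Matrix.of F)) (fun a i => ψ a (b i)) :=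
    continuousAt_pr (crd A b ψ) hdet
  -- the bad values
  let cur : (A × A → ℝ) → Matrix A A ℝ := fun z p q => z (p, q)
  have hcur : Function.Injective cur := by
    intro z z' h
    funext ⟨p, q⟩
    exact congrFun (congrFun h p) q
  have hbad : (cur '' (gr A '' {φ | IsMatching A φ}) \ {cur (gr A ψ)}).Finite :=
    (hfin.image cur).subset Set.sdiff_subset
  have hopen : IsOpen (cur '' (gr A '' {φ | IsMatching A φ}) \ {cur (gr A ψ)})ᶜ :=
    hbad.isClosed.isOpen_compl
  have hval : pr (crd A b ψ) = cur (gr A ψ) := by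
    ext p q; exact (hgr p q).symm
  have hmem : pr (crd A b ψ) ∈ (cur '' (gr A '' {φ | IsMatching A φ}) \ {cur (gr A ψ)})ᶜ := by
    rw [hval]; simp
  have hev := hcont.preimage_mem_nhds (hopen.mem_nhds hmem)
  obtain ⟨ε, hε, hball⟩ := Metric.mem_nhds_iff.1 hev
  refine ⟨ε, hε, fun φ hφ hclose => ?_⟩
  have h1 : (fun a i => φ a (b i) : A → κ → ℝ) ∈
      Metric.ball (fun a i => ψ a (b i) : A → κ → ℝ) ε := by
    rw [Metric.mem_ball, dist_pi_lt_iff hε]
    intro a
    rw [dist_pi_lt_iff hε]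
    intro i
    rw [Real.dist_eq]
    exact hclose a i
  have h2 : pr (crd A b φ) ∈ (cur '' (gr A '' {φ | IsMatching A φ}) \ {cur (gr A ψ)})ᶜ :=
    hball h1
  rw [Set.mem_compl_iff, Set.mem_sdiff, Set.mem_singleton_iff, not_and, not_not] at h2
  obtain ⟨_, hgr'⟩ := gr_eq_pr A b φ hφ
  have hval' : pr (crd A b φ) = cur (gr A φ) := by
    ext p q; exact (hgr' p q).symm
  rw [hval'] at h2
  have h3 := h2 ⟨gr A φ, ⟨φ, hφ, rfl⟩, rfl⟩
  exact gl_of_gr hn A hφ hψ (hcur h3)

end

end Pool.Agent.TH792.VeeLocal
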