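import Pool.Agent.TH168.Mil.Defs

set_option autoImplicit false

namespace Pool.Agent.TH792.J1791

open Set Filter Topology MeasureTheory
open scoped ContDiff
open Pool.Agent.TH168.Mil

/-! ### Elementary facts -/

lemma sinh_pos {y : ℝ} (hy : 0 < y) : 0 < Real.sinh y := Real.sinh_pos_iff.mpr hy

lemma hasDerivAt_phi' {y : ℝ} (hy : 0 < y) : HasDerivAt phi (-2 * coth y) y := by
  have hs := sinh_pos hy
  have h1 : HasDerivAt (fun y => 1000 * Real.sinh y) (1000 * Real.cosh y) y :=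
    (Real.hasDerivAt_sinh y).const_mul 1000
  have h2 := (h1.log (by positivity)).const_mul (-2)
  refine h2.congr_deriv ?_
  unfold coth
  field_simp

lemma hasDerivAt_coth' {y : ℝ} (hy : 0 < y) : HasDerivAt coth (1 - coth y ^ 2) y := by
  have hs := sinh_pos hy
  have h1 := (Real.hasDerivAt_cosh y).div (Real.hasDerivAt_sinh y) hs.ne'
  refine h1.congr_deriv ?_
  unfold coth
  field_simp

lemma one_le_coth {y : ℝ} (hy : 0 < y) : 1 ≤ coth y := by
  unfold coth
  rw [one_le_div (sinh_pos hy)]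
  exact (Real.sinh_lt_cosh y).le

lemma exp_half_phi {y : ℝ} (hy : 0 < y) : Real.exp (phi y / 2) = (1000 * Real.sinh y)⁻¹ := by
  have hs := sinh_pos hy
  unfold phi
  rw [show -2 * Real.log (1000 * Real.sinh y) / 2 = - Real.log (1000 * Real.sinh y) by ring,
    Real.exp_neg, Real.exp_log (by positivity)]

theorem chi_mem (θ y : ℝ) : 0 ≤ chi θ y ∧ chi θ y ≤ 1 :=
  ⟨Real.smoothTransition.nonneg _, Real.smoothTransition.le_one _⟩

theorem chi_one {θ y : ℝ} (h : |4 * (θ - phi y / 2) * coth y| ≤ 1 / 2) : chi θ y = 1 := by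
  unfold chi
  refine Real.smoothTransition.one_of_one_le ?_
  have h1 : (4 * (θ - phi y / 2) * coth y) ^ 2 ≤ (1 / 2) ^ 2 := by
    rw [← sq_abs]
    exact pow_le_pow_left₀ (abs_nonneg _) h 2
  linarith

theorem chi_zero {θ y : ℝ} (h : 1 ≤ |4 * (θ - phi y / 2) * coth y|) : chi θ y = 0 := by
  unfold chi
  refine Real.smoothTransition.zero_of_nonpos ?_
  have h1 : 1 ^ 2 ≤ (4 * (θ - phi y / 2) * coth y) ^ 2 := by
    rw [← sq_abs (4 * (θ - phi y / 2) * coth y)]
    exact pow_le_pow_left₀ zero_le_one h 2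
  linarith

/-! ### The jet of the cut-off -/

/-- the profile -/
noncomputable def gg (x : ℝ) : ℝ := Real.smoothTransition (4 / 3 * (1 - x ^ 2))

lemma contDiff_gg : ContDiff ℝ ∞ gg :=
  Real.smoothTransition.contDiff.comp (contDiff_const.mul (contDiff_const.sub (contDiff_id.pow 2)))

lemma hasDerivAt_gg (x : ℝ) : HasDerivAt gg (deriv gg x) x :=
  (contDiff_gg.differentiable (by simp)).differentiableAt.hasDerivAt

lemma contDiff_gg' : ContDiff ℝ ∞ (deriv gg) := (contDiff_infty_iff_deriv.mp contDiff_gg).2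

lemma hasDerivAt_gg' (x : ℝ) : HasDerivAt (deriv gg) (deriv (deriv gg) x) x :=
  (contDiff_gg'.differentiable (by simp)).differentiableAt.hasDerivAt

lemma contDiff_gg'' : ContDiff ℝ ∞ (deriv (deriv gg)) := (contDiff_infty_iff_deriv.mp contDiff_gg').2

lemma bound_gg : ∃ C : ℝ, 0 < C ∧ ∀ x : ℝ, |x| ≤ 1 →
    |deriv gg x| ≤ C ∧ |deriv (deriv gg) x| ≤ C := by
  obtain ⟨C1, h1⟩ := isCompact_Icc.exists_bound_of_continuousOn (s := Icc (-1:ℝ) 1)
    contDiff_gg'.continuous.continuousOn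
  obtain ⟨C2, h2⟩ := isCompact_Icc.exists_bound_of_continuousOn (s := Icc (-1:ℝ) 1)
    contDiff_gg''.continuous.continuousOn
  refine ⟨max (max C1 C2) 1, lt_of_lt_of_le one_pos (le_max_right _ _), fun x hx => ?_⟩
  have hx' : x ∈ Icc (-1:ℝ) 1 := abs_le.mp hx
  exact ⟨(h1 x hx').trans ((le_max_left _ _).trans (le_max_left _ _)),
    (h2 x hx').trans ((le_max_right _ _).trans (le_max_left _ _))⟩

/-- the argument -/
noncomputable def ww (θ y : ℝ) : ℝ := 4 * (θ - phi y / 2) * coth y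

noncomputable def wy (θ y : ℝ) : ℝ :=
  4 * coth y ^ 2 + 4 * (θ - phi y / 2) * (1 - coth y ^ 2)

lemma hasDerivAt_ww_t (θ y : ℝ) : HasDerivAt (fun a => ww a y) (4 * coth y) θ := by
  unfold ww
  have h := (((hasDerivAt_id θ).sub_const (phi y / 2)).const_mul 4).mul_const (coth y)
  refine h.congr_deriv ?_
  ring

lemma hasDerivAt_ww_y (θ : ℝ) {y : ℝ} (hy : 0 < y) : HasDerivAt (fun b => ww θ b) (wy θ y) y := by
  unfold ww wy
  have h := ((((hasDerivAt_phi' hy).div_const 2).const_sub θ).const_mul 4).mul (hasDerivAt_coth' hy)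
  refine h.congr_deriv ?_
  ring

lemma hasDerivAt_wy_t (θ y : ℝ) : HasDerivAt (fun a => wy a y) (4 * (1 - coth y ^ 2)) θ := by
  unfold wy
  have h := ((((hasDerivAt_id θ).sub_const (phi y / 2)).const_mul 4).mul_const
    (1 - coth y ^ 2)).const_add (4 * coth y ^ 2)
  refine h.congr_deriv ?_
  ring

lemma hasDerivAt_wy_y (θ : ℝ) {y : ℝ} (hy : 0 < y) : HasDerivAt (fun b => wy θ b)
    ((12 - 8 * (θ - phi y / 2)) * (coth y * (1 - coth y ^ 2))) y := by
  unfold wy
  have hc := hasDerivAt_coth' hy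
  have h1 := (hc.pow 2).const_mul 4
  have h2 := ((((hasDerivAt_phi' hy).div_const 2).const_sub θ).const_mul 4).mul
    ((hc.pow 2).const_sub 1)
  refine (h1.add h2).congr_deriv ?_
  simp only [Nat.cast_ofNat, Pi.pow_apply]
  ring

theorem chi_jet : ∃ K : ℝ, 0 < K ∧ ∀ θ y : ℝ, 0 < y → y ≤ 1 →
    |4 * (θ - phi y / 2) * coth y| ≤ 1 →
    ∃ t s tt ts ss : ℝ, HasJet chi θ y (chi θ y) t s tt ts ss ∧
      |t| ≤ K * coth y ∧ |s| ≤ K * coth y ^ 2 ∧ |tt| ≤ K * coth y ^ 2 ∧
      |ts| ≤ K * coth y ^ 3 ∧ |ss| ≤ K * coth y ^ 4 := by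
  obtain ⟨C, hC, hb⟩ := bound_gg
  refine ⟨40 * C, by positivity, fun θ y hy _ hw => ?_⟩
  obtain ⟨b1, b2⟩ := hb _ hw
  have hc := one_le_coth hy
  set c := coth y with hcdef
  set μ := θ - phi y / 2 with hμ
  have hμ1 : |μ| * c ≤ 1 / 4 := by
    have : |4 * μ * c| = 4 * (|μ| * c) := by
      rw [abs_mul, abs_mul, abs_of_pos (by norm_num : (0:ℝ) < 4), abs_of_pos (by linarith : 0 < c)]
      ring
    rw [this] at hw
    linarith
  have hμ2 : |μ| ≤ 1 / 4 := by
    have := abs_nonneg μ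
    nlinarith
  have hc2 : |1 - c ^ 2| ≤ c ^ 2 := by
    rw [abs_le]
    constructor <;> nlinarith
  have hwy : |wy θ y| ≤ 5 * c ^ 2 := by
    unfold wy
    rw [← hcdef, ← hμ]
    have h1 : |4 * μ * (1 - c ^ 2)| ≤ c ^ 2 := by
      rw [abs_mul, abs_mul, abs_of_pos (by norm_num : (0:ℝ) < 4)]
      have : 4 * |μ| ≤ 1 := by linarith
      have h0 := abs_nonneg (1 - c ^ 2)
      nlinarith [abs_nonneg μ]
    have h2 := abs_add_le (4 * c ^ 2) (4 * μ * (1 - c ^ 2))
    have h3 : |4 * c ^ 2| = 4 * c ^ 2 := abs_of_nonneg (by positivity)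
    linarith
  have hwyy : |(12 - 8 * μ) * (c * (1 - c ^ 2))| ≤ 14 * c ^ 3 := by
    rw [abs_mul, abs_mul, abs_of_pos (by linarith : 0 < c)]
    have h1 : |12 - 8 * μ| ≤ 14 := by
      obtain ⟨h1, h2⟩ := abs_le.mp hμ2
      rw [abs_le]
      constructor <;> linarith
    have h2 : c * |1 - c ^ 2| ≤ c * c ^ 2 := mul_le_mul_of_nonneg_left hc2 (by linarith)
    calc |12 - 8 * μ| * (c * |1 - c ^ 2|) ≤ 14 * (c * c ^ 2) :=
          mul_le_mul h1 h2 (by positivity) (by norm_num)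
      _ = 14 * c ^ 3 := by ring
  have hww : ww θ y = 4 * μ * c := rfl
  rw [← hww] at b1 b2
  have h4c : |4 * c| = 4 * c := abs_of_pos (by linarith)
  have h4c0 : 0 < 4 * c := by linarith
  refine ⟨deriv gg (ww θ y) * (4 * c), deriv gg (ww θ y) * wy θ y,
    deriv (deriv gg) (ww θ y) * (4 * c) * (4 * c),
    deriv (deriv gg) (ww θ y) * (4 * c) * wy θ y + deriv gg (ww θ y) * (4 * (1 - c ^ 2)),
    deriv (deriv gg) (ww θ y) * wy θ y * wy θ y +
      deriv gg (ww θ y) * ((12 - 8 * μ) * (c * (1 - c ^ 2))), ?_, ?_, ?_, ?_, ?_, ?_⟩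
  · refine ⟨fun a b => deriv gg (ww a b) * (4 * coth b), fun a b => deriv gg (ww a b) * wy a b,
      ?_, rfl, rfl, rfl, ?_, ?_, ?_⟩
    · have hopen : IsOpen {p : ℝ × ℝ | 0 < p.2} := isOpen_lt continuous_const continuous_snd
      filter_upwards [hopen.mem_nhds (show (θ, y) ∈ {p : ℝ × ℝ | 0 < p.2} from hy)] with p hp
      exact ⟨(hasDerivAt_gg _).comp p.1 (hasDerivAt_ww_t p.1 p.2),
        (hasDerivAt_gg _).comp p.2 (hasDerivAt_ww_y p.1 hp)⟩
    · exact ((hasDerivAt_gg' _).comp θ (hasDerivAt_ww_t θ y)).mul_const (4 * coth y)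
    · have h1 := (hasDerivAt_gg' (ww θ y)).comp θ (hasDerivAt_ww_t θ y)
      exact h1.mul (hasDerivAt_wy_t θ y)
    · have h1 := (hasDerivAt_gg' (ww θ y)).comp y (hasDerivAt_ww_y θ hy)
      exact h1.mul (hasDerivAt_wy_y θ hy)
  · rw [abs_mul, h4c]
    calc |deriv gg (ww θ y)| * (4 * c) ≤ C * (4 * c) := mul_le_mul_of_nonneg_right b1 h4c0.le
      _ ≤ _ := by nlinarith [mul_pos hC h4c0]
  · rw [abs_mul]
    calc |deriv gg (ww θ y)| * |wy θ y| ≤ C * (5 * c ^ 2) :=
          mul_le_mul b1 hwy (abs_nonneg _) hC.le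
      _ ≤ _ := by nlinarith [mul_pos hC (by positivity : 0 < c ^ 2)]
  · rw [abs_mul, abs_mul, h4c]
    calc |deriv (deriv gg) (ww θ y)| * (4 * c) * (4 * c) ≤ C * (4 * c) * (4 * c) := by
          gcongr
      _ ≤ _ := by nlinarith [mul_pos hC (by positivity : 0 < c ^ 2)]
  · refine (abs_add_le _ _).trans ?_
    rw [abs_mul, abs_mul (deriv (deriv gg) (ww θ y)), h4c, abs_mul (deriv gg (ww θ y)),
      abs_mul 4 (1 - c ^ 2), abs_of_pos (by norm_num : (0:ℝ) < 4)]
    have hc3 : c ^ 2 ≤ c ^ 3 := by nlinarith [sq_nonneg c]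
    calc |deriv (deriv gg) (ww θ y)| * (4 * c) * |wy θ y| +
          |deriv gg (ww θ y)| * (4 * |1 - c ^ 2|) ≤
          C * (4 * c) * (5 * c ^ 2) + C * (4 * c ^ 2) := by
          gcongr
      _ ≤ _ := by nlinarith [mul_le_mul_of_nonneg_left hc3 hC.le, mul_pos hC (by positivity : 0 < c ^ 3)]
  · refine (abs_add_le _ _).trans ?_
    rw [abs_mul, abs_mul, abs_mul (deriv gg (ww θ y))]
    have hc3 : c ^ 3 ≤ c ^ 4 := by
      have : 0 < c ^ 3 := by positivity
      nlinarith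
    calc |deriv (deriv gg) (ww θ y)| * |wy θ y| * |wy θ y| +
          |deriv gg (ww θ y)| * |(12 - 8 * μ) * (c * (1 - c ^ 2))| ≤
          C * (5 * c ^ 2) * (5 * c ^ 2) + C * (14 * c ^ 3) := by
          gcongr
      _ ≤ _ := by nlinarith [mul_le_mul_of_nonneg_left hc3 hC.le, mul_pos hC (by positivity : 0 < c ^ 4)]

/-! ### Geometry of the pattern zone -/

lemma rho_zero {r : ℝ} (h : r ≤ 5 / 4) : rho r = 0 :=
  Real.smoothTransition.zero_of_nonpos (by linarith)

lemma rho_one {r : ℝ} (h : 7 / 4 ≤ r) : rho r = 1 :=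
  Real.smoothTransition.one_of_one_le (by linarith)

lemma FF_zero {L θ y : ℝ} (h1 : rho (Real.exp (θ + y)) = 0)
    (h2 : rho (Real.exp (θ - y) + 1 / 500) = 0) : FF L θ y = 0 := by
  unfold FF pa pb Pc Ps
  rw [h1, h2]
  simp

lemma mu_le {θ y : ℝ} (hy : 0 < y) (h : |4 * (θ - phi y / 2) * coth y| ≤ 1) :
    |θ - phi y / 2| * coth y ≤ 1 / 4 ∧ |θ - phi y / 2| ≤ Real.sinh y / 4 ∧
      |θ - phi y / 2| ≤ 1 / 4 := by
  have hs := sinh_pos hy
  have hc := one_le_coth hy
  rw [abs_mul, abs_mul, abs_of_pos (by norm_num : (0:ℝ) < 4),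
    abs_of_pos (by linarith : 0 < coth y)] at h
  have h0 := abs_nonneg (θ - phi y / 2)
  have h1 : |θ - phi y / 2| * coth y ≤ 1 / 4 := by linarith
  refine ⟨h1, ?_, ?_⟩
  · have h2 : |θ - phi y / 2| * (Real.cosh y / Real.sinh y) ≤ 1 / 4 := h1
    rw [← mul_div_assoc, div_le_iff₀ hs] at h2
    have h3 := Real.one_le_cosh y
    nlinarith
  · nlinarith

lemma exp_le_of_abs {x : ℝ} (h : |x| ≤ 1) : Real.exp x ≤ 1 + x + x ^ 2 := by
  have := abs_le.mp (Real.abs_exp_sub_one_sub_id_le h)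
  linarith [this.2]

lemma sinh_le_small {y : ℝ} (hy : 0 < y) (h : y ≤ 1 / 100) : Real.sinh y ≤ 1 / 90 := by
  have h1 := exp_le_of_abs (x := y) (by rw [abs_of_pos hy]; linarith)
  have h2 := Real.add_one_le_exp (-y)
  rw [Real.sinh_eq]
  nlinarith

/-- the pattern is inactive for `phi y ≤ 2/5` -/
theorem pattern_inactive {L θ y : ℝ} (hy : 0 < y) (h : phi y ≤ 2 / 5) :
    chi θ y * FF L θ y = 0 := by
  by_cases hw : 1 ≤ |4 * (θ - phi y / 2) * coth y|
  · rw [chi_zero hw, zero_mul]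
  push Not at hw
  obtain ⟨-, m1, m2⟩ := mu_le hy hw.le
  have key : Real.exp (θ + y) ≤ 1245 / 1000 := by
    rcases le_total y (1 / 100) with hy1 | hy1
    · have h1 := sinh_le_small hy hy1
      have h2 : θ + y ≤ 2129 / 10000 := by
        have := le_abs_self (θ - phi y / 2)
        linarith
      have h3 : Real.exp (θ + y) ≤ Real.exp (2129 / 10000) := Real.exp_le_exp.mpr h2
      have h4 : Real.exp (2129 / 10000) = Real.exp (2129 / 40000) ^ 4 := by
        rw [← Real.exp_nat_mul]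
        norm_num
      have h5 := exp_le_of_abs (x := 2129 / 40000) (by rw [abs_of_pos (by norm_num)]; norm_num)
      rw [h4] at h3
      refine h3.trans ((pow_le_pow_left₀ (Real.exp_pos _).le h5 4).trans ?_)
      norm_num
    · have hs := sinh_pos hy
      have e : Real.exp (θ + y) = Real.exp (θ - phi y / 2) * (Real.exp y * (1000 * Real.sinh y)⁻¹) := by
        rw [← exp_half_phi hy, ← Real.exp_add, ← Real.exp_add]
        ring_nf
      have h1 : Real.exp y ≤ 200 * Real.sinh y := by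
        have a1 := Real.add_one_le_exp y
        have a2 : Real.exp y * Real.exp (-y) = 1 := by rw [← Real.exp_add]; simp
        have a3 := Real.exp_pos (-y)
        rw [Real.sinh_eq]
        nlinarith
      have h2 : Real.exp y * (1000 * Real.sinh y)⁻¹ ≤ 1 / 5 := by
        rw [← div_eq_mul_inv, div_le_iff₀ (by positivity)]
        linarith
      have h3 : Real.exp (θ - phi y / 2) ≤ 2 := by
        have h4 := exp_le_of_abs (x := θ - phi y / 2) (by linarith)
        obtain ⟨h5, h6⟩ := abs_le.mp m2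
        nlinarith
      rw [e]
      have h4 := Real.exp_pos (θ - phi y / 2)
      have h5 : 0 < Real.exp y * (1000 * Real.sinh y)⁻¹ := by positivity
      nlinarith
  have key2 : Real.exp (θ - y) ≤ 1245 / 1000 :=
    (Real.exp_le_exp.mpr (by linarith)).trans key
  rw [FF_zero (rho_zero (by linarith)) (rho_zero (by linarith)), mul_zero]

/-- geometry of the pattern zone -/
theorem zone_facts {θ y : ℝ} (hy : 0 < y) (h : 2 / 5 ≤ phi y)
    (hmu : |4 * (θ - phi y / 2) * coth y| ≤ 1) :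
    y ≤ 1 / 1000 ∧ 1000 ≤ coth y ∧ coth y ≤ 1300 * Real.exp (θ + y) ∧
    |θ - phi y / 2| ≤ 1 / 4000 ∧ 0 ≤ θ - y ∧ 0 ≤ θ + y ∧
    Real.exp (θ + y) ≤ 2 * Real.exp (θ - y) ∧
    Real.exp (θ + y) - (Real.exp (θ - y) + 1 / 500) =
      (Real.exp (θ - phi y / 2) - 1) / 500 ∧
    (rho (Real.exp (θ + y)) < 1 → phi y ≤ 6 / 5) := by
  have hs := sinh_pos hy
  obtain ⟨m0, -, -⟩ := mu_le hy hmu
  have hE := exp_half_phi hy
  have hsinh : Real.sinh y ≤ 1 / 1000 := by
    have h1 : 1 ≤ Real.exp (phi y / 2) := Real.one_le_exp (by linarith)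
    rw [hE] at h1
    have h2 : 1000 * Real.sinh y ≤ 1 := by
      by_contra hcon
      push Not at hcon
      have := inv_lt_one_of_one_lt₀ hcon
      linarith
    linarith
  have hy1 : y ≤ 1 / 1000 := (Real.self_le_sinh_iff.mpr hy.le).trans hsinh
  have hc : 1000 ≤ coth y := by
    unfold coth
    rw [le_div_iff₀ hs]
    have := Real.one_le_cosh y
    linarith
  have hmu' : |θ - phi y / 2| ≤ 1 / 4000 := by
    have := abs_nonneg (θ - phi y / 2)
    nlinarith
  obtain ⟨l1, l2⟩ := abs_le.mp hmu'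
  have e0 : Real.exp (θ - phi y / 2) * (1000 * Real.sinh y)⁻¹ = Real.exp θ := by
    rw [← hE, ← Real.exp_add]
    ring_nf
  refine ⟨hy1, hc, ?_, hmu', by linarith, by linarith, ?_, ?_, ?_⟩
  · rw [Real.exp_add, ← e0]
    have h1 : Real.cosh y ≤ Real.exp y := by
      rw [Real.cosh_eq]
      have := Real.exp_le_exp.mpr (by linarith : -y ≤ y)
      linarith
    have h2 := Real.add_one_le_exp (θ - phi y / 2)
    unfold coth
    rw [div_le_iff₀ hs]
    have h3 : 1300 * (Real.exp (θ - phi y / 2) * (1000 * Real.sinh y)⁻¹ * Real.exp y) *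
        Real.sinh y = 13 / 10 * Real.exp (θ - phi y / 2) * Real.exp y := by
      field_simp
      norm_num
    rw [h3]
    have h4 := Real.exp_pos y
    nlinarith
  · have e1 : Real.exp (θ + y) = Real.exp (θ - y) * Real.exp (2 * y) := by
      rw [← Real.exp_add]
      ring_nf
    rw [e1]
    have h1 := exp_le_of_abs (x := 2 * y) (by rw [abs_of_pos (by linarith)]; linarith)
    have h2 : Real.exp (2 * y) ≤ 2 := by nlinarith
    have h3 := Real.exp_pos (θ - y)
    nlinarith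
  · rw [sub_eq_add_neg θ y, Real.exp_add, Real.exp_add]
    have h1 : Real.exp y - Real.exp (-y) = 2 * Real.sinh y := by
      rw [Real.sinh_eq]
      ring
    have h2 : Real.exp θ * (2 * Real.sinh y) = Real.exp (θ - phi y / 2) / 500 := by
      rw [← e0]
      field_simp
      norm_num
    linear_combination (Real.exp θ) * h1 + h2
  · intro hr
    by_contra hcon
    push Not at hcon
    have h1 : Real.exp (θ + y) < 7 / 4 := by
      by_contra h2
      push Not at h2
      rw [rho_one h2] at hr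
      exact lt_irrefl _ hr
    have h2 : 2399 / 4000 ≤ θ + y := by linarith
    have h3 := Real.exp_le_exp.mpr h2
    have h4 : Real.exp (2399 / 4000) = Real.exp (2399 / 16000) ^ 4 := by
      rw [← Real.exp_nat_mul]
      norm_num
    have h5 := Real.quadratic_le_exp_of_nonneg (x := 2399 / 16000) (by norm_num)
    have h6 := pow_le_pow_left₀ (by norm_num) h5 4
    rw [h4] at h3
    norm_num at h6
    linarith

end Pool.Agent.TH792.J1791
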